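import Mathlib

set_option autoImplicit false

open Finset Polynomial

namespace Pool.Agent.W732.OS

variable {A : Type*} [CommRing A] [Algebra ℂ A]

/-- Locally nilpotent derivations. -/
def IsLND (Θ : Derivation ℂ A A) : Prop := ∀ g : A, ∃ k : ℕ, (⇑Θ)^[k] g = 0

lemma iter_leibniz (Θ : Derivation ℂ A A) (n : ℕ) (a b : A) :
    (⇑Θ)^[n] (a * b) =
      ∑ ij ∈ antidiagonal n, n.choose ij.1 • ((⇑Θ)^[ij.1] a * (⇑Θ)^[ij.2] b) := by
  induction n with
  | zero => simp
  | succ n ih =>
    rw [Finset.sum_antidiagonal_choose_succ_nsmul (M := A)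
      (fun i j => (⇑Θ)^[i] a * (⇑Θ)^[j] b) n]
    simp only [Function.iterate_succ_apply', ih, map_sum, map_nsmul, Derivation.leibniz,
      smul_eq_mul, smul_add, sum_add_distrib]
    congr 1
    refine sum_congr rfl fun ⟨i, j⟩ hij ↦ ?_
    rw [n.choose_symm_of_eq_add (mem_antidiagonal.1 hij).symm, mul_comm]

lemma iter_zero (Θ : Derivation ℂ A A) (n : ℕ) : (⇑Θ)^[n] 0 = 0 := by
  induction n with
  | zero => rfl
  | succ n ih => rw [Function.iterate_succ_apply', ih, map_zero]

lemma iter_add (Θ : Derivation ℂ A A) (n : ℕ) (a b : A) :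
    (⇑Θ)^[n] (a + b) = (⇑Θ)^[n] a + (⇑Θ)^[n] b := by
  induction n with
  | zero => rfl
  | succ n ih => simp only [Function.iterate_succ_apply', ih, map_add]

lemma iter_smul (Θ : Derivation ℂ A A) (n : ℕ) (c : ℂ) (a : A) :
    (⇑Θ)^[n] (c • a) = c • (⇑Θ)^[n] a := by
  induction n with
  | zero => rfl
  | succ n ih => rw [Function.iterate_succ_apply', ih, Derivation.map_smul,
      Function.iterate_succ_apply']

lemma iter_ge (Θ : Derivation ℂ A A) {n k : ℕ} {a : A} (h : (⇑Θ)^[n] a = 0) (hk : n ≤ k) :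
    (⇑Θ)^[k] a = 0 := by
  obtain ⟨j, rfl⟩ := Nat.exists_eq_add_of_le hk
  rw [add_comm, Function.iterate_add_apply, h, iter_zero]

/-- Divided powers of a derivation. -/
noncomputable def dpw (Θ : Derivation ℂ A A) (r : ℕ) (a : A) : A :=
  ((r.factorial : ℂ)⁻¹) • (⇑Θ)^[r] a

@[simp] lemma dpw_zero (Θ : Derivation ℂ A A) (a : A) : dpw Θ 0 a = a := by simp [dpw]

lemma dpw_one (Θ : Derivation ℂ A A) (a : A) : dpw Θ 1 a = Θ a := by simp [dpw]

lemma dpw_add (Θ : Derivation ℂ A A) (r : ℕ) (a b : A) :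
    dpw Θ r (a + b) = dpw Θ r a + dpw Θ r b := by simp only [dpw, iter_add, smul_add]

lemma dpw_smul (Θ : Derivation ℂ A A) (r : ℕ) (c : ℂ) (a : A) :
    dpw Θ r (c • a) = c • dpw Θ r a := by
  simp only [dpw, iter_smul]; rw [smul_comm]

lemma dpw_mul (Θ : Derivation ℂ A A) (n : ℕ) (a b : A) :
    dpw Θ n (a * b) = ∑ ij ∈ antidiagonal n, dpw Θ ij.1 a * dpw Θ ij.2 b := by
  simp only [dpw, iter_leibniz, Finset.smul_sum]
  refine sum_congr rfl fun ⟨i, j⟩ hij ↦ ?_
  have hij' : i + j = n := mem_antidiagonal.1 hij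
  subst hij'
  simp only
  rw [← Nat.cast_smul_eq_nsmul ℂ, smul_smul, smul_mul_smul_comm]
  congr 1
  have h1 : ((i + j).factorial : ℂ) ≠ 0 := Nat.cast_ne_zero.2 (Nat.factorial_ne_zero _)
  have h2 : (i.factorial : ℂ) ≠ 0 := Nat.cast_ne_zero.2 (Nat.factorial_ne_zero _)
  have h3 : (j.factorial : ℂ) ≠ 0 := Nat.cast_ne_zero.2 (Nat.factorial_ne_zero _)
  have h4 : ((i + j).choose i : ℂ) * i.factorial * j.factorial = (i + j).factorial := by
    have := Nat.add_choose_mul_factorial_mul_factorial i j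
    rw [← Nat.choose_symm_add] at this
    exact_mod_cast this
  field_simp
  rw [← h4]

lemma dpw_succ (Θ : Derivation ℂ A A) (r : ℕ) (a : A) :
    dpw Θ r (Θ a) = ((r : ℂ) + 1) • dpw Θ (r + 1) a := by
  simp only [dpw, Nat.factorial_succ, smul_smul]
  rw [← Function.iterate_succ_apply (⇑Θ)]
  congr 1
  push_cast
  have h1 : ((r : ℂ) + 1) ≠ 0 := Nat.cast_add_one_ne_zero r
  have h2 : (r.factorial : ℂ) ≠ 0 := Nat.cast_ne_zero.2 (Nat.factorial_ne_zero _)
  field_simp

lemma dpw_comm (Θ : Derivation ℂ A A) (r : ℕ) (a : A) : Θ (dpw Θ r a) = dpw Θ r (Θ a) := by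
  simp only [dpw, Derivation.map_smul]
  rw [← Function.iterate_succ_apply' (⇑Θ), ← Function.iterate_succ_apply (⇑Θ)]

lemma dpw_ge (Θ : Derivation ℂ A A) {n k : ℕ} {a : A} (h : (⇑Θ)^[n] a = 0) (hk : n ≤ k) :
    dpw Θ k a = 0 := by simp [dpw, iter_ge Θ h hk]

lemma iter_one (Θ : Derivation ℂ A A) (r : ℕ) : (⇑Θ)^[r + 1] 1 = 0 := by
  rw [Function.iterate_succ_apply]
  simp [iter_zero]

open Classical in
/-- The Taylor polynomial of an element along a locally nilpotent derivation. -/
noncomputable def TA {Θ : Derivation ℂ A A} (h : IsLND Θ) (a : A) : A[X] :=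
  ∑ r ∈ range (Nat.find (h a)), monomial r (dpw Θ r a)

lemma coeff_TA {Θ : Derivation ℂ A A} (h : IsLND Θ) (a : A) (r : ℕ) :
    (TA h a).coeff r = dpw Θ r a := by
  classical
  simp only [TA, finsetSum_coeff, coeff_monomial]
  rw [Finset.sum_ite_eq']
  split_ifs with h1
  · rfl
  · rw [mem_range, not_lt] at h1
    symm
    apply dpw_ge Θ (Nat.find_spec (h a))
    convert h1

/-- The Taylor polynomial as a homomorphism of algebras. -/
noncomputable def TAhom {Θ : Derivation ℂ A A} (h : IsLND Θ) : A →ₐ[ℂ] A[X] where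
  toFun := TA h
  map_one' := by
    ext r
    rw [coeff_TA]
    cases r with
    | zero => simp
    | succ r => simp [dpw, iter_one, coeff_one]
  map_mul' := by
    intro a b
    ext r
    rw [coeff_TA, coeff_mul, dpw_mul]
    simp [coeff_TA]
  map_zero' := by
    ext r
    rw [coeff_TA]
    simp [dpw, iter_zero]
  map_add' := by
    intro a b
    ext r
    simp [coeff_TA, dpw_add]
  commutes' := by
    intro c
    ext r
    rw [coeff_TA, Polynomial.algebraMap_apply, Algebra.algebraMap_eq_smul_one, dpw_smul]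
    cases r with
    | zero => simp
    | succ r => simp [dpw, iter_one, coeff_C]

lemma TAhom_apply {Θ : Derivation ℂ A A} (h : IsLND Θ) (a : A) : TAhom h a = TA h a := rfl

/-- The exponential `exp (s Θ)`. -/
noncomputable def EE {Θ : Derivation ℂ A A} (h : IsLND Θ) (s : ℂ) : A →ₐ[ℂ] A :=
  ((Polynomial.aeval (R := A) (algebraMap ℂ A s)).restrictScalars ℂ).comp (TAhom h)

lemma EE_def {Θ : Derivation ℂ A A} (h : IsLND Θ) (s : ℂ) (a : A) :
    EE h s a = (TA h a).eval (algebraMap ℂ A s) := by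
  simp [EE, TAhom_apply]

lemma EE_eq {Θ : Derivation ℂ A A} (h : IsLND Θ) (s : ℂ) (a : A) {R : ℕ}
    (hR : (⇑Θ)^[R] a = 0) : EE h s a = ∑ r ∈ range R, s ^ r • dpw Θ r a := by
  have h1 : (TA h a).natDegree < R + 1 := by
    rw [Nat.lt_succ_iff, Polynomial.natDegree_le_iff_coeff_eq_zero]
    intro N hN
    rw [coeff_TA]
    exact dpw_ge Θ hR (by omega)
  rw [EE_def, Polynomial.eval_eq_sum_range' h1, sum_range_succ, coeff_TA, dpw_ge Θ hR le_rfl,
    zero_mul, add_zero]
  refine sum_congr rfl fun r _ => ?_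
  rw [coeff_TA, ← map_pow, mul_comm, ← Algebra.smul_def]

lemma EE_comm {Θ : Derivation ℂ A A} (h : IsLND Θ) (s : ℂ) (a : A) :
    Θ (EE h s a) = EE h s (Θ a) := by
  obtain ⟨R, hR⟩ := h a
  have hR' : (⇑Θ)^[R] (Θ a) = 0 := by
    rw [← Function.iterate_succ_apply (⇑Θ), Function.iterate_succ_apply', hR, map_zero]
  rw [EE_eq h s a hR, EE_eq h s (Θ a) hR', map_sum]
  refine sum_congr rfl fun r _ => ?_
  rw [Derivation.map_smul, dpw_comm]

lemma EE_zero {Θ : Derivation ℂ A A} (h : IsLND Θ) (a : A) : EE h 0 a = a := by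
  obtain ⟨R, hR⟩ := h a
  rw [EE_eq h 0 a (iter_ge Θ hR (Nat.le_succ R)), sum_range_succ']
  simp

lemma derivative_TA {Θ : Derivation ℂ A A} (h : IsLND Θ) (a : A) :
    derivative (TA h a) = TA h (Θ a) := by
  ext r
  rw [coeff_derivative, coeff_TA, coeff_TA, dpw_succ, Algebra.smul_def, mul_comm]
  simp

lemma TA_EE {Θ : Derivation ℂ A A} (h : IsLND Θ) (t : ℂ) (k : ℕ) :
    ∀ a : A, (⇑Θ)^[k] a = 0 →
      TA h (EE h t a) = (TA h a).comp (X + C (algebraMap ℂ A t)) := by
  induction k with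
  | zero =>
    intro a ha
    have : a = 0 := ha
    subst this
    have h0 : TA h 0 = 0 := map_zero (TAhom h)
    rw [map_zero, h0]
    simp
  | succ k ih =>
    intro a ha
    have ha' : (⇑Θ)^[k] (Θ a) = 0 := by rw [← Function.iterate_succ_apply (⇑Θ)]; exact ha
    have h1 : derivative (TA h (EE h t a)) =
        derivative ((TA h a).comp (X + C (algebraMap ℂ A t))) := by
      rw [derivative_TA, EE_comm, ih _ ha', derivative_comp, derivative_TA]
      simp
    ext r
    cases r with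
    | zero =>
      rw [coeff_TA, dpw_zero, Polynomial.coeff_zero_eq_eval_zero, Polynomial.eval_comp, EE_def]
      simp
    | succ r =>
      have h2 := congrArg (fun p => Polynomial.coeff p r) h1
      simp only [coeff_derivative] at h2
      have h3 : IsUnit ((r : A) + 1) := by
        have : ((r : A) + 1) = algebraMap ℂ A ((r : ℂ) + 1) := by simp
        rw [this]
        apply IsUnit.map
        rw [isUnit_iff_ne_zero]
        exact Nat.cast_add_one_ne_zero r
      exact h3.mul_right_cancel h2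

lemma EE_add {Θ : Derivation ℂ A A} (h : IsLND Θ) (s t : ℂ) (a : A) :
    EE h s (EE h t a) = EE h (s + t) a := by
  obtain ⟨R, hR⟩ := h a
  rw [EE_def h s, TA_EE h t R a hR, Polynomial.eval_comp, EE_def h (s + t)]
  simp

lemma EE_neg {Θ : Derivation ℂ A A} (h : IsLND Θ) (s : ℂ) (a : A) :
    EE h s (EE h (-s) a) = a := by
  rw [EE_add, add_neg_cancel, EE_zero]

/-- Conjugation of a derivation with `exp (s Θ)`. -/
noncomputable def conjD {Θ : Derivation ℂ A A} (h : IsLND Θ) (s : ℂ) (D : Derivation ℂ A A) :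
    Derivation ℂ A A where
  toFun a := EE h s (D (EE h (-s) a))
  map_add' a b := by simp
  map_smul' c a := by simp
  map_one_eq_zero' := by simp
  leibniz' a b := by
    simp only [LinearMap.coe_mk, AddHom.coe_mk, map_mul, Derivation.leibniz, smul_eq_mul, map_add,
      EE_neg]

lemma conjD_apply {Θ : Derivation ℂ A A} (h : IsLND Θ) (s : ℂ) (D : Derivation ℂ A A) (a : A) :
    conjD h s D a = EE h s (D (EE h (-s) a)) := rfl

lemma conjD_LND {Θ D : Derivation ℂ A A} (h : IsLND Θ) (s : ℂ) (hD : IsLND D) :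
    IsLND (conjD h s D) := by
  intro a
  have key : ∀ k, (⇑(conjD h s D))^[k] a = EE h s ((⇑D)^[k] (EE h (-s) a)) := by
    intro k
    induction k with
    | zero => simp [EE_neg]
    | succ k ih =>
      rw [Function.iterate_succ_apply', ih, conjD_apply, Function.iterate_succ_apply']
      congr 2
      rw [EE_add, neg_add_cancel, EE_zero]
  obtain ⟨k, hk⟩ := hD (EE h (-s) a)
  exact ⟨k, by rw [key, hk, map_zero]⟩

/-- Coefficients of a polynomial curve in a subspace lie in the subspace. -/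
lemma vand {V : Type*} [AddCommGroup V] [Module ℂ V] (M : Submodule ℂ V) {ι : Type*}
    (T : Finset ι) (n : ι → ℕ) (w : ι → V)
    (h : ∀ s : ℂ, ∑ i ∈ T, s ^ (n i) • w i ∈ M) (N : ℕ) :
    ∑ i ∈ T with n i = N, w i ∈ M := by
  rw [← Submodule.Quotient.mk_eq_zero, ← Module.forall_dual_apply_eq_zero_iff ℂ]
  intro g
  have h1 : (∑ i ∈ T, monomial (n i) (g (M.mkQ (w i))) : ℂ[X]) = 0 := by
    apply Polynomial.funext
    intro s
    rw [eval_finsetSum, eval_zero]
    have h2 : g (M.mkQ (∑ i ∈ T, s ^ (n i) • w i)) = 0 := by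
      have : M.mkQ (∑ i ∈ T, s ^ (n i) • w i) = 0 := by
        rw [Submodule.mkQ_apply, Submodule.Quotient.mk_eq_zero]; exact h s
      rw [this, map_zero]
    rw [map_sum, map_sum] at h2
    rw [← h2]
    refine sum_congr rfl fun i _ => ?_
    rw [map_smul, map_smul, eval_monomial, smul_eq_mul, mul_comm]
  have h3 := congrArg (fun p => Polynomial.coeff p N) h1
  simp only [finsetSum_coeff, coeff_monomial, coeff_zero] at h3
  rw [← Submodule.mkQ_apply, map_sum, map_sum, Finset.sum_filter]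
  exact h3

/-- The bracket of two locally nilpotent derivations of a finitely generated algebra is in the
linear span of the locally nilpotent derivations. -/
lemma bracket_mem {m : ℕ} {x : Fin m → A} (hx : Algebra.adjoin ℂ (Set.range x) = ⊤)
    {Θ Θ' : Derivation ℂ A A} (h : IsLND Θ) (h' : IsLND Θ') :
    ⁅Θ, Θ'⁆ ∈ Submodule.span ℂ {V : Derivation ℂ A A | IsLND V} := by
  classical
  set L := Submodule.span ℂ {V : Derivation ℂ A A | IsLND V} with hL
  let evm : Derivation ℂ A A →ₗ[ℂ] (Fin m → A) :=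
    { toFun := fun D j => D (x j)
      map_add' := fun D D' => by ext j; simp
      map_smul' := fun c D => by ext j; simp }
  have evinj : Function.Injective evm := by
    intro D D' hDD
    have : ∀ a ∈ Algebra.adjoin ℂ (Set.range x), D a = D' a := by
      intro a ha
      have hE : Set.EqOn D D' (Set.range x) := by
        rintro _ ⟨j, rfl⟩
        exact congrFun hDD j
      exact Derivation.eqOn_adjoin hE ha
    ext a
    exact this a (by rw [hx]; trivial)
  have hR : ∃ R : ℕ, 2 ≤ R ∧ ∀ j, (⇑Θ)^[R] (x j) = 0 := by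
    choose r hr using fun j => h (x j)
    refine ⟨2 + ∑ j, r j, by omega, fun j => iter_ge Θ (hr j) ?_⟩
    have := Finset.single_le_sum (f := r) (fun i _ => Nat.zero_le _) (Finset.mem_univ j)
    omega
  obtain ⟨R, hR2, hR⟩ := hR
  have hR' : ∃ R' : ℕ, 2 ≤ R' ∧ ∀ j, ∀ i ∈ range R, (⇑Θ)^[R'] (Θ' (dpw Θ i (x j))) = 0 := by
    choose r hr using fun (j : Fin m) (i : ℕ) => h (Θ' (dpw Θ i (x j)))
    refine ⟨2 + ∑ j, ∑ i ∈ range R, r j i, by omega, fun j i hi => iter_ge Θ (hr j i) ?_⟩
    have h1 := Finset.single_le_sum (f := fun j => ∑ i ∈ range R, r j i)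
      (fun i _ => Nat.zero_le _) (Finset.mem_univ j)
    have h2 := Finset.single_le_sum (f := fun i => r j i) (fun i _ => Nat.zero_le _) hi
    omega
  obtain ⟨R', hR2', hR'⟩ := hR'
  let w : ℕ × ℕ → (Fin m → A) := fun ij l =>
    (-1 : ℂ) ^ ij.1 • dpw Θ ij.2 (Θ' (dpw Θ ij.1 (x l)))
  have hconj : ∀ s : ℂ, ∑ ij ∈ range R ×ˢ range R', s ^ (ij.1 + ij.2) • w ij =
      evm (conjD h s Θ') := by
    intro s
    funext l
    simp only [Finset.sum_apply, Pi.smul_apply, w]
    change _ = EE h s (Θ' (EE h (-s) (x l)))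
    rw [EE_eq h (-s) (x l) (hR l), map_sum, map_sum, Finset.sum_product]
    refine sum_congr rfl fun i hi => ?_
    rw [Derivation.map_smul, map_smul, EE_eq h s _ (hR' l i hi), Finset.smul_sum]
    refine sum_congr rfl fun j _ => ?_
    rw [smul_smul, smul_smul]
    congr 1
    rw [neg_pow, pow_add]
    ring
  have hv := vand (L.map evm) (range R ×ˢ range R') (fun ij => ij.1 + ij.2) w (by
    intro s
    rw [hconj]
    exact Submodule.mem_map_of_mem (Submodule.subset_span (conjD_LND h s h'))) 1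
  have hfil : ((range R ×ˢ range R').filter fun ij => ij.1 + ij.2 = 1) = {(1, 0), (0, 1)} := by
    ext ⟨i, j⟩
    simp only [Finset.mem_filter, Finset.mem_product, Finset.mem_range, Finset.mem_insert,
      Finset.mem_singleton, Prod.mk.injEq]
    omega
  rw [hfil, Finset.sum_pair (by simp)] at hv
  obtain ⟨D, hD, hDe⟩ := Submodule.mem_map.1 hv
  have : D = ⁅Θ, Θ'⁆ := by
    apply evinj
    rw [hDe]
    funext l
    simp only [w, Pi.add_apply, dpw_one, dpw_zero, pow_one, pow_zero, one_smul, neg_smul]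
    change _ = ⁅Θ, Θ'⁆ (x l)
    rw [Derivation.commutator_apply]
    ring
  rw [← this]
  exact hD

/-- The algebraic overshear density property: every derivation is a combination of locally
nilpotent ones. -/
lemma span_lnd {m : ℕ} {x : Fin m → A} (hx : Algebra.adjoin ℂ (Set.range x) = ⊤)
    (hos : LieSubalgebra.lieSpan ℂ (Derivation ℂ A A)
      {V | ∃ Θ : Derivation ℂ A A, (∀ g : A, ∃ k : ℕ, (⇑Θ)^[k] g = 0) ∧
        ∃ f : A, Θ (Θ f) = 0 ∧ V = f • Θ} = ⊤) :
    Submodule.span A {V : Derivation ℂ A A | IsLND V} = ⊤ := by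
  set M := Submodule.span A {V : Derivation ℂ A A | IsLND V} with hM
  have hspan : ∀ D ∈ Submodule.span ℂ {V : Derivation ℂ A A | IsLND V}, D ∈ M := by
    intro D hD
    induction hD using Submodule.span_induction with
    | mem D h => exact Submodule.subset_span h
    | zero => exact M.zero_mem
    | add a b _ _ ha hb => exact M.add_mem ha hb
    | smul c a _ ha =>
      have : c • a = (algebraMap ℂ A c) • a := by rw [algebraMap_smul]
      rw [this]
      exact M.smul_mem _ ha
  have h1 : ∀ D ∈ M, ∀ Θ : Derivation ℂ A A, IsLND Θ → ⁅Θ, D⁆ ∈ M := by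
    intro D hD Θ hΘ
    induction hD using Submodule.span_induction with
    | mem D h => exact hspan _ (bracket_mem hx hΘ h)
    | zero => rw [lie_zero]; exact M.zero_mem
    | add a b _ _ ha hb => rw [lie_add]; exact M.add_mem ha hb
    | smul c a hac ha =>
      have : ⁅Θ, c • a⁆ = c • ⁅Θ, a⁆ + Θ c • a := by
        ext b
        simp only [Derivation.commutator_apply, Derivation.coe_smul, Pi.smul_apply,
          Derivation.coe_add, Pi.add_apply, smul_eq_mul, Derivation.leibniz]
        ring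
      rw [this]
      exact M.add_mem (M.smul_mem _ ha) (M.smul_mem _ hac)
  have h2 : ∀ D ∈ M, ∀ D' ∈ M, ⁅D', D⁆ ∈ M := by
    intro D hD D' hD'
    induction hD' using Submodule.span_induction with
    | mem D' h => exact h1 D hD D' h
    | zero => rw [zero_lie]; exact M.zero_mem
    | add a b _ _ ha hb => rw [add_lie]; exact M.add_mem ha hb
    | smul c a hac ha =>
      have : ⁅c • a, D⁆ = c • ⁅a, D⁆ - D c • a := by
        ext b
        simp only [Derivation.commutator_apply, Derivation.coe_smul, Pi.smul_apply,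
          Derivation.coe_sub, Pi.sub_apply, smul_eq_mul, Derivation.leibniz]
        ring
      rw [this]
      exact M.sub_mem (M.smul_mem _ ha) (M.smul_mem _ hac)
  let S : LieSubalgebra ℂ (Derivation ℂ A A) :=
    { (M.restrictScalars ℂ) with
      lie_mem' := fun {D D'} hD hD' => h2 D' hD' D hD }
  have hS : LieSubalgebra.lieSpan ℂ (Derivation ℂ A A)
      {V | ∃ Θ : Derivation ℂ A A, (∀ g : A, ∃ k : ℕ, (⇑Θ)^[k] g = 0) ∧
        ∃ f : A, Θ (Θ f) = 0 ∧ V = f • Θ} ≤ S := by
    rw [LieSubalgebra.lieSpan_le]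
    rintro V ⟨Θ, hΘ, f, _, rfl⟩
    exact M.smul_mem f (Submodule.subset_span hΘ)
  rw [hos] at hS
  rw [eq_top_iff]
  intro D _
  exact hS (LieSubalgebra.mem_top D)

end Pool.Agent.W732.OS
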