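import Mathlib
import Pool.Agent.W732.Alg1

set_option autoImplicit false
set_option linter.unusedSectionVars false

open MvPolynomial

namespace Pool.Agent.W732.OS

variable {m : ℕ} (I : Ideal (MvPolynomial (Fin m) ℂ))

/-- The coordinate ring. -/
abbrev Ax := MvPolynomial (Fin m) ℂ ⧸ I

/-- The coordinate functions. -/
noncomputable def xx (j : Fin m) : Ax I := Ideal.Quotient.mk I (X j)

lemma adjoin_xx : Algebra.adjoin ℂ (Set.range (xx I)) = ⊤ := by
  have h1 : Set.range (xx I) = (Ideal.Quotient.mkₐ ℂ I) '' (Set.range (X : Fin m → _)) := by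
    rw [← Set.range_comp]; rfl
  rw [h1, ← AlgHom.map_adjoin, MvPolynomial.adjoin_range_X, Algebra.map_top,
    AlgHom.range_eq_top]
  exact Ideal.Quotient.mk_surjective

lemma der_mk (D : Derivation ℂ (Ax I) (Ax I)) (P : MvPolynomial (Fin m) ℂ) :
    D (Ideal.Quotient.mk I P) = ∑ j, Ideal.Quotient.mk I (pderiv j P) * D (xx I j) := by
  induction P using MvPolynomial.induction_on with
  | C a =>
    have : Ideal.Quotient.mk I (C a) = algebraMap ℂ (Ax I) a := rfl
    rw [this]
    simp
  | add p q hp hq =>
    simp only [map_add, hp, hq, add_mul, Finset.sum_add_distrib]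
  | mul_X p i hp =>
    simp only [map_mul, Derivation.leibniz, hp, smul_eq_mul, map_add, add_mul,
      Finset.sum_add_distrib, Finset.mul_sum]
    congr 1
    · rw [Finset.sum_eq_single i]
      · rw [pderiv_X_self]; simp [xx]
      · intro j _ hj
        rw [pderiv_X_of_ne hj.symm]; simp
      · simp
    · refine Finset.sum_congr rfl fun j _ => ?_
      ring

lemma der_ext {D D' : Derivation ℂ (Ax I) (Ax I)} (h : ∀ j, D (xx I j) = D' (xx I j)) :
    D = D' := by
  ext a
  obtain ⟨P, rfl⟩ := Ideal.Quotient.mk_surjective a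
  rw [der_mk, der_mk]
  simp only [h]

/-- A tuple killed by the differentials of the elements of `I` defines a derivation. -/
lemma exists_der (a : Fin m → Ax I)
    (h : ∀ P ∈ I, ∑ j, Ideal.Quotient.mk I (pderiv j P) * a j = 0) :
    ∃ D : Derivation ℂ (Ax I) (Ax I), ∀ j, D (xx I j) = a j := by
  let D0 : Derivation ℂ (MvPolynomial (Fin m) ℂ) (Ax I) := mkDerivation ℂ a
  have hD0 : ∀ P, D0 P = ∑ j, Ideal.Quotient.mk I (pderiv j P) * a j := by
    intro P
    induction P using MvPolynomial.induction_on with
    | C a => rw [← algebraMap_eq, Derivation.map_algebraMap, algebraMap_eq]; simp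
    | add p q hp hq =>
      simp only [map_add, hp, hq, add_mul, Finset.sum_add_distrib]
    | mul_X p i hp =>
      simp only [Derivation.leibniz, hp, smul_eq_mul, map_add, add_mul,
        Finset.sum_add_distrib]
      congr 1
      · rw [Finset.sum_eq_single i]
        · rw [pderiv_X_self]; simp only [D0, mkDerivation_X, mul_one]; rfl
        · intro j _ hj
          rw [pderiv_X_of_ne hj.symm]; simp
        · simp
      · have hsm : ∀ (P : MvPolynomial (Fin m) ℂ) (y : Ax I),
          P • y = Ideal.Quotient.mk I P * y := by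
          intro P y
          obtain ⟨Y, rfl⟩ := Ideal.Quotient.mk_surjective y
          rfl
        rw [hsm, Finset.mul_sum]
        refine Finset.sum_congr rfl fun j _ => ?_
        rw [map_mul]
        ring
  let L : Ax I →ₗ[ℂ] Ax I := (I.restrictScalars ℂ).liftQ D0.toLinearMap (by
    intro P hP
    rw [LinearMap.mem_ker]
    change D0 P = 0
    rw [hD0]
    exact h P hP)
  have hL : ∀ P, L (Ideal.Quotient.mk I P) = D0 P := fun P => rfl
  refine ⟨Derivation.mk' L ?_, ?_⟩
  · intro p q
    obtain ⟨P, rfl⟩ := Ideal.Quotient.mk_surjective p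
    obtain ⟨Q, rfl⟩ := Ideal.Quotient.mk_surjective q
    rw [← map_mul, hL, hL, hL, Derivation.leibniz]
    rfl
  · intro j
    change L (Ideal.Quotient.mk I (X j)) = a j
    rw [hL]
    simp [D0, mkDerivation_X]

variable [I.IsPrime]

/-- The function field. -/
abbrev Kx := FractionRing (Ax I)

/-- The vector of coordinates of a derivation. -/
noncomputable def vec (D : Derivation ℂ (Ax I) (Ax I)) : Fin m → Kx I :=
  fun j => algebraMap (Ax I) (Kx I) (D (xx I j))

/-- The tangent space at the generic point. -/
noncomputable def TK : Submodule (Kx I) (Fin m → Kx I) where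
  carrier := {v | ∀ P ∈ I, ∑ j, algebraMap (Ax I) (Kx I) (Ideal.Quotient.mk I (pderiv j P)) * v j
    = 0}
  add_mem' := by
    intro v w hv hw P hP
    simp only [Pi.add_apply, mul_add, Finset.sum_add_distrib, hv P hP, hw P hP, add_zero]
  zero_mem' := by intro P _; simp
  smul_mem' := by
    intro c v hv P hP
    have : ∑ j, algebraMap (Ax I) (Kx I) (Ideal.Quotient.mk I (pderiv j P)) * (c • v) j =
        c * ∑ j, algebraMap (Ax I) (Kx I) (Ideal.Quotient.mk I (pderiv j P)) * v j := by
      rw [Finset.mul_sum]
      refine Finset.sum_congr rfl fun j _ => ?_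
      simp only [Pi.smul_apply, smul_eq_mul]; ring
    rw [this, hv P hP, mul_zero]

lemma mem_TK {v : Fin m → Kx I} : v ∈ TK I ↔ ∀ P ∈ I,
    ∑ j, algebraMap (Ax I) (Kx I) (Ideal.Quotient.mk I (pderiv j P)) * v j = 0 := Iff.rfl

lemma vec_mem (D : Derivation ℂ (Ax I) (Ax I)) : vec I D ∈ TK I := by
  intro P hP
  have h1 := der_mk I D P
  have h2 : Ideal.Quotient.mk I P = 0 := Ideal.Quotient.eq_zero_iff_mem.2 hP
  rw [h2, map_zero] at h1
  simp only [vec, ← map_mul, ← map_sum, ← h1, map_zero]

/-- With the algebraic overshear density property the locally nilpotent derivations span the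
tangent space at the generic point. -/
lemma span_vec (hspan : Submodule.span (Ax I) {V : Derivation ℂ (Ax I) (Ax I) | IsLND V} = ⊤) :
    Submodule.span (Kx I) (vec I '' {V | IsLND V}) = TK I := by
  apply le_antisymm
  · rw [Submodule.span_le]
    rintro _ ⟨V, _, rfl⟩
    exact vec_mem I V
  intro v hv
  obtain ⟨b, hb⟩ := IsLocalization.exist_integer_multiples_of_finite
    (nonZeroDivisors (Ax I)) (S := Kx I) v
  choose a ha using hb
  have hb0 : algebraMap (Ax I) (Kx I) (b : Ax I) ≠ 0 := by
    intro h0
    exact nonZeroDivisors.coe_ne_zero b ((IsFractionRing.injective (Ax I) (Kx I))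
      (by rw [h0, map_zero]))
  have ha' : ∀ j, algebraMap (Ax I) (Kx I) (a j) = algebraMap (Ax I) (Kx I) (b : Ax I) * v j := by
    intro j; rw [ha j, Algebra.smul_def]
  obtain ⟨D, hD⟩ := exists_der I a (by
    intro P hP
    apply IsFractionRing.injective (Ax I) (Kx I)
    rw [map_sum, map_zero]
    have : ∀ j, algebraMap (Ax I) (Kx I) (Ideal.Quotient.mk I (pderiv j P) * a j) =
      algebraMap (Ax I) (Kx I) (b : Ax I) *
        (algebraMap (Ax I) (Kx I) (Ideal.Quotient.mk I (pderiv j P)) * v j) := by
      intro j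
      rw [map_mul, ha' j]; ring
    simp only [this]
    rw [← Finset.mul_sum, hv P hP, mul_zero])
  have h1 : ∀ D' : Derivation ℂ (Ax I) (Ax I),
      vec I D' ∈ Submodule.span (Kx I) (vec I '' {V | IsLND V}) := by
    intro D'
    have hD' : D' ∈ Submodule.span (Ax I) {V : Derivation ℂ (Ax I) (Ax I) | IsLND V} := by
      rw [hspan]; trivial
    induction hD' using Submodule.span_induction with
    | mem D h => exact Submodule.subset_span ⟨D, h, rfl⟩
    | zero =>
      have : vec I 0 = 0 := by ext j; simp [vec]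
      rw [this]; exact Submodule.zero_mem _
    | add x y _ _ hx hy =>
      have : vec I (x + y) = vec I x + vec I y := by ext j; simp [vec]
      rw [this]; exact Submodule.add_mem _ hx hy
    | smul c x _ hx =>
      have : vec I (c • x) = algebraMap (Ax I) (Kx I) c • vec I x := by ext j; simp [vec]
      rw [this]; exact Submodule.smul_mem _ _ hx
  have h2 : v = (algebraMap (Ax I) (Kx I) (b : Ax I))⁻¹ • vec I D := by
    ext j
    simp only [Pi.smul_apply, vec, hD, ha', smul_eq_mul]
    field_simp
  rw [h2]
  exact Submodule.smul_mem _ _ (h1 D)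

/-- A basis of the generic tangent space by locally nilpotent derivations. -/
lemma exists_basis
    (hspan : Submodule.span (Ax I) {V : Derivation ℂ (Ax I) (Ax I) | IsLND V} = ⊤) :
    ∃ (n : ℕ) (Θ : Fin n → Derivation ℂ (Ax I) (Ax I)), (∀ l, IsLND (Θ l)) ∧
      LinearIndependent (Kx I) (fun l => vec I (Θ l)) ∧
      Submodule.span (Kx I) (Set.range fun l => vec I (Θ l)) = TK I := by
  obtain ⟨b, hb, hb1, hb2⟩ := exists_linearIndependent (Kx I) (vec I '' {V | IsLND V})
  have hfin : b.Finite := hb2.setFinite
  have : Fintype b := hfin.fintype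
  let e := Fintype.equivFin b
  have hch : ∀ l : Fin (Fintype.card b), ∃ V : Derivation ℂ (Ax I) (Ax I), IsLND V ∧
      vec I V = (e.symm l : Fin m → Kx I) := fun l => by
    obtain ⟨V, hV, hV'⟩ := hb (e.symm l).2
    exact ⟨V, hV, hV'⟩
  choose Θ hΘ hΘ' using hch
  refine ⟨Fintype.card b, Θ, hΘ, ?_, ?_⟩
  · have h1 : (fun l => vec I (Θ l)) = (Subtype.val : b → _) ∘ e.symm := by
      funext l; exact hΘ' l
    rw [h1]
    exact hb2.comp _ e.symm.injective
  · have h1 : (Set.range fun l => vec I (Θ l)) = b := by
      ext v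
      constructor
      · rintro ⟨l, rfl⟩
        simp only [hΘ']
        exact (e.symm l).2
      · intro hv
        exact ⟨e ⟨v, hv⟩, by simp [hΘ']⟩
    rw [h1, hb1, span_vec I hspan]

end Pool.Agent.W732.OS
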