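import Mathlib
import Pool.Agent.W732.Alg2

set_option autoImplicit false
set_option linter.unusedSectionVars false

open MvPolynomial

namespace Pool.Agent.W732.OS

variable {m : ℕ} (I : Ideal (MvPolynomial (Fin m) ℂ)) [I.IsPrime]

set_option maxHeartbeats 2000000 in
/-- Splitting of the generic tangent sequence, with denominators cleared. -/
lemma exists_split {n : ℕ} {Θ : Fin n → Derivation ℂ (Ax I) (Ax I)}
    (hli : LinearIndependent (Kx I) (fun l => vec I (Θ l)))
    (hsp : Submodule.span (Kx I) (Set.range fun l => vec I (Θ l)) = TK I) :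
    ∃ (G : Finset (MvPolynomial (Fin m) ℂ)) (_ : ∀ P ∈ G, P ∈ I)
      (B : Fin n → Fin m → Ax I) (C : Fin m → G → Ax I) (e : Ax I), e ≠ 0 ∧
      (∀ i l, ∑ j, B i j * Θ l (xx I j) = if i = l then e else 0) ∧
      (∀ j j', ∑ i, Θ i (xx I j) * B i j' +
        ∑ r : G, C j r * Ideal.Quotient.mk I (pderiv j' (r : MvPolynomial (Fin m) ℂ)) =
          if j = j' then e else 0) := by
  classical
  obtain ⟨G, hG⟩ := (isNoetherian_def.1 (inferInstance :
    IsNoetherian (MvPolynomial (Fin m) ℂ) (MvPolynomial (Fin m) ℂ))) I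
  have hGI : ∀ P ∈ G, P ∈ I := by
    intro P hP
    rw [← hG]
    exact Submodule.subset_span hP
  let F : Matrix (Fin m) (Fin n) (Kx I) := fun j l => vec I (Θ l) j
  let J : Matrix G (Fin m) (Kx I) := fun r j =>
    algebraMap (Ax I) (Kx I) (Ideal.Quotient.mk I (pderiv j (r : MvPolynomial (Fin m) ℂ)))
  have hFapp : ∀ c : Fin n → Kx I, Matrix.toLin' F c = ∑ l, c l • vec I (Θ l) := by
    intro c
    ext j
    rw [Matrix.toLin'_apply, Matrix.mulVec, dotProduct, Finset.sum_apply]
    refine Finset.sum_congr rfl fun l _ => ?_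
    rw [Pi.smul_apply, smul_eq_mul, mul_comm]
  have hJapp : ∀ (v : Fin m → Kx I) (r : G), Matrix.toLin' J v r =
      ∑ j, algebraMap (Ax I) (Kx I)
        (Ideal.Quotient.mk I (pderiv j (r : MvPolynomial (Fin m) ℂ))) * v j := by
    intro v r
    rw [Matrix.toLin'_apply, Matrix.mulVec, dotProduct]
  have hker : LinearMap.ker (Matrix.toLin' F) = ⊥ := by
    rw [LinearMap.ker_eq_bot']
    intro c hc
    rw [hFapp] at hc
    funext l
    exact Fintype.linearIndependent_iff.1 hli c hc l
  have hkJ : LinearMap.ker (Matrix.toLin' J) = LinearMap.range (Matrix.toLin' F) := by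
    have h1 : LinearMap.ker (Matrix.toLin' J) = TK I := by
      ext v
      rw [LinearMap.mem_ker, mem_TK]
      constructor
      · intro hv P hP
        rw [← hG] at hP
        change P ∈ Submodule.span _ _ at hP
        induction hP using Submodule.span_induction with
        | mem P h =>
          have := congrFun hv ⟨P, h⟩
          rw [hJapp] at this
          exact this
        | zero => simp
        | add P Q _ _ hP hQ => simp only [map_add, add_mul, Finset.sum_add_distrib, hP, hQ, add_zero]
        | smul c P hPG hP =>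
          have hPI : Ideal.Quotient.mk I P = 0 := by
            rw [Ideal.Quotient.eq_zero_iff_mem, ← hG]; exact hPG
          have : ∀ j, algebraMap (Ax I) (Kx I) (Ideal.Quotient.mk I (pderiv j (c • P))) * v j =
              algebraMap (Ax I) (Kx I) (Ideal.Quotient.mk I c) *
              (algebraMap (Ax I) (Kx I) (Ideal.Quotient.mk I (pderiv j P)) * v j) := by
            intro j
            rw [smul_eq_mul, Derivation.leibniz]
            simp only [smul_eq_mul, map_add, map_mul, hPI, map_zero]
            ring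
          simp only [this]
          rw [← Finset.mul_sum, hP, mul_zero]
      · intro hv
        funext r
        have := hv r (hGI _ r.2)
        rw [hJapp]
        exact this
    rw [h1, ← hsp]
    ext v
    rw [LinearMap.mem_range]
    constructor
    · intro hv
      obtain ⟨c, hc⟩ := (Submodule.mem_span_range_iff_exists_fun (Kx I)).1 hv
      exact ⟨c, by rw [hFapp, hc]⟩
    · rintro ⟨c, rfl⟩
      rw [hFapp]
      exact (Submodule.mem_span_range_iff_exists_fun (Kx I)).2 ⟨c, rfl⟩
  obtain ⟨B', hB'⟩ := LinearMap.exists_leftInverse_of_injective (Matrix.toLin' F) hker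
  set TF := Matrix.toLin' F with hTF
  set TJ := Matrix.toLin' J with hTJ
  let U : (Fin m → Kx I) →ₗ[Kx I] (Fin m → Kx I) := LinearMap.id - TF ∘ₗ B'
  have hU : LinearMap.ker TJ ≤ LinearMap.ker U := by
    rw [hkJ]
    rintro _ ⟨c, rfl⟩
    rw [LinearMap.mem_ker]
    have : B' (TF c) = c := LinearMap.congr_fun hB' c
    simp only [U, LinearMap.sub_apply, LinearMap.id_apply, LinearMap.comp_apply, this, sub_self]
  obtain ⟨Li, hLi⟩ := LinearMap.exists_leftInverse_of_injective
    ((LinearMap.ker TJ).liftQ TJ le_rfl)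
    (Submodule.ker_liftQ_eq_bot _ _ _ le_rfl)
  let C' : (G → Kx I) →ₗ[Kx I] (Fin m → Kx I) := ((LinearMap.ker TJ).liftQ U hU) ∘ₗ Li
  have hC' : C' ∘ₗ TJ = U := by
    refine LinearMap.ext fun v => ?_
    have h1 : ((LinearMap.ker TJ).liftQ TJ le_rfl) (Submodule.Quotient.mk v) = TJ v :=
      Submodule.liftQ_apply _ _ _
    have h2 := LinearMap.congr_fun hLi (Submodule.Quotient.mk v)
    rw [LinearMap.comp_apply, LinearMap.id_apply, h1] at h2
    rw [LinearMap.comp_apply]
    change ((LinearMap.ker TJ).liftQ U hU) (Li (TJ v)) = U v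
    rw [h2]
    exact Submodule.liftQ_apply _ _ _
  have e1 : LinearMap.toMatrix' B' * F = 1 := by
    rw [← LinearMap.toMatrix'_toLin' F, ← hTF, ← LinearMap.toMatrix'_comp, hB',
      LinearMap.toMatrix'_id]
  have e2 : F * LinearMap.toMatrix' B' + LinearMap.toMatrix' C' * J = 1 := by
    have h3 : TF ∘ₗ B' + C' ∘ₗ TJ = LinearMap.id := by
      rw [hC']; simp only [U]; abel
    have h4 := congrArg LinearMap.toMatrix' h3
    rw [map_add, LinearMap.toMatrix'_comp, LinearMap.toMatrix'_comp, hTF, hTJ,
      LinearMap.toMatrix'_toLin', LinearMap.toMatrix'_toLin', LinearMap.toMatrix'_id] at h4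
    exact h4
  obtain ⟨b, hb⟩ := IsLocalization.exist_integer_multiples_of_finite
    (nonZeroDivisors (Ax I)) (S := Kx I)
    (Sum.elim (fun p : Fin n × Fin m => LinearMap.toMatrix' B' p.1 p.2)
      (fun p : Fin m × G => LinearMap.toMatrix' C' p.1 p.2))
  choose a ha using hb
  have hinj := IsFractionRing.injective (Ax I) (Kx I)
  refine ⟨G, hGI, fun i j => a (Sum.inl (i, j)), fun j r => a (Sum.inr (j, r)), (b : Ax I),
    nonZeroDivisors.coe_ne_zero b, ?_, ?_⟩
  · intro i l
    apply hinj
    have h5 := congrFun (congrFun e1 i) l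
    rw [Matrix.mul_apply] at h5
    rw [map_sum]
    have : ∀ j, algebraMap (Ax I) (Kx I) (a (Sum.inl (i, j)) * Θ l (xx I j)) =
        algebraMap (Ax I) (Kx I) (b : Ax I) * (LinearMap.toMatrix' B' i j * F j l) := by
      intro j
      rw [map_mul, ha (Sum.inl (i, j)), Algebra.smul_def]
      simp only [Sum.elim_inl, F, vec]
      ring
    simp only [this]
    rw [← Finset.mul_sum, h5, Matrix.one_apply]
    split_ifs <;> simp
  · intro j j'
    apply hinj
    have h5 := congrFun (congrFun e2 j) j'
    rw [Matrix.add_apply, Matrix.mul_apply, Matrix.mul_apply] at h5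
    rw [map_add, map_sum, map_sum]
    have t1 : ∀ i, algebraMap (Ax I) (Kx I) (Θ i (xx I j) * a (Sum.inl (i, j'))) =
        algebraMap (Ax I) (Kx I) (b : Ax I) * (F j i * LinearMap.toMatrix' B' i j') := by
      intro i
      rw [map_mul, ha (Sum.inl (i, j')), Algebra.smul_def]
      simp only [Sum.elim_inl, F, vec]
      ring
    have t2 : ∀ r : G, algebraMap (Ax I) (Kx I) (a (Sum.inr (j, r)) *
        Ideal.Quotient.mk I (pderiv j' (r : MvPolynomial (Fin m) ℂ))) =
        algebraMap (Ax I) (Kx I) (b : Ax I) * (LinearMap.toMatrix' C' j r * J r j') := by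
      intro r
      rw [map_mul, ha (Sum.inr (j, r)), Algebra.smul_def]
      simp only [Sum.elim_inr, J]
      ring
    simp only [t1, t2]
    rw [← Finset.mul_sum, ← Finset.mul_sum, ← mul_add, h5, Matrix.one_apply]
    split_ifs <;> simp

section kernel

variable {A : Type*} [CommRing A] [Algebra ℂ A]

lemma iter_ker_mul (Λ : Derivation ℂ A A) {c : A} (hc : Λ c = 0) (k : ℕ) (g : A) :
    (⇑Λ)^[k] (c * g) = c * (⇑Λ)^[k] g := by
  induction k with
  | zero => rfl
  | succ k ih =>
    rw [Function.iterate_succ_apply', ih, Derivation.leibniz, hc, Function.iterate_succ_apply']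
    simp

lemma iter_pow_slice (Λ : Derivation ℂ A A) {s e : A} (hs : Λ s = e) (he : Λ e = 0) (k : ℕ) :
    (⇑Λ)^[k] (s ^ k) = (k.factorial : A) * e ^ k := by
  induction k with
  | zero => simp
  | succ k ih =>
    have h1 : Λ (s ^ (k + 1)) = (((k : A) + 1) * e) * s ^ k := by
      rw [Derivation.leibniz_pow, hs]
      simp only [Nat.add_sub_cancel, smul_eq_mul, nsmul_eq_mul]
      push_cast
      ring
    have h2 : Λ (((k : A) + 1) * e) = 0 := by
      rw [Derivation.leibniz, he]
      have : Λ ((k : A) + 1) = 0 := by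
        have h3 : ((k : A) + 1) = algebraMap ℂ A ((k : ℂ) + 1) := by simp
        rw [h3, Derivation.map_algebraMap]
      rw [this]; simp
    rw [Function.iterate_succ_apply, h1, iter_ker_mul Λ h2, ih, Nat.factorial_succ]
    push_cast
    ring

lemma exists_slice {Λ : Derivation ℂ A A} (h : IsLND Λ) (h0 : Λ ≠ 0) :
    ∃ s : A, Λ s ≠ 0 ∧ Λ (Λ s) = 0 := by
  classical
  have : ∃ f, Λ f ≠ 0 := by
    by_contra hcon
    push Not at hcon
    exact h0 (Derivation.ext hcon)
  obtain ⟨f, hf⟩ := this
  have hex := h f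
  have hpos : 2 ≤ Nat.find hex := by
    rw [Nat.le_find_iff]
    intro k hk hk0
    have hk' : k = 0 ∨ k = 1 := by omega
    rcases hk' with rfl | rfl
    · have : f = 0 := hk0
      rw [this, map_zero] at hf
      exact hf rfl
    · exact hf hk0
  obtain ⟨r, hr⟩ := Nat.exists_eq_add_of_le hpos
  refine ⟨(⇑Λ)^[r] f, ?_, ?_⟩
  · rw [← Function.iterate_succ_apply' (⇑Λ)]
    exact Nat.find_min hex (by omega)
  · rw [← Function.iterate_succ_apply' (⇑Λ), ← Function.iterate_succ_apply' (⇑Λ)]
    have := Nat.find_spec hex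
    rw [hr] at this
    convert this using 2
    omega

end kernel

/-- The values of the derivations on an element. -/
noncomputable def dvec {n : ℕ} (Θ : Fin n → Derivation ℂ (Ax I) (Ax I)) (f : Ax I) :
    Fin n → Kx I := fun l => algebraMap (Ax I) (Kx I) (Θ l f)

lemma dvec_mul {n : ℕ} (Θ : Fin n → Derivation ℂ (Ax I) (Ax I)) (f g : Ax I) :
    dvec I Θ (f * g) = algebraMap (Ax I) (Kx I) f • dvec I Θ g +
      algebraMap (Ax I) (Kx I) g • dvec I Θ f := by
  ext l
  simp only [dvec, Derivation.leibniz, smul_eq_mul, map_add, map_mul, Pi.add_apply, Pi.smul_apply]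

lemma dvec_add {n : ℕ} (Θ : Fin n → Derivation ℂ (Ax I) (Ax I)) (f g : Ax I) :
    dvec I Θ (f + g) = dvec I Θ f + dvec I Θ g := by
  ext l
  simp [dvec]

lemma kernel_span {n : ℕ} {Θ : Fin n → Derivation ℂ (Ax I) (Ax I)} (hΘ : ∀ l, IsLND (Θ l))
    {B : Fin n → Fin m → Ax I} {e : Ax I} (he : e ≠ 0)
    (hB : ∀ i l, ∑ j, B i j * Θ l (xx I j) = if i = l then e else 0) (i1 : Fin n)
    (v : Fin n → Kx I) (hv : v i1 = 0) :
    v ∈ Submodule.span (Kx I) (dvec I Θ '' {y | Θ i1 y = 0}) := by
  have hinj := IsFractionRing.injective (Ax I) (Kx I)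
  have h0 : Θ i1 ≠ 0 := by
    intro h0
    have := hB i1 i1
    rw [h0] at this
    simp at this
    exact he this.symm
  obtain ⟨s, hs, hss⟩ := exists_slice (hΘ i1) h0
  set W := Submodule.span (Kx I) (dvec I Θ '' {y | Θ i1 y = 0}) ⊔
    Submodule.span (Kx I) {dvec I Θ s} with hW
  have hkerW : ∀ y, Θ i1 y = 0 → dvec I Θ y ∈ W := fun y hy =>
    Submodule.mem_sup_left (Submodule.subset_span ⟨y, hy, rfl⟩)
  have hsW : dvec I Θ s ∈ W := Submodule.mem_sup_right (Submodule.mem_span_singleton_self _)
  have hpowW : ∀ (u : Ax I), dvec I Θ u ∈ W → ∀ k : ℕ, dvec I Θ (u ^ k) ∈ W := by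
    intro u hu k
    induction k with
    | zero =>
      have : dvec I Θ (u ^ 0) = 0 := by ext l; simp [dvec]
      rw [this]; exact W.zero_mem
    | succ k ih =>
      rw [pow_succ, dvec_mul]
      exact W.add_mem (W.smul_mem _ hu) (W.smul_mem _ ih)
  have hall : ∀ k : ℕ, ∀ f, (⇑(Θ i1))^[k] f = 0 → dvec I Θ f ∈ W := by
    intro k
    induction k with
    | zero =>
      intro f hf
      have : f = 0 := hf
      have h1 : dvec I Θ f = 0 := by ext l; simp [dvec, this]
      rw [h1]; exact W.zero_mem
    | succ k ih =>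
      intro f hf
      set c := (⇑(Θ i1))^[k] f with hc
      have hc0 : Θ i1 c = 0 := by
        rw [hc, ← Function.iterate_succ_apply' (⇑(Θ i1))]; exact hf
      set u : Ax I := (k.factorial : Ax I) * (Θ i1 s) ^ k with hu
      have hu0 : Θ i1 u = 0 := by
        rw [hu, Derivation.leibniz, Derivation.leibniz_pow, hss]
        simp
      have hune : u ≠ 0 := by
        rw [hu]
        apply mul_ne_zero _ (pow_ne_zero _ hs)
        have h3 : (k.factorial : Ax I) = algebraMap ℂ (Ax I) (k.factorial : ℂ) := by simp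
        rw [h3]
        intro h4
        have := (FaithfulSMul.algebraMap_injective ℂ (Ax I)) (h4.trans (map_zero _).symm)
        exact Nat.factorial_ne_zero k (by exact_mod_cast this)
      have hg : (⇑(Θ i1))^[k] (u * f + (-c) * s ^ k) = 0 := by
        rw [iter_add, iter_ker_mul _ hu0, iter_ker_mul _ (by rw [map_neg, hc0, neg_zero]),
          iter_pow_slice _ rfl hss, ← hc, hu]
        ring
      have h5 := ih _ hg
      have h6 : dvec I Θ ((-c) * s ^ k) ∈ W := by
        rw [dvec_mul]
        exact W.add_mem (W.smul_mem _ (hpowW s hsW k))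
          (W.smul_mem _ (hkerW _ (by rw [map_neg, hc0, neg_zero])))
      rw [dvec_add] at h5
      have h7 : dvec I Θ (u * f) ∈ W := (W.add_mem_iff_left h6).1 h5
      rw [dvec_mul] at h7
      have h8 := (W.add_mem_iff_left (W.smul_mem (algebraMap (Ax I) (Kx I) f)
        (hkerW u hu0))).1 h7
      have hune' : algebraMap (Ax I) (Kx I) u ≠ 0 := fun h => hune (hinj (by rw [h, map_zero]))
      exact (W.smul_mem_iff hune').1 h8
  have htop : ∀ w : Fin n → Kx I, w ∈ W := by
    intro w
    have he' : algebraMap (Ax I) (Kx I) e ≠ 0 := fun h => he (hinj (by rw [h, map_zero]))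
    have h9 : algebraMap (Ax I) (Kx I) e • w =
        ∑ i, w i • ∑ j, algebraMap (Ax I) (Kx I) (B i j) • dvec I Θ (xx I j) := by
      ext l
      simp only [Pi.smul_apply, Finset.sum_apply, smul_eq_mul, dvec]
      have : ∀ i, ∑ j, algebraMap (Ax I) (Kx I) (B i j) * algebraMap (Ax I) (Kx I) (Θ l (xx I j)) =
          if i = l then algebraMap (Ax I) (Kx I) e else 0 := by
        intro i
        have := congrArg (algebraMap (Ax I) (Kx I)) (hB i l)
        rw [map_sum] at this
        simp only [map_mul] at this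
        rw [this]; split_ifs <;> simp
      simp only [this]
      simp [mul_comm]
    rw [← W.smul_mem_iff he', h9]
    refine W.sum_mem fun i _ => W.smul_mem _ (W.sum_mem fun j _ => W.smul_mem _ ?_)
    obtain ⟨k, hk⟩ := hΘ i1 (xx I j)
    exact hall k _ hk
  obtain ⟨u, hu, w, hw, huw⟩ := Submodule.mem_sup.1 (htop v)
  obtain ⟨c, rfl⟩ := Submodule.mem_span_singleton.1 hw
  have hu1 : u i1 = 0 := by
    have : ∀ u ∈ Submodule.span (Kx I) (dvec I Θ '' {y | Θ i1 y = 0}), u i1 = 0 := by
      intro u hu
      induction hu using Submodule.span_induction with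
      | mem u h =>
        obtain ⟨y, hy, rfl⟩ := h
        change Θ i1 y = 0 at hy
        simp [dvec, hy]
      | zero => rfl
      | add a b _ _ ha hb => simp [ha, hb]
      | smul c a _ ha => simp [ha]
    exact this u hu
  have hc : c = 0 := by
    have h10 := congrFun huw i1
    simp only [Pi.add_apply, hu1, Pi.smul_apply, smul_eq_mul, hv, zero_add, dvec] at h10
    rcases mul_eq_zero.1 h10 with h | h
    · exact h
    · exact absurd (hinj (h.trans (map_zero _).symm)) hs
  rw [← huw, hc, zero_smul, add_zero]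
  exact hu

end Pool.Agent.W732.OS
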