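import Mathlib
import Pool.Agent.W732.Alg3

set_option autoImplicit false
set_option linter.unusedSectionVars false

open MvPolynomial

namespace Pool.Agent.W732.OS

variable {m : ℕ} (I : Ideal (MvPolynomial (Fin m) ℂ)) [I.IsPrime]

lemma exists_ker {n : ℕ} {Θ : Fin n → Derivation ℂ (Ax I) (Ax I)} (hΘ : ∀ l, IsLND (Θ l))
    {B : Fin n → Fin m → Ax I} {e : Ax I} (he : e ≠ 0)
    (hB : ∀ i l, ∑ j, B i j * Θ l (xx I j) = if i = l then e else 0) (i1 i2 : Fin n)
    (hi : i1 ≠ i2) : ∃ a : Ax I, Θ i1 a = 0 ∧ Θ i2 a ≠ 0 := by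
  classical
  by_contra hcon
  push Not at hcon
  have h1 := kernel_span I hΘ he hB i1 (Pi.single i2 1) (by simp [Pi.single_apply, hi])
  have h2 : ∀ u ∈ Submodule.span (Kx I) (dvec I Θ '' {y | Θ i1 y = 0}), u i2 = 0 := by
    intro u hu
    induction hu using Submodule.span_induction with
    | mem u h =>
      obtain ⟨y, hy, rfl⟩ := h
      change Θ i1 y = 0 at hy
      simp [dvec, hcon y hy]
    | zero => rfl
    | add a b _ _ ha hb => simp [ha, hb]
    | smul c a _ ha => simp [ha]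
  have h3 := h2 _ h1
  simp at h3

lemma exists_data {n : ℕ} {Θ : Fin n → Derivation ℂ (Ax I) (Ax I)} (hΘ : ∀ l, IsLND (Θ l))
    {B : Fin n → Fin m → Ax I} {e : Ax I} (he : e ≠ 0)
    (hB : ∀ i l, ∑ j, B i j * Θ l (xx I j) = if i = l then e else 0) (hn : 2 ≤ n) :
    ∃ (Λ1 Λ2 : Derivation ℂ (Ax I) (Ax I)) (y : Fin n → Ax I) (i0 : Fin n) (a0 : Ax I),
      IsLND Λ1 ∧ IsLND Λ2 ∧ (∀ i, i ≠ i0 → Λ1 (y i) = 0) ∧ Λ2 (y i0) = 0 ∧ Λ1 a0 = 0 ∧
      Λ1 (y i0) ≠ 0 ∧ Λ2 a0 ≠ 0 ∧ (Matrix.of fun i l => Θ l (y i)).det ≠ 0 := by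
  classical
  have hinj := IsFractionRing.injective (Ax I) (Kx I)
  let i1 : Fin n := ⟨0, by omega⟩
  let i2 : Fin n := ⟨1, by omega⟩
  have hi : i1 ≠ i2 := by intro h; simpa [i1, i2] using congrArg Fin.val h
  obtain ⟨a0, ha0, ha0'⟩ := exists_ker I hΘ he hB i1 i2 hi
  obtain ⟨b, hb, hb'⟩ := exists_ker I hΘ he hB i2 i1 hi.symm
  set S : Set (Fin n → Kx I) := insert (dvec I Θ b) (dvec I Θ '' {y | Θ i1 y = 0}) with hS
  have hbne : dvec I Θ b ≠ 0 := by
    intro h
    have := congrFun h i1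
    simp only [dvec, Pi.zero_apply] at this
    exact hb' (hinj (this.trans (map_zero _).symm))
  have hli : LinearIndepOn (Kx I) id ({dvec I Θ b} : Set (Fin n → Kx I)) := by
    apply LinearIndepOn.singleton
    exact hbne
  obtain ⟨T, hTS, hbT, hST, hTli⟩ := exists_linearIndepOn_id_extension hli
    (show ({dvec I Θ b} : Set (Fin n → Kx I)) ⊆ S by
      intro v hv
      rw [Set.mem_singleton_iff] at hv
      rw [hv]; exact Set.mem_insert _ _)
  have hTli' : LinearIndependent (Kx I) (Subtype.val : T → (Fin n → Kx I)) := hTli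
  have htop : Submodule.span (Kx I) T = ⊤ := by
    have h1 : Submodule.span (Kx I) S ≤ Submodule.span (Kx I) T := Submodule.span_le.2 hST
    rw [eq_top_iff]
    refine le_trans ?_ h1
    intro v _
    have hbi : dvec I Θ b i1 ≠ 0 := fun h => hb' (hinj (h.trans (map_zero _).symm))
    have h2 : v - (v i1 / dvec I Θ b i1) • dvec I Θ b ∈ Submodule.span (Kx I) S := by
      apply Submodule.span_mono (Set.subset_insert _ _)
      apply kernel_span I hΘ he hB i1
      simp only [Pi.sub_apply, Pi.smul_apply, smul_eq_mul]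
      field_simp
      ring
    have h3 : (v i1 / dvec I Θ b i1) • dvec I Θ b ∈ Submodule.span (Kx I) S :=
      Submodule.smul_mem _ _ (Submodule.subset_span (Set.mem_insert _ _))
    have := Submodule.add_mem _ h2 h3
    simpa using this
  have hfin : T.Finite := hTli'.setFinite
  have : Fintype T := hfin.fintype
  have hcard : Fintype.card T = n := by
    have h1 := Module.finrank_eq_card_basis (Module.Basis.mk hTli' (by
      rw [Subtype.range_val, htop]))
    rw [Module.finrank_fin_fun] at h1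
    exact h1.symm
  let ε := Fintype.equivFinOfCardEq hcard
  have hbT' : dvec I Θ b ∈ T := hbT (Set.mem_singleton _)
  have hch : ∀ i : Fin n, ∃ y : Ax I, dvec I Θ y = (ε.symm i : Fin n → Kx I) ∧
      (i ≠ ε ⟨_, hbT'⟩ → Θ i1 y = 0) ∧ (i = ε ⟨_, hbT'⟩ → y = b) := by
    intro i
    by_cases hib : i = ε ⟨_, hbT'⟩
    · exact ⟨b, by rw [hib]; simp, fun h => absurd hib h, fun _ => rfl⟩
    · have h1 : (ε.symm i : Fin n → Kx I) ∈ S := hTS (ε.symm i).2
      rcases h1 with h1 | ⟨y, hy, hy'⟩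
      · exfalso
        apply hib
        have : ε.symm i = ⟨_, hbT'⟩ := Subtype.ext h1
        rw [← this]; simp
      · exact ⟨y, hy', fun _ => hy, fun h => absurd h hib⟩
  choose y hy1 hy2 hy3 using hch
  refine ⟨Θ i1, Θ i2, y, ε ⟨_, hbT'⟩, a0, hΘ i1, hΘ i2, hy2, ?_, ha0, ?_, ha0', ?_⟩
  · rw [hy3 _ rfl]; exact hb
  · rw [hy3 _ rfl]; exact hb'
  · intro hdet
    have h1 : ((algebraMap (Ax I) (Kx I)).mapMatrix (Matrix.of fun i l => Θ l (y i))).det = 0 := by
      rw [← RingHom.map_det, hdet, map_zero]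
    have h2 : LinearIndependent (Kx I)
        ((algebraMap (Ax I) (Kx I)).mapMatrix (Matrix.of fun i l => Θ l (y i))).row := by
      have : ((algebraMap (Ax I) (Kx I)).mapMatrix (Matrix.of fun i l => Θ l (y i))).row =
          (Subtype.val : T → _) ∘ ε.symm := by
        funext i
        rw [Function.comp_apply, ← hy1 i]
        rfl
      rw [this]
      exact hTli'.comp _ ε.symm.injective
    rw [Matrix.linearIndependent_rows_iff_isUnit, Matrix.isUnit_iff_isUnit_det, h1] at h2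
    exact not_isUnit_zero h2

end Pool.Agent.W732.OS
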