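import Mathlib
import Pool.Agent.W732.Alg4

set_option autoImplicit false
set_option linter.unusedSectionVars false

open MvPolynomial Set

namespace Pool.Agent.W732.OS

section general

variable {A : Type*} [CommRing A] [IsDomain A] [Algebra ℂ A]

/-- A local slice is transcendental over the kernel. -/
lemma transc_slice {Λ : Derivation ℂ A A} {s : A} (hs : Λ s ≠ 0)
    (B : Subalgebra ℂ A) (hB : ∀ x ∈ B, Λ x = 0) : Transcendental B s := by
  let ΛB : Derivation B A A := Derivation.mk'
    { toFun := Λ
      map_add' := fun x y => map_add _ _ _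
      map_smul' := fun b x => by
        simp only [RingHom.id_apply]
        rw [Algebra.smul_def, Algebra.smul_def, Derivation.leibniz]
        have : Λ (algebraMap B A b) = 0 := hB _ b.2
        rw [this]; simp }
    (fun x y => Λ.leibniz x y)
  have hΛB : ∀ x, ΛB x = Λ x := fun _ => rfl
  rw [transcendental_iff]
  have key : ∀ d : ℕ, ∀ p : Polynomial B, p.natDegree ≤ d → Polynomial.aeval s p = 0 → p = 0 := by
    intro d
    induction d with
    | zero =>
      intro p hp h0
      rw [Polynomial.eq_C_of_natDegree_le_zero hp] at h0 ⊢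
      rw [Polynomial.aeval_C] at h0
      have : p.coeff 0 = 0 := Subtype.ext h0
      rw [this, Polynomial.C_0]
    | succ d ih =>
      intro p hp h0
      have h1 : ΛB (Polynomial.aeval s p) = Polynomial.aeval s (Polynomial.derivative p) • ΛB s :=
        Derivation.map_aeval ΛB p s
      rw [h0, map_zero, smul_eq_mul] at h1
      have h2 : Polynomial.aeval s (Polynomial.derivative p) = 0 := by
        rcases mul_eq_zero.1 h1.symm with h | h
        · exact h
        · exact absurd h hs
      have h3 : Polynomial.derivative p = 0 := by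
        apply ih _ _ h2
        have := Polynomial.natDegree_derivative_le p
        omega
      have h4 : p = Polynomial.C (p.coeff 0) := by
        ext r
        cases r with
        | zero => simp
        | succ r =>
          have h5 := congrArg (fun q => Polynomial.coeff q r) h3
          simp only [Polynomial.coeff_derivative, Polynomial.coeff_zero] at h5
          have h6 : IsUnit ((r : B) + 1) := by
            have : ((r : B) + 1) = algebraMap ℂ B ((r : ℂ) + 1) := by simp
            rw [this]
            apply IsUnit.map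
            rw [isUnit_iff_ne_zero]
            exact Nat.cast_add_one_ne_zero r
          have h7 : p.coeff (r + 1) = 0 := h6.mul_left_eq_zero.1 h5
          rw [h7, Polynomial.coeff_C_succ]
      rw [h4] at h0 ⊢
      rw [Polynomial.aeval_C] at h0
      have : p.coeff 0 = 0 := Subtype.ext h0
      rw [this, Polynomial.C_0]
  intro p hp
  exact key p.natDegree p le_rfl hp

lemma const_of_algebraic {b : A} (hb : IsAlgebraic ℂ b) : ∃ c : ℂ, b = algebraMap ℂ A c := by
  have hbi : IsIntegral ℂ b := isAlgebraic_iff_isIntegral.1 hb
  have h1 := IsAlgClosed.algebraMap_bijective_of_isIntegral (k := ℂ) (K := integralClosure ℂ A)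
  obtain ⟨c, hc⟩ := h1.2 ⟨b, hbi⟩
  exact ⟨c, (congrArg Subtype.val hc).symm⟩

end general

variable {m : ℕ} (I : Ideal (MvPolynomial (Fin m) ℂ)) [I.IsPrime]

lemma derK_mk (D : Derivation ℂ (Kx I) (Kx I)) (P : MvPolynomial (Fin m) ℂ) :
    D (algebraMap (Ax I) (Kx I) (Ideal.Quotient.mk I P)) =
      ∑ j, algebraMap (Ax I) (Kx I) (Ideal.Quotient.mk I (pderiv j P)) *
        D (algebraMap (Ax I) (Kx I) (xx I j)) := by
  induction P using MvPolynomial.induction_on with
  | C a =>
    have : algebraMap (Ax I) (Kx I) (Ideal.Quotient.mk I (C a)) = algebraMap ℂ (Kx I) a := rfl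
    rw [this]
    simp
  | add p q hp hq =>
    simp only [map_add, hp, hq, add_mul, Finset.sum_add_distrib]
  | mul_X p i hp =>
    simp only [map_mul, Derivation.leibniz, hp, smul_eq_mul, map_add, add_mul,
      Finset.sum_add_distrib, Finset.mul_sum]
    congr 1
    · rw [Finset.sum_eq_single i]
      · rw [pderiv_X_self]; simp [xx]
      · intro j _ hj
        rw [pderiv_X_of_ne hj.symm]; simp
      · simp
    · refine Finset.sum_congr rfl fun j _ => ?_
      ring

lemma derK_mem (D : Derivation ℂ (Kx I) (Kx I)) :
    (fun j => D (algebraMap (Ax I) (Kx I) (xx I j))) ∈ TK I := by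
  intro P hP
  have h1 := derK_mk I D P
  have h2 : Ideal.Quotient.mk I P = 0 := Ideal.Quotient.eq_zero_iff_mem.2 hP
  rw [h2, map_zero, map_zero] at h1
  exact h1.symm

lemma derK_zero {D : Derivation ℂ (Kx I) (Kx I)}
    (h : ∀ j, D (algebraMap (Ax I) (Kx I) (xx I j)) = 0) : D = 0 := by
  have h1 : ∀ a, D (algebraMap (Ax I) (Kx I) a) = 0 := by
    intro a
    obtain ⟨P, rfl⟩ := Ideal.Quotient.mk_surjective a
    rw [derK_mk]
    simp [h]
  ext x
  obtain ⟨a, b, hb, rfl⟩ := IsFractionRing.div_surjective (A := Ax I) x
  have hb0 : algebraMap (Ax I) (Kx I) b ≠ 0 := by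
    intro h0
    exact nonZeroDivisors.ne_zero hb ((IsFractionRing.injective (Ax I) (Kx I))
      (by rw [h0, map_zero]))
  set x := algebraMap (Ax I) (Kx I) a / algebraMap (Ax I) (Kx I) b
  have h2 : algebraMap (Ax I) (Kx I) b * x = algebraMap (Ax I) (Kx I) a := by
    simp only [x]; field_simp
  have h3 := congrArg D h2
  rw [Derivation.leibniz, h1, h1, smul_zero, add_zero, smul_eq_mul] at h3
  rcases mul_eq_zero.1 h3 with h | h
  · exact absurd h hb0
  · simpa using h

/-- Algebraicity of the function field over a subfield from the vanishing of derivations. -/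
lemma alg_over (σ : Set (Kx I))
    (h : ∀ D : Derivation ℂ (Kx I) (Kx I), (∀ y ∈ σ, D y = 0) → D = 0) :
    Algebra.IsAlgebraic (IntermediateField.adjoin ℂ σ) (Kx I) := by
  set L := IntermediateField.adjoin ℂ σ with hL
  have e1 : Algebra.EssFiniteType (Ax I) (Kx I) :=
    Algebra.EssFiniteType.of_isLocalization _ (nonZeroDivisors (Ax I))
  have e2 : Algebra.EssFiniteType ℂ (Kx I) := Algebra.EssFiniteType.comp ℂ (Ax I) (Kx I)
  have e3 : Algebra.EssFiniteType L (Kx I) := Algebra.EssFiniteType.of_comp ℂ L (Kx I)
  have hsub : Subsingleton (Ω[(Kx I)⁄L]) := by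
    rw [subsingleton_iff_forall_eq 0]
    intro ω
    rw [← Module.forall_dual_apply_eq_zero_iff (Kx I)]
    intro f
    let D : Derivation L (Kx I) (Kx I) := f.compDer (KaehlerDifferential.D L (Kx I))
    let D' : Derivation ℂ (Kx I) (Kx I) := D.restrictScalars ℂ
    have hD' : D' = 0 := by
      apply h
      intro y hy
      have h1 : D (algebraMap L (Kx I) ⟨y, IntermediateField.subset_adjoin ℂ σ hy⟩) = 0 :=
        D.map_algebraMap _
      exact h1
    have hf : f = 0 := by
      have h2 : ∀ x, f (KaehlerDifferential.D L (Kx I) x) = 0 := fun x =>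
        DFunLike.congr_fun hD' x
      have h3 : ∀ y ∈ Submodule.span (Kx I) (Set.range (KaehlerDifferential.D L (Kx I))),
          f y = 0 := by
        intro y hy
        induction hy using Submodule.span_induction with
        | mem y hy => obtain ⟨x, rfl⟩ := hy; exact h2 x
        | zero => exact map_zero _
        | add a b _ _ ha hb => rw [map_add, ha, hb, add_zero]
        | smul c a _ ha => rw [map_smul, ha, smul_zero]
      refine LinearMap.ext fun y => ?_
      exact h3 y (by rw [KaehlerDifferential.span_range_derivation]; trivial)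
    rw [hf]; rfl
  have hun : Algebra.FormallyUnramified L (Kx I) :=
    (Algebra.formallyUnramified_iff _ _).2 hsub
  have hsep : Algebra.IsSeparable L (Kx I) := Algebra.FormallyUnramified.isSeparable _ _
  infer_instance

end Pool.Agent.W732.OS
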