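import Mathlib
import Pool.Agent.W732.Dim

set_option autoImplicit false
set_option linter.unusedSectionVars false

open MvPolynomial Set

namespace Pool.Agent.W732.OS

section units

variable {A : Type*} [CommRing A] [IsDomain A] [Algebra ℂ A]

/-- Units are in the kernel of locally nilpotent derivations of domains. -/
lemma unit_ker {Θ : Derivation ℂ A A} (h : IsLND Θ) {u v : A} (huv : u * v = 1) : Θ u = 0 := by
  classical
  have hu : u ≠ 0 := left_ne_zero_of_mul (by rw [huv]; exact one_ne_zero)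
  have hv : v ≠ 0 := right_ne_zero_of_mul (by rw [huv]; exact one_ne_zero)
  have key : ∀ w : A, w ≠ 0 → ∃ p, (⇑Θ)^[p] w ≠ 0 ∧ (⇑Θ)^[p + 1] w = 0 := by
    intro w hw
    have hpos : 1 ≤ Nat.find (h w) := by
      rw [Nat.le_find_iff]
      intro k hk hk0
      have : k = 0 := by omega
      subst this
      exact hw hk0
    refine ⟨Nat.find (h w) - 1, Nat.find_min (h w) (by omega), ?_⟩
    rw [Nat.sub_add_cancel hpos]
    exact Nat.find_spec (h w)
  obtain ⟨p, hp, hp'⟩ := key u hu
  obtain ⟨q, hq, hq'⟩ := key v hv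
  have h1 := iter_leibniz Θ (p + q) u v
  rw [huv, Finset.sum_eq_single (p, q)] at h1
  · by_cases hp0 : p = 0
    · subst hp0; exact hp'
    · exfalso
      obtain ⟨r, hr⟩ := Nat.exists_eq_succ_of_ne_zero (show p + q ≠ 0 by omega)
      rw [hr, Nat.succ_eq_add_one, iter_one] at h1
      have h2 : (((r + 1).choose p : ℕ) : A) * ((⇑Θ)^[p] u * (⇑Θ)^[q] v) = 0 := by
        rw [← nsmul_eq_mul]; exact h1.symm
      have h3 : (((r + 1).choose p : ℕ) : A) ≠ 0 := by
        have h4 : (((r + 1).choose p : ℕ) : A) = algebraMap ℂ A (((r + 1).choose p : ℕ) : ℂ) := by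
          simp
        rw [h4]
        intro h5
        have h6 := (FaithfulSMul.algebraMap_injective ℂ A) (h5.trans (map_zero _).symm)
        have h7 : (r + 1).choose p = 0 := by exact_mod_cast h6
        rw [Nat.choose_eq_zero_iff] at h7
        omega
      exact mul_ne_zero h3 (mul_ne_zero hp hq) h2
  · rintro ⟨i, j⟩ hij hne
    have hij' : i + j = p + q := Finset.HasAntidiagonal.mem_antidiagonal.1 hij
    simp only
    by_cases hip : p < i
    · rw [iter_ge Θ hp' (show p + 1 ≤ i by omega)]; simp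
    · have hjq : q < j := by
        by_contra hcon
        apply hne
        ext <;> simp only <;> omega
      rw [iter_ge Θ hq' (show q + 1 ≤ j by omega)]; simp
  · intro hnot
    exact absurd (Finset.HasAntidiagonal.mem_antidiagonal (n := p + q) (a := (p, q)) |>.2 rfl) hnot

/-- The density property fails when all locally nilpotent derivations are proportional and have
constant kernel. -/
lemma rank_one_false
    (hos : LieSubalgebra.lieSpan ℂ (Derivation ℂ A A)
      {V | ∃ Θ : Derivation ℂ A A, (∀ g : A, ∃ k : ℕ, (⇑Θ)^[k] g = 0) ∧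
        ∃ f : A, Θ (Θ f) = 0 ∧ V = f • Θ} = ⊤)
    {Θ : Derivation ℂ A A} {s : A} {c0 : ℂ} (hc0 : Θ s = algebraMap ℂ A c0) (hc0ne : c0 ≠ 0)
    (hker : ∀ b, Θ b = 0 → ∃ c : ℂ, b = algebraMap ℂ A c)
    (hprop : ∀ Λ : Derivation ℂ A A, IsLND Λ → ∃ a : ℂ, Λ = a • Θ) : False := by
  have hc0A : algebraMap ℂ A c0 ≠ 0 := fun h =>
    hc0ne ((FaithfulSMul.algebraMap_injective ℂ A) (h.trans (map_zero _).symm))
  let S : LieSubalgebra ℂ (Derivation ℂ A A) :=
    { Submodule.span ℂ {Θ, s • Θ} with
      lie_mem' := by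
        intro D D' hD hD'
        change D ∈ Submodule.span ℂ {Θ, s • Θ} at hD
        change D' ∈ Submodule.span ℂ {Θ, s • Θ} at hD'
        change ⁅D, D'⁆ ∈ Submodule.span ℂ {Θ, s • Θ}
        obtain ⟨α, β, rfl⟩ := Submodule.mem_span_pair.1 hD
        obtain ⟨α', β', rfl⟩ := Submodule.mem_span_pair.1 hD'
        refine Submodule.mem_span_pair.2 ⟨(α * β' - α' * β) * c0, 0, ?_⟩
        ext f
        simp only [Derivation.commutator_apply, Derivation.coe_add, Derivation.coe_smul,
          Pi.add_apply, Pi.smul_apply]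
        simp only [Algebra.smul_def, map_mul, map_sub, map_add, Derivation.leibniz,
          Derivation.map_algebraMap, map_zero, mul_zero, add_zero,
          Algebra.algebraMap_self, RingHom.id_apply, hc0]
        ring }
  have hS : LieSubalgebra.lieSpan ℂ (Derivation ℂ A A)
      {V | ∃ Θ : Derivation ℂ A A, (∀ g : A, ∃ k : ℕ, (⇑Θ)^[k] g = 0) ∧
      ∃ f : A, Θ (Θ f) = 0 ∧ V = f • Θ} ≤ S := by
    rw [LieSubalgebra.lieSpan_le]
    rintro V ⟨Λ, hΛ, f, hf, rfl⟩
    change f • Λ ∈ Submodule.span ℂ {Θ, s • Θ}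
    obtain ⟨a, rfl⟩ := hprop Λ hΛ
    by_cases ha : a = 0
    · subst ha
      rw [zero_smul, smul_zero]; exact Submodule.zero_mem _
    have hf' : Θ (Θ f) = 0 := by
      simp only [Derivation.coe_smul, Pi.smul_apply, Derivation.map_smul, smul_smul] at hf
      rcases smul_eq_zero.1 hf with h | h
      · exact absurd h (mul_ne_zero ha ha)
      · exact h
    obtain ⟨c, hc⟩ := hker _ hf'
    have hf2 : Θ (f - algebraMap ℂ A (c * c0⁻¹) * s) = 0 := by
      rw [map_sub, Derivation.leibniz, Derivation.map_algebraMap, hc, hc0, smul_eq_mul,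
        ← map_mul, mul_assoc, inv_mul_cancel₀ hc0ne]
      simp
    obtain ⟨d, hd⟩ := hker _ hf2
    have hfe : f = algebraMap ℂ A d + algebraMap ℂ A (c * c0⁻¹) * s := by
      rw [← hd]; ring
    refine Submodule.mem_span_pair.2 ⟨a * d, a * (c * c0⁻¹), ?_⟩
    ext g
    rw [hfe]
    simp only [Derivation.coe_add, Derivation.coe_smul, Pi.add_apply, Pi.smul_apply]
    simp only [smul_eq_mul, Algebra.smul_def, map_mul]
    ring
  rw [hos] at hS
  have h1 : (s * s) • Θ ∈ Submodule.span ℂ {Θ, s • Θ} :=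
    hS (LieSubalgebra.mem_top _)
  obtain ⟨α, β, hαβ⟩ := Submodule.mem_span_pair.1 h1
  have h2 := DFunLike.congr_fun hαβ s
  simp only [Derivation.coe_add, Derivation.coe_smul, Pi.add_apply, Pi.smul_apply] at h2
  simp only [smul_eq_mul, Algebra.smul_def, hc0] at h2
  have h3 : s * s = algebraMap ℂ A α + algebraMap ℂ A β * s := by
    apply mul_right_cancel₀ hc0A
    rw [← h2]; ring
  have h4 := congrArg (fun y => Θ (Θ y)) h3
  simp only [Derivation.leibniz, map_add, Derivation.map_algebraMap, hc0, smul_eq_mul,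
    mul_zero, add_zero, zero_add, map_zero] at h4
  have h5 : algebraMap ℂ A (2 * (c0 * c0)) = 0 := by
    rw [map_mul, map_mul, map_ofNat]
    linear_combination h4
  have h6 := (FaithfulSMul.algebraMap_injective ℂ A) (h5.trans (map_zero _).symm)
  simp [hc0ne] at h6

end units

variable {m : ℕ} (I : Ideal (MvPolynomial (Fin m) ℂ)) [I.IsPrime]

lemma vec_inj {D D' : Derivation ℂ (Ax I) (Ax I)} (h : vec I D = vec I D') : D = D' := by
  apply der_ext
  intro j
  exact (IsFractionRing.injective (Ax I) (Kx I)) (congrFun h j)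

/-- In rank one, kernels of locally nilpotent derivations are constants. -/
lemma ker_const {Λ : Derivation ℂ (Ax I) (Ax I)} (hΛ : IsLND Λ) (h0 : Λ ≠ 0)
    (hT : ∀ v ∈ TK I, ∃ q : Kx I, v = q • vec I Λ) {b : Ax I} (hb : Λ b = 0) :
    ∃ c : ℂ, b = algebraMap ℂ (Ax I) c := by
  have hinj := IsFractionRing.injective (Ax I) (Kx I)
  obtain ⟨s, hs, hss⟩ := exists_slice hΛ h0
  have halg := alg_over I {algebraMap (Ax I) (Kx I) s} (by
    intro D hD
    have hDs := hD _ (mem_singleton _)
    obtain ⟨q, hq⟩ := hT _ (derK_mem I D)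
    have hq' : ∀ j, D (algebraMap (Ax I) (Kx I) (xx I j)) =
        q * algebraMap (Ax I) (Kx I) (Λ (xx I j)) := fun j => congrFun hq j
    have hDa : ∀ a, D (algebraMap (Ax I) (Kx I) a) = q * algebraMap (Ax I) (Kx I) (Λ a) := by
      intro a
      obtain ⟨P, rfl⟩ := Ideal.Quotient.mk_surjective a
      rw [derK_mk, der_mk, map_sum, Finset.mul_sum]
      refine Finset.sum_congr rfl fun j _ => ?_
      rw [hq', map_mul]; ring
    rw [hDa] at hDs
    have hq0 : q = 0 := by
      rcases mul_eq_zero.1 hDs with h | h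
      · exact h
      · exact absurd (hinj (h.trans (map_zero _).symm)) hs
    apply derK_zero
    intro j
    rw [hq', hq0, zero_mul])
  by_contra hcon
  have htr : Transcendental ℂ b := fun halg' => hcon (const_of_algebraic halg')
  have hB : ∀ x ∈ Algebra.adjoin ℂ ({b} : Set (Ax I)), Λ x = 0 := by
    intro x hx
    have hE : Set.EqOn Λ (0 : Derivation ℂ (Ax I) (Ax I)) {b} := by
      intro y hy
      rw [mem_singleton_iff.1 hy]; exact hb
    exact Derivation.eqOn_adjoin hE hx
  have htr2 := transc_slice hs _ hB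
  let x : Fin 2 → Ax I := ![b, s]
  have hind : AlgebraicIndependent ℂ x := by
    rw [AlgebraicIndependent.iff_transcendental_adjoin_image (1 : Fin 2)]
    have himg : x '' {1}ᶜ = {b} := by
      have : ({1}ᶜ : Set (Fin 2)) = {0} := by
        ext i; fin_cases i <;> simp
      rw [this, image_singleton]; rfl
    constructor
    · have hsub : Subsingleton {j : Fin 2 // j ≠ 1} := by
        constructor
        rintro ⟨i, hi⟩ ⟨j, hj⟩
        apply Subtype.ext
        change i = j
        fin_cases i <;> fin_cases j <;> simp_all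
      rw [algebraicIndependent_singleton_iff (⟨0, by simp⟩ : {j : Fin 2 // j ≠ 1})]
      exact htr
    · rw [himg]
      exact htr2
  have hind' := hind.map' (f := IsScalarTower.toAlgHom ℂ (Ax I) (Kx I)) hinj
  have h1 := hind'.transcendental_adjoin (s := {1}) (i := 0) (by simp)
  have himg' : ((IsScalarTower.toAlgHom ℂ (Ax I) (Kx I)) ∘ x) '' {1} =
      {algebraMap (Ax I) (Kx I) s} := by
    rw [image_singleton]; rfl
  rw [himg'] at h1
  apply h1
  rw [← IntermediateField.isAlgebraic_adjoin_iff]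
  exact halg.isAlgebraic _

theorem two_le (hmax : ¬ I.IsMaximal)
    (hos : LieSubalgebra.lieSpan ℂ (Derivation ℂ (Ax I) (Ax I))
      {V | ∃ Θ : Derivation ℂ (Ax I) (Ax I), (∀ g : Ax I, ∃ k : ℕ, (⇑Θ)^[k] g = 0) ∧
        ∃ f : Ax I, Θ (Θ f) = 0 ∧ V = f • Θ} = ⊤)
    {n : ℕ} {Θ : Fin n → Derivation ℂ (Ax I) (Ax I)} (hΘ : ∀ l, IsLND (Θ l))
    (hli : LinearIndependent (Kx I) (fun l => vec I (Θ l)))
    (hsp : Submodule.span (Kx I) (Set.range fun l => vec I (Θ l)) = TK I) : 2 ≤ n := by
  classical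
  have hinj := IsFractionRing.injective (Ax I) (Kx I)
  by_contra hn
  have hn' : n = 0 ∨ n = 1 := by omega
  rcases hn' with rfl | rfl
  · -- dimension zero
    have hT : TK I = ⊥ := by
      rw [← hsp]
      have : (Set.range fun l : Fin 0 => vec I (Θ l)) = ∅ := range_eq_empty _
      rw [this, Submodule.span_empty]
    have halg := alg_over I ∅ (by
      intro D _
      apply derK_zero
      intro j
      have h1 := derK_mem I D
      rw [hT, Submodule.mem_bot] at h1
      exact congrFun h1 j)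
    apply hmax
    apply Ideal.Quotient.maximal_of_isField
    have hconst : ∀ a : Ax I, ∃ c : ℂ, a = algebraMap ℂ (Ax I) c := by
      intro a
      apply const_of_algebraic
      have h1 : IsAlgebraic (IntermediateField.adjoin ℂ (∅ : Set (Kx I)))
          (algebraMap (Ax I) (Kx I) a) := halg.isAlgebraic _
      rw [IntermediateField.isAlgebraic_adjoin_iff] at h1
      have h2 : Algebra.IsAlgebraic ℂ (Algebra.adjoin ℂ (∅ : Set (Kx I))) := by
        rw [Algebra.adjoin_empty]
        constructor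
        rintro ⟨y, hy⟩
        obtain ⟨c, rfl⟩ := Algebra.mem_bot.1 hy
        exact isAlgebraic_algebraMap (R := ℂ) (A := (⊥ : Subalgebra ℂ (Kx I))) c
      have h3 : IsAlgebraic ℂ (algebraMap (Ax I) (Kx I) a) := h1.restrictScalars ℂ
      obtain ⟨P, hP0, hP⟩ := h3
      refine ⟨P, hP0, hinj ?_⟩
      rw [map_zero, ← Polynomial.aeval_algebraMap_apply, hP]
    refine ⟨⟨0, 1, zero_ne_one⟩, mul_comm, ?_⟩
    intro a ha
    obtain ⟨c, rfl⟩ := hconst a
    have hc : c ≠ 0 := by rintro rfl; simp at ha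
    refine ⟨algebraMap ℂ (Ax I) c⁻¹, ?_⟩
    rw [← map_mul, mul_inv_cancel₀ hc, map_one]
  · -- dimension one
    have hT0 : ∀ v ∈ TK I, ∃ q : Kx I, v = q • vec I (Θ 0) := by
      intro v hv
      rw [← hsp] at hv
      have : (Set.range fun l : Fin 1 => vec I (Θ l)) = {vec I (Θ 0)} := by
        ext w
        constructor
        · rintro ⟨l, rfl⟩
          have : l = 0 := Subsingleton.elim _ _
          rw [this]; rfl
        · intro hw; exact ⟨0, (mem_singleton_iff.1 hw).symm⟩
      rw [this, Submodule.mem_span_singleton] at hv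
      obtain ⟨q, hq⟩ := hv
      exact ⟨q, hq.symm⟩
    have hΘ0 : Θ 0 ≠ 0 := by
      intro h
      have h1 := hli.ne_zero 0
      apply h1
      rw [h]
      ext j; simp [vec]
    obtain ⟨s, hs, hss⟩ := exists_slice (hΘ 0) hΘ0
    obtain ⟨c0, hc0⟩ := ker_const I (hΘ 0) hΘ0 hT0 hss
    have hc0ne : c0 ≠ 0 := by
      rintro rfl
      rw [map_zero] at hc0
      exact hs hc0
    -- cross relation
    have hcross : ∀ (Λ : Derivation ℂ (Ax I) (Ax I)) (f : Ax I),
        Λ f * algebraMap ℂ (Ax I) c0 = Λ s * Θ 0 f := by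
      intro Λ f
      obtain ⟨q, hq⟩ := hT0 _ (vec_mem I Λ)
      have hq' : ∀ a, algebraMap (Ax I) (Kx I) (Λ a) = q * algebraMap (Ax I) (Kx I) (Θ 0 a) := by
        intro a
        obtain ⟨P, rfl⟩ := Ideal.Quotient.mk_surjective a
        rw [der_mk, der_mk, map_sum, map_sum, Finset.mul_sum]
        refine Finset.sum_congr rfl fun j _ => ?_
        have := congrFun hq j
        simp only [vec, Pi.smul_apply, smul_eq_mul] at this
        rw [map_mul, map_mul, this]; ring
      apply hinj
      rw [map_mul, map_mul, hq' f, hq' s, hc0]; ring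
    -- all locally nilpotent derivations are multiples of one
    have hprop : ∀ Λ : Derivation ℂ (Ax I) (Ax I), IsLND Λ → ∃ a : ℂ, Λ = a • Θ 0 := by
      intro Λ hΛ
      by_cases hΛ0 : Λ = 0
      · exact ⟨0, by rw [hΛ0, zero_smul]⟩
      have hTΛ : ∀ v ∈ TK I, ∃ q : Kx I, v = q • vec I Λ := by
        intro v hv
        obtain ⟨q, hq⟩ := hT0 v hv
        obtain ⟨r, hr⟩ := hT0 _ (vec_mem I Λ)
        have hr0 : r ≠ 0 := by
          rintro rfl
          apply hΛ0
          apply vec_inj
          rw [hr, zero_smul]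
          ext j; simp [vec]
        refine ⟨q * r⁻¹, ?_⟩
        rw [hr, smul_smul, mul_assoc, inv_mul_cancel₀ hr0, mul_one, hq]
      obtain ⟨s1, hs1, hss1⟩ := exists_slice hΛ hΛ0
      obtain ⟨c1, hc1⟩ := ker_const I hΛ hΛ0 hTΛ hss1
      have hc1ne : c1 ≠ 0 := by
        rintro rfl
        rw [map_zero] at hc1
        exact hs1 hc1
      have h1 := hcross Λ s1
      have hunit : Λ s * (Θ 0 s1 * algebraMap ℂ (Ax I) (c1 * c0)⁻¹) = 1 := by
        rw [← mul_assoc, ← h1, hc1, ← map_mul, ← map_mul,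
          mul_inv_cancel₀ (mul_ne_zero hc1ne hc0ne), map_one]
      have hk := unit_ker (hΘ 0) hunit
      obtain ⟨a, ha⟩ := ker_const I (hΘ 0) hΘ0 hT0 hk
      refine ⟨a * c0⁻¹, ?_⟩
      ext f
      have h2 := hcross Λ f
      rw [ha] at h2
      have hsm : (a * c0⁻¹) • Θ 0 f = algebraMap ℂ (Ax I) (a * c0⁻¹) * Θ 0 f :=
        Algebra.smul_def (a * c0⁻¹) (Θ 0 f)
      change Λ f = (a * c0⁻¹) • Θ 0 f
      rw [hsm, map_mul]
      have h3 : algebraMap ℂ (Ax I) c0 * algebraMap ℂ (Ax I) c0⁻¹ = 1 := by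
        rw [← map_mul, mul_inv_cancel₀ hc0ne, map_one]
      calc Λ f = Λ f * (algebraMap ℂ (Ax I) c0 * algebraMap ℂ (Ax I) c0⁻¹) := by
            rw [h3, mul_one]
        _ = (Λ f * algebraMap ℂ (Ax I) c0) * algebraMap ℂ (Ax I) c0⁻¹ := by ring
        _ = _ := by rw [h2]; ring
    exact rank_one_false hos hc0 hc0ne (fun b hb => ker_const I (hΘ 0) hΘ0 hT0 hb) hprop

end Pool.Agent.W732.OS
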