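import Mathlib

set_option autoImplicit false

open Set Filter Topology

namespace Pool.Agent.W732.OS

variable {E : Type*} [NormedAddCommGroup E] [NormedSpace ℂ E] {β : Type*}

/-- Globally analytic functions. -/
def An (h : E → ℂ) : Prop := AnalyticOnNhd ℂ h univ

/-- Derivative in direction `v`. -/
noncomputable def dd (v : E) (h : E → ℂ) : E → ℂ := fun x => fderiv ℂ h x v

/-- Iterated derivatives along the list `l` of directions. -/
noncomputable def DL (e : β → E) : List β → (E → ℂ) → (E → ℂ)
  | [], h => h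
  | b :: l, h => DL e l (dd (e b) h)

@[simp] lemma DL_nil (e : β → E) (h : E → ℂ) : DL e [] h = h := rfl

@[simp] lemma DL_cons (e : β → E) (b : β) (l : List β) (h : E → ℂ) :
    DL e (b :: l) h = DL e l (dd (e b) h) := rfl

lemma An.at {h : E → ℂ} (hh : An h) (x : E) : AnalyticAt ℂ h x := hh x (mem_univ x)

lemma An.diffAt {h : E → ℂ} (hh : An h) (x : E) : DifferentiableAt ℂ h x :=
  (hh.at x).differentiableAt

lemma An.diff {h : E → ℂ} (hh : An h) : Differentiable ℂ h := fun x => hh.diffAt x

lemma An.dd {h : E → ℂ} (hh : An h) (v : E) : An (dd v h) := by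
  intro x hx
  have h1 : AnalyticAt ℂ (fderiv ℂ h) x := (hh x hx).fderiv
  exact ((ContinuousLinearMap.apply ℂ ℂ v).analyticAt _).comp h1

lemma An.add {f g : E → ℂ} (hf : An f) (hg : An g) : An (fun x => f x + g x) :=
  AnalyticOnNhd.add hf hg

lemma An.sub {f g : E → ℂ} (hf : An f) (hg : An g) : An (fun x => f x - g x) :=
  AnalyticOnNhd.sub hf hg

lemma An.mul {f g : E → ℂ} (hf : An f) (hg : An g) : An (fun x => f x * g x) :=
  AnalyticOnNhd.mul hf hg

lemma An.const (c : ℂ) : An (fun _ : E => c) := analyticOnNhd_const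

lemma An.sum {ι : Type*} {s : Finset ι} {f : ι → E → ℂ} (hf : ∀ i ∈ s, An (f i)) :
    An (fun x => ∑ i ∈ s, f i x) := by
  classical
  induction s using Finset.induction_on with
  | empty => simpa using An.const (0 : ℂ)
  | insert a s ha ih =>
    simp only [Finset.sum_insert ha]
    exact (hf a (by simp)).add (ih (fun i hi => hf i (by simp [hi])))

lemma An.prod {ι : Type*} {s : Finset ι} {f : ι → E → ℂ} (hf : ∀ i ∈ s, An (f i)) :
    An (fun x => ∏ i ∈ s, f i x) := by
  classical
  induction s using Finset.induction_on with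
  | empty => simpa using An.const (1 : ℂ)
  | insert a s ha ih =>
    simp only [Finset.prod_insert ha]
    exact (hf a (by simp)).mul (ih (fun i hi => hf i (by simp [hi])))

lemma An.pow {f : E → ℂ} (hf : An f) (n : ℕ) : An (fun x => f x ^ n) := AnalyticOnNhd.pow hf n

lemma An.DL {h : E → ℂ} (hh : An h) (e : β → E) (l : List β) : An (DL e l h) := by
  induction l generalizing h with
  | nil => exact hh
  | cons b l ih => exact ih (hh.dd _)

lemma dd_add {f g : E → ℂ} (hf : An f) (hg : An g) (v : E) :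
    dd v (fun x => f x + g x) = fun x => dd v f x + dd v g x := by
  funext x
  simp [dd, fderiv_fun_add (hf.diffAt x) (hg.diffAt x)]

lemma dd_sub {f g : E → ℂ} (hf : An f) (hg : An g) (v : E) :
    dd v (fun x => f x - g x) = fun x => dd v f x - dd v g x := by
  funext x
  simp [dd, fderiv_fun_sub (hf.diffAt x) (hg.diffAt x)]

lemma dd_mul {f g : E → ℂ} (hf : An f) (hg : An g) (v : E) :
    dd v (fun x => f x * g x) = fun x => dd v f x * g x + f x * dd v g x := by
  funext x
  simp [dd, fderiv_fun_mul (hf.diffAt x) (hg.diffAt x)]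
  ring

lemma dd_const (c : ℂ) (v : E) : dd v (fun _ : E => c) = fun _ => 0 := by
  funext x
  simp [dd]

lemma dd_comm {h : E → ℂ} (hh : An h) (v w : E) : dd v (dd w h) = dd w (dd v h) := by
  funext x
  have hs : IsSymmSndFDerivAt ℂ h x := by
    apply ContDiffAt.isSymmSndFDerivAt (n := ⊤) (hh.at x).contDiffAt
    simp
  have h1 : AnalyticAt ℂ (fderiv ℂ h) x := (hh.at x).fderiv
  have e1 : ∀ u : E, fderiv ℂ (dd u h) x = (fderiv ℂ (fderiv ℂ h) x).flip u := by
    intro u
    have := fderiv_clm_apply (c := fderiv ℂ h) (u := fun _ : E => u) h1.differentiableAt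
      (differentiableAt_const u)
    unfold dd
    rw [this]
    ext y
    simp
  unfold dd
  have a1 : fderiv ℂ (fun x => fderiv ℂ h x w) x v = fderiv ℂ (fderiv ℂ h) x v w := by
    have := e1 w
    unfold dd at this
    rw [this]; rfl
  have a2 : fderiv ℂ (fun x => fderiv ℂ h x v) x w = fderiv ℂ (fderiv ℂ h) x w v := by
    have := e1 v
    unfold dd at this
    rw [this]; rfl
  rw [a1, a2]
  exact hs v w

lemma DL_perm (e : β → E) {l l' : List β} (hl : l.Perm l') {h : E → ℂ} (hh : An h) :
    DL e l h = DL e l' h := by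
  induction hl generalizing h with
  | nil => rfl
  | cons b _ ih => exact ih (hh.dd _)
  | swap a b l => simp only [DL_cons]; rw [dd_comm hh]
  | trans _ _ ih1 ih2 => rw [ih1 hh, ih2 hh]

lemma dd_congr {v : E} {f g : E → ℂ} {x : E} (h : f =ᶠ[𝓝 x] g) : dd v f =ᶠ[𝓝 x] dd v g := by
  filter_upwards [h.fderiv (𝕜 := ℂ)] with y hy
  simp [dd, hy]

lemma DL_congr (e : β → E) (l : List β) {f g : E → ℂ} {x : E} (h : f =ᶠ[𝓝 x] g) :
    DL e l f =ᶠ[𝓝 x] DL e l g := by
  induction l generalizing f g with
  | nil => exact h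
  | cons b l ih => exact ih (dd_congr h)

section rat

variable [DecidableEq β] (e : β → E) (x0 : E) (k : Subfield ℂ) (c : β)

/-- All derivatives at `x0` of order at most `N`, with at most `j` derivatives in direction
`e c`, lie in the subfield `k`. -/
def RatC (N j : ℕ) (h : E → ℂ) : Prop :=
  ∀ l : List β, l.length ≤ N → l.count c ≤ j → DL e l h x0 ∈ k

variable {e x0 k c}

lemma RatC.mono {N N' j j' : ℕ} {h : E → ℂ} (H : RatC e x0 k c N j h) (hN : N' ≤ N)
    (hj : j' ≤ j) : RatC e x0 k c N' j' h :=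
  fun l h1 h2 => H l (h1.trans hN) (h2.trans hj)

lemma RatC.zero_mem {N j : ℕ} {h : E → ℂ} (H : RatC e x0 k c N j h) : h x0 ∈ k :=
  H [] (by simp) (by simp)

lemma RatC.dd_ne {N j : ℕ} {h : E → ℂ} (H : RatC e x0 k c (N + 1) j h) {b : β} (hb : b ≠ c) :
    RatC e x0 k c N j (dd (e b) h) := by
  intro l h1 h2
  have := H (b :: l) (by simpa using h1) (by rw [List.count_cons_of_ne hb]; exact h2)
  simpa using this

lemma RatC.dd_eq {N j : ℕ} {h : E → ℂ} (H : RatC e x0 k c (N + 1) (j + 1) h) :
    RatC e x0 k c N j (dd (e c) h) := by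
  intro l h1 h2
  have := H (c :: l) (by simpa using h1) (by simpa using h2)
  simpa using this

lemma RatC.of_dd {N j : ℕ} {h : E → ℂ} (h0 : h x0 ∈ k)
    (h1 : ∀ b, b ≠ c → RatC e x0 k c N j (dd (e b) h))
    (h2 : ∀ j', j = j' + 1 → RatC e x0 k c N j' (dd (e c) h)) :
    RatC e x0 k c (N + 1) j h := by
  intro l hl hc
  cases l with
  | nil => simpa using h0
  | cons b l =>
    simp only [DL_cons]
    by_cases hb : b = c
    · subst hb
      cases j with
      | zero => simp at hc
      | succ j' =>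
        exact h2 j' rfl l (by simpa using hl) (by simpa using hc)
    · exact h1 b hb l (by simpa using hl) (by rwa [List.count_cons_of_ne hb] at hc)

lemma RatC.of_dd_zero {j : ℕ} {h : E → ℂ} (h0 : h x0 ∈ k) : RatC e x0 k c 0 j h := by
  intro l hl _
  have : l = [] := by simpa using hl
  subst this
  simpa using h0

lemma RatC.const {N j : ℕ} {a : ℂ} (ha : a ∈ k) : RatC e x0 k c N j (fun _ => a) := by
  induction N generalizing j a with
  | zero => exact RatC.of_dd_zero ha
  | succ N ih =>
    apply RatC.of_dd ha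
    · intro b _
      rw [dd_const]
      exact ih k.zero_mem
    · intro j' _
      rw [dd_const]
      exact ih k.zero_mem

lemma RatC.add {N j : ℕ} {f g : E → ℂ} (hf : An f) (hg : An g) (Hf : RatC e x0 k c N j f)
    (Hg : RatC e x0 k c N j g) : RatC e x0 k c N j (fun x => f x + g x) := by
  induction N generalizing j f g with
  | zero => exact RatC.of_dd_zero (k.add_mem Hf.zero_mem Hg.zero_mem)
  | succ N ih =>
    refine RatC.of_dd (h := fun x => f x + g x) (k.add_mem Hf.zero_mem Hg.zero_mem) ?_ ?_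
    · intro b hb
      rw [dd_add hf hg]
      exact ih (hf.dd _) (hg.dd _) (Hf.dd_ne hb) (Hg.dd_ne hb)
    · rintro j' rfl
      rw [dd_add hf hg]
      exact ih (hf.dd _) (hg.dd _) Hf.dd_eq Hg.dd_eq

lemma RatC.mul {N j : ℕ} {f g : E → ℂ} (hf : An f) (hg : An g) (Hf : RatC e x0 k c N j f)
    (Hg : RatC e x0 k c N j g) : RatC e x0 k c N j (fun x => f x * g x) := by
  induction N generalizing j f g with
  | zero => exact RatC.of_dd_zero (k.mul_mem Hf.zero_mem Hg.zero_mem)
  | succ N ih =>
    refine RatC.of_dd (h := fun x => f x * g x) (k.mul_mem Hf.zero_mem Hg.zero_mem) ?_ ?_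
    · intro b hb
      rw [dd_mul hf hg]
      exact RatC.add ((hf.dd _).mul hg) (hf.mul (hg.dd _))
        (ih (hf.dd _) hg (Hf.dd_ne hb) (Hg.mono (Nat.le_succ N) le_rfl))
        (ih hf (hg.dd _) (Hf.mono (Nat.le_succ N) le_rfl) (Hg.dd_ne hb))
    · rintro j' rfl
      rw [dd_mul hf hg]
      exact RatC.add ((hf.dd _).mul hg) (hf.mul (hg.dd _))
        (ih (hf.dd _) hg Hf.dd_eq (Hg.mono (Nat.le_succ N) (Nat.le_succ j')))
        (ih hf (hg.dd _) (Hf.mono (Nat.le_succ N) (Nat.le_succ j')) Hg.dd_eq)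

lemma RatC.neg {N j : ℕ} {f : E → ℂ} (hf : An f) (Hf : RatC e x0 k c N j f) :
    RatC e x0 k c N j (fun x => - f x) := by
  have := RatC.mul (An.const (-1 : ℂ)) hf
    (RatC.const (e := e) (x0 := x0) (k := k) (c := c) (N := N) (j := j)
      (k.neg_mem k.one_mem)) Hf
  simpa using this

lemma An.neg {f : E → ℂ} (hf : An f) : An (fun x => - f x) := AnalyticOnNhd.neg hf

lemma RatC.sub {N j : ℕ} {f g : E → ℂ} (hf : An f) (hg : An g) (Hf : RatC e x0 k c N j f)
    (Hg : RatC e x0 k c N j g) : RatC e x0 k c N j (fun x => f x - g x) := by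
  have := RatC.add hf hg.neg Hf (Hg.neg hg)
  simpa [sub_eq_add_neg] using this

lemma RatC.sum {N j : ℕ} {ι : Type*} {s : Finset ι} {f : ι → E → ℂ} (hf : ∀ i ∈ s, An (f i))
    (Hf : ∀ i ∈ s, RatC e x0 k c N j (f i)) :
    RatC e x0 k c N j (fun x => ∑ i ∈ s, f i x) := by
  classical
  induction s using Finset.induction_on with
  | empty => simpa using RatC.const k.zero_mem
  | insert a s ha ih =>
    simp only [Finset.sum_insert ha]
    exact RatC.add (hf a (by simp)) (An.sum (fun i hi => hf i (by simp [hi])))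
      (Hf a (by simp)) (ih (fun i hi => hf i (by simp [hi])) (fun i hi => Hf i (by simp [hi])))

lemma RatC.prod {N j : ℕ} {ι : Type*} {s : Finset ι} {f : ι → E → ℂ} (hf : ∀ i ∈ s, An (f i))
    (Hf : ∀ i ∈ s, RatC e x0 k c N j (f i)) :
    RatC e x0 k c N j (fun x => ∏ i ∈ s, f i x) := by
  classical
  induction s using Finset.induction_on with
  | empty => simpa using RatC.const k.one_mem
  | insert a s ha ih =>
    simp only [Finset.prod_insert ha]
    exact RatC.mul (hf a (by simp)) (An.prod (fun i hi => hf i (by simp [hi])))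
      (Hf a (by simp)) (ih (fun i hi => hf i (by simp [hi])) (fun i hi => Hf i (by simp [hi])))

lemma RatC.pow {N j : ℕ} {f : E → ℂ} (hf : An f) (Hf : RatC e x0 k c N j f) (r : ℕ) :
    RatC e x0 k c N j (fun x => f x ^ r) := by
  induction r with
  | zero => simpa using RatC.const k.one_mem
  | succ r ih =>
    simp only [pow_succ]
    exact RatC.mul (hf.pow r) hf ih Hf

/-- Division by a function not vanishing at the base point. -/
lemma RatC.div {N j : ℕ} {q g : E → ℂ} (hq : An q) (hg : An g)
    (Hq : RatC e x0 k c N j q) (H : RatC e x0 k c N j (fun x => q x * g x)) (h0 : q x0 ≠ 0) :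
    RatC e x0 k c N j g := by
  have base : g x0 ∈ k := by
    have h1 := k.mul_mem (k.inv_mem Hq.zero_mem) H.zero_mem
    rwa [inv_mul_cancel_left₀ h0] at h1
  induction N generalizing j g with
  | zero => exact RatC.of_dd_zero base
  | succ N ih =>
    have hd : ∀ v : E, An (fun x => q x * dd v g x) := fun v => hq.mul (hg.dd v)
    have key : ∀ v : E, (fun x => q x * dd v g x) =
        fun x => dd v (fun x => q x * g x) x - dd v q x * g x := by
      intro v
      rw [dd_mul hq hg]
      funext x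
      ring
    have Hg : RatC e x0 k c N j g := by
      exact ih hg (Hq.mono (Nat.le_succ N) le_rfl) (H.mono (Nat.le_succ N) le_rfl) base
    have mem0 : ∀ v : E, dd v g x0 * 1 = dd v g x0 := fun v => mul_one _
    apply RatC.of_dd base
    · intro b hb
      have h1 : RatC e x0 k c N j (fun x => q x * dd (e b) g x) := by
        rw [key]
        exact RatC.sub ((hq.mul hg).dd _) ((hq.dd _).mul hg) (H.dd_ne hb)
          (RatC.mul (hq.dd _) hg (Hq.dd_ne hb) Hg)
      have hb0 : dd (e b) g x0 ∈ k := by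
        have h2 := k.mul_mem (k.inv_mem Hq.zero_mem) h1.zero_mem
        rwa [inv_mul_cancel_left₀ h0] at h2
      exact ih (hg.dd _) (Hq.mono (Nat.le_succ N) le_rfl) h1 hb0
    · rintro j' rfl
      have h1 : RatC e x0 k c N j' (fun x => q x * dd (e c) g x) := by
        rw [key]
        exact RatC.sub ((hq.mul hg).dd _) ((hq.dd _).mul hg) H.dd_eq
          (RatC.mul (hq.dd _) hg Hq.dd_eq (Hg.mono le_rfl (Nat.le_succ j')))
      have hb0 : dd (e c) g x0 ∈ k := by
        have h2 := k.mul_mem (k.inv_mem Hq.zero_mem) h1.zero_mem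
        rwa [inv_mul_cancel_left₀ h0] at h2
      exact ih (hg.dd _) (Hq.mono (Nat.le_succ N) (Nat.le_succ j')) h1 hb0

/-- Slice lemma: a function `h` with `∑ η_b ∂_b h = u`, `η_c ≠ 0` at the base point, has all its
derivatives of order at most `N + 1` in `k` as soon as the derivatives not involving `c` are. -/
lemma slice {N : ℕ} [Fintype β] {η : β → E → ℂ} {u h : E → ℂ} (hη : ∀ b, An (η b))
    (hu : An u) (hh : An h)
    (Hη : ∀ b j, RatC e x0 k c N j (η b)) (Hu : ∀ j, RatC e x0 k c N j u)
    (heq : ∀ x, ∑ b, η b x * dd (e b) h x = u x) (h0 : η c x0 ≠ 0)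
    (Hs : RatC e x0 k c (N + 1) 0 h) (j : ℕ) : RatC e x0 k c (N + 1) j h := by
  induction j with
  | zero => exact Hs
  | succ j ih =>
    intro l hl hc
    by_cases hc' : l.count c ≤ j
    · exact ih l hl hc'
    have hmem : c ∈ l := by
      rw [← List.count_pos_iff]; omega
    have hp : l.Perm (c :: l.erase c) := List.perm_cons_erase hmem
    rw [DL_perm e hp hh]
    simp only [DL_cons]
    have hd : RatC e x0 k c N j (dd (e c) h) := by
      have h1 : (fun x => η c x * dd (e c) h x) =
          fun x => u x - ∑ b ∈ Finset.univ.erase c, η b x * dd (e b) h x := by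
        funext x
        rw [← heq x, ← Finset.add_sum_erase _ _ (Finset.mem_univ c)]
        ring
      refine RatC.div (hη c) (hh.dd _) (Hη c j) ?_ h0
      rw [h1]
      refine RatC.sub hu (An.sum (fun b _ => (hη b).mul (hh.dd _))) (Hu j) ?_
      refine RatC.sum (fun b _ => (hη b).mul (hh.dd _)) (fun b hb => ?_)
      exact RatC.mul (hη b) (hh.dd _) (Hη b j) (ih.dd_ne (Finset.ne_of_mem_erase hb))
    apply hd
    · rw [List.length_erase_of_mem hmem]; omega
    · rw [List.count_erase_self]; omega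

/-- All derivatives at `x0` of order at most `N` lie in `k`. -/
def Rat (e : β → E) (x0 : E) (k : Subfield ℂ) (N : ℕ) (h : E → ℂ) : Prop :=
  ∀ l : List β, l.length ≤ N → DL e l h x0 ∈ k

omit [DecidableEq β] in
lemma Rat.ratC [DecidableEq β] {N : ℕ} {h : E → ℂ} (H : Rat e x0 k N h) (c : β) (j : ℕ) :
    RatC e x0 k c N j h := fun l hl _ => H l hl

lemma RatC.rat {N : ℕ} {h : E → ℂ} (H : ∀ j, RatC e x0 k c N j h) : Rat e x0 k N h :=
  fun l hl => H (l.count c) l hl le_rfl

end rat

end Pool.Agent.W732.OS
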