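import Mathlib
import Pool.Agent.W732.Jets
import Pool.Agent.W732.Alg4

set_option autoImplicit false
set_option linter.unusedSectionVars false

open MvPolynomial Set Filter Topology

namespace Pool.Agent.W732.OS

variable {m : ℕ} (I : Ideal (MvPolynomial (Fin m) ℂ))

/-- The zero set of an ideal. -/
def zeros : Set (Fin m → ℂ) := {x | ∀ P ∈ I, eval x P = 0}

/-- Evaluation of regular functions at a point. -/
noncomputable def evx (x : zeros I) : Ax I →ₐ[ℂ] ℂ :=
  Ideal.Quotient.liftₐ I (aeval x.1) (by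
    intro P hP
    rw [MvPolynomial.aeval_eq_eval]
    exact x.2 P hP)

lemma evx_mk (x : zeros I) (P : MvPolynomial (Fin m) ℂ) :
    evx I x (Ideal.Quotient.mk I P) = eval x.1 P := by
  change (aeval x.1) P = _
  rw [MvPolynomial.aeval_eq_eval]

lemma evx_xx (x : zeros I) (j : Fin m) : evx I x (xx I j) = x.1 j := by
  rw [xx, evx_mk, eval_X]

/-- The point given by a homomorphism of algebras. -/
noncomputable def pt (φ : Ax I →ₐ[ℂ] ℂ) : zeros I :=
  ⟨fun j => φ (xx I j), by
    intro P hP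
    have h1 : (φ.comp (Ideal.Quotient.mkₐ ℂ I)) = aeval (fun j => φ (xx I j)) := by
      apply MvPolynomial.algHom_ext
      intro j
      simp [xx]
    have h2 : aeval (fun j => φ (xx I j)) P = 0 := by
      rw [← h1]
      simp [Ideal.Quotient.eq_zero_iff_mem.2 hP]
    rw [aeval_def, eval₂_eq_eval_map] at h2
    simpa using h2⟩

lemma evx_pt (φ : Ax I →ₐ[ℂ] ℂ) (a : Ax I) : evx I (pt I φ) a = φ a := by
  obtain ⟨P, rfl⟩ := Ideal.Quotient.mk_surjective a
  have h1 : (φ.comp (Ideal.Quotient.mkₐ ℂ I)) = aeval (fun j => φ (xx I j)) := by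
    apply MvPolynomial.algHom_ext
    intro j
    simp [xx]
  rw [evx_mk]
  have h2 := DFunLike.congr_fun h1 P
  rw [aeval_def, eval₂_eq_eval_map] at h2
  simp only [AlgHom.coe_comp, Function.comp_apply, Ideal.Quotient.mkₐ_eq_mk] at h2
  rw [h2]
  simp [pt]

lemma zeros_ext {x y : zeros I} (h : ∀ a, evx I x a = evx I y a) : x = y := by
  apply Subtype.ext
  funext j
  rw [← evx_xx, ← evx_xx, h]

/-- The value of the vector field at a point. -/
noncomputable def vf (Θ : Derivation ℂ (Ax I) (Ax I)) (x : zeros I) : Fin m → ℂ :=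
  fun j => evx I x (Θ (xx I j))

variable {I}

/-- The flow of a locally nilpotent derivation. -/
noncomputable def fl {Θ : Derivation ℂ (Ax I) (Ax I)} (h : IsLND Θ) (s : ℂ) (x : zeros I) :
    zeros I := pt I ((evx I x).comp (EE h s))

lemma evx_fl {Θ : Derivation ℂ (Ax I) (Ax I)} (h : IsLND Θ) (s : ℂ) (x : zeros I) (a : Ax I) :
    evx I (fl h s x) a = evx I x (EE h s a) := by
  rw [fl, evx_pt]; rfl

lemma fl_zero {Θ : Derivation ℂ (Ax I) (Ax I)} (h : IsLND Θ) (x : zeros I) : fl h 0 x = x := by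
  apply zeros_ext
  intro a
  rw [evx_fl, EE_zero]

lemma fl_add {Θ : Derivation ℂ (Ax I) (Ax I)} (h : IsLND Θ) (s t : ℂ) (x : zeros I) :
    fl h s (fl h t x) = fl h (s + t) x := by
  apply zeros_ext
  intro a
  rw [evx_fl, evx_fl, evx_fl, EE_add, add_comm]

lemma fl_sum {Θ : Derivation ℂ (Ax I) (Ax I)} (h : IsLND Θ) (s : ℂ) (x : zeros I) (a : Ax I)
    {R : ℕ} (hR : (⇑Θ)^[R] a = 0) :
    evx I (fl h s x) a = ∑ r ∈ Finset.range R, s ^ r * evx I x (dpw Θ r a) := by
  rw [evx_fl, EE_eq h s a hR, map_sum]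
  simp

/-- A flow is constant at zeros of its field. -/
lemma fl_fixed {Θ : Derivation ℂ (Ax I) (Ax I)} (h : IsLND Θ) (s : ℂ) {x : zeros I}
    (hx : vf I Θ x = 0) : fl h s x = x := by
  have h1 : ∀ a, evx I x (Θ a) = 0 := by
    intro a
    obtain ⟨P, rfl⟩ := Ideal.Quotient.mk_surjective a
    rw [der_mk, map_sum]
    apply Finset.sum_eq_zero
    intro j _
    have : evx I x (Θ (xx I j)) = 0 := congrFun hx j
    rw [map_mul, this, mul_zero]
  apply zeros_ext
  intro a
  obtain ⟨R, hR⟩ := h a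
  rw [fl_sum h s x a (iter_ge Θ hR (Nat.le_succ R)), Finset.sum_range_succ']
  rw [Finset.sum_eq_zero]
  · simp
  · intro r _
    have : evx I x (dpw Θ (r + 1) a) = 0 := by
      simp only [dpw]
      rw [map_smul, Function.iterate_succ_apply', h1, smul_zero]
    rw [this, mul_zero]

lemma hasDerivAt_evx {Θ : Derivation ℂ (Ax I) (Ax I)} (h : IsLND Θ) (x : zeros I) (a : Ax I)
    (s : ℂ) : HasDerivAt (fun s => evx I (fl h s x) a) (evx I (fl h s x) (Θ a)) s := by
  have key : ∀ b s, evx I (fl h s x) b =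
      ((TA h b).map (evx I x : Ax I →+* ℂ)).eval s := by
    intro b s
    have hs : (evx I x : Ax I →+* ℂ) (algebraMap ℂ (Ax I) s) = s := by simp
    have h1 := Polynomial.eval₂_at_apply (p := TA h b) (evx I x : Ax I →+* ℂ)
      (algebraMap ℂ (Ax I) s)
    rw [hs] at h1
    rw [evx_fl, EE_def, Polynomial.eval_map, h1]
    rfl
  simp only [key]
  rw [← derivative_TA, ← Polynomial.derivative_map]
  exact Polynomial.hasDerivAt _ _

lemma hasDerivAt_fl {Θ : Derivation ℂ (Ax I) (Ax I)} (h : IsLND Θ) (x : zeros I) (s : ℂ) :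
    HasDerivAt (fun s => (fl h s x).1) (vf I Θ (fl h s x)) s := by
  rw [hasDerivAt_pi]
  intro j
  have := hasDerivAt_evx h x (xx I j) s
  simp only [evx_xx] at this
  exact this

section analytic

variable {E : Type*} [NormedAddCommGroup E] [NormedSpace ℂ E]

/-- Analytic maps into the variety. -/
def AnX (q : E → zeros I) : Prop := ∀ j, An (fun z => (q z).1 j)

/-- The derivative of a map into the variety. -/
noncomputable def DX (q : E → zeros I) (z v : E) : Fin m → ℂ :=
  fun j => dd v (fun z => (q z).1 j) z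

lemma An.eval {ψ : E → Fin m → ℂ} (hψ : ∀ j, An (fun z => ψ z j))
    (P : MvPolynomial (Fin m) ℂ) : An (fun z => eval (ψ z) P) := by
  induction P using MvPolynomial.induction_on with
  | C a => simpa using An.const a
  | add p q hp hq => simpa using hp.add hq
  | mul_X p i hp => simpa using hp.mul (hψ i)

lemma dd_eval {ψ : E → Fin m → ℂ} (hψ : ∀ j, An (fun z => ψ z j))
    (P : MvPolynomial (Fin m) ℂ) (z v : E) : dd v (fun z => MvPolynomial.eval (ψ z) P) z =
      ∑ j, MvPolynomial.eval (ψ z) (pderiv j P) * dd v (fun z => ψ z j) z := by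
  induction P using MvPolynomial.induction_on with
  | C a => simp [dd_const]
  | add p q hp hq =>
    have h1 : (fun z => MvPolynomial.eval (ψ z) (p + q)) =
      fun z => MvPolynomial.eval (ψ z) p + MvPolynomial.eval (ψ z) q := by funext z; simp
    rw [h1, dd_add (An.eval hψ p) (An.eval hψ q)]
    simp only [hp, hq, map_add, add_mul, Finset.sum_add_distrib]
  | mul_X p i hp =>
    have h1 : (fun z => MvPolynomial.eval (ψ z) (p * X i)) =
      fun z => MvPolynomial.eval (ψ z) p * ψ z i := by funext z; simp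
    rw [h1, dd_mul (An.eval hψ p) (hψ i)]
    simp only [hp, Derivation.leibniz, map_add, smul_eq_mul, map_mul, eval_X, add_mul,
      Finset.sum_add_distrib]
    rw [add_comm]
    congr 1
    · rw [Finset.sum_eq_single i]
      · rw [pderiv_X_self]; simp
      · intro j _ hj
        rw [pderiv_X_of_ne hj.symm]; simp
      · simp
    · rw [Finset.sum_mul]
      refine Finset.sum_congr rfl fun j _ => ?_
      ring

lemma AnX.evx {q : E → zeros I} (hq : AnX q) (a : Ax I) : An (fun z => evx I (q z) a) := by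
  obtain ⟨P, rfl⟩ := Ideal.Quotient.mk_surjective a
  simp only [evx_mk]
  exact An.eval hq P

lemma dd_evx {q : E → zeros I} (hq : AnX q) (P : MvPolynomial (Fin m) ℂ) (z v : E) :
    dd v (fun z => OS.evx I (q z) (Ideal.Quotient.mk I P)) z =
      ∑ j, eval (q z).1 (pderiv j P) * DX q z v j := by
  simp only [evx_mk]
  exact dd_eval hq P z v

/-- Derivatives of maps into the variety are tangent to it. -/
lemma DX_tangent {q : E → zeros I} (hq : AnX q) {P : MvPolynomial (Fin m) ℂ} (hP : P ∈ I)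
    (z v : E) : ∑ j, eval (q z).1 (pderiv j P) * DX q z v j = 0 := by
  rw [← dd_evx hq P z v]
  have : (fun z => OS.evx I (q z) (Ideal.Quotient.mk I P)) = fun _ => 0 := by
    funext z
    rw [Ideal.Quotient.eq_zero_iff_mem.2 hP, map_zero]
  rw [this, dd_const]

lemma AnX.fl {Θ : Derivation ℂ (Ax I) (Ax I)} (h : IsLND Θ) {τ : E → ℂ} (hτ : An τ)
    {q : E → zeros I} (hq : AnX q) : AnX (fun z => fl h (τ z) (q z)) := by
  intro j
  obtain ⟨R, hR⟩ := h (xx I j)
  have h1 : (fun z => (OS.fl h (τ z) (q z)).1 j) =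
      fun z => ∑ r ∈ Finset.range R, τ z ^ r * OS.evx I (q z) (dpw Θ r (xx I j)) := by
    funext z
    rw [← evx_xx, fl_sum h _ _ _ hR]
  rw [h1]
  exact An.sum fun r _ => (hτ.pow r).mul (hq.evx _)

lemma dd_sum {ι : Type*} {s : Finset ι} {f : ι → E → ℂ} (hf : ∀ i ∈ s, An (f i)) (v : E) :
    dd v (fun x => ∑ i ∈ s, f i x) = fun x => ∑ i ∈ s, dd v (f i) x := by
  classical
  induction s using Finset.induction_on with
  | empty => simp [dd_const]
  | insert a s ha ih =>
    simp only [Finset.sum_insert ha]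
    rw [dd_add (hf a (by simp)) (An.sum (fun i hi => hf i (by simp [hi]))),
      ih (fun i hi => hf i (by simp [hi]))]

lemma dd_pow_zero {τ : E → ℂ} (hτ : An τ) {z : E} (hz : τ z = 0) (r : ℕ) (v : E) :
    dd v (fun z => τ z ^ (r + 2)) z = 0 := by
  have : (fun z => τ z ^ (r + 2)) = fun z => τ z ^ (r + 1) * τ z := by
    funext z; rw [← pow_succ]
  rw [this, dd_mul (hτ.pow _) hτ]
  simp [hz]

/-- Derivative of a flow at time zero. -/
lemma DX_fl {Θ : Derivation ℂ (Ax I) (Ax I)} (h : IsLND Θ) {τ : E → ℂ} (hτ : An τ)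
    {q : E → zeros I} (hq : AnX q) {z : E} (hz : τ z = 0) (v : E) :
    DX (fun z => fl h (τ z) (q z)) z v = DX q z v + dd v τ z • vf I Θ (q z) := by
  funext j
  obtain ⟨R, hR⟩ := h (xx I j)
  have h1 : (fun z => (OS.fl h (τ z) (q z)).1 j) =
      fun z => ∑ r ∈ Finset.range (R + 2), τ z ^ r * OS.evx I (q z) (dpw Θ r (xx I j)) := by
    funext z
    rw [← evx_xx, fl_sum h _ _ _ (iter_ge Θ hR (Nat.le_add_right R 2))]
  change dd v (fun z => (OS.fl h (τ z) (q z)).1 j) z = _
  rw [h1, dd_sum (fun r _ => (hτ.pow r).mul (hq.evx _))]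
  beta_reduce
  rw [Finset.sum_range_succ', Finset.sum_range_succ']
  have h2 : ∀ r ∈ Finset.range R, dd v (fun z => τ z ^ (r + 1 + 1) *
      OS.evx I (q z) (dpw Θ (r + 1 + 1) (xx I j))) z = 0 := by
    intro r _
    rw [dd_mul (hτ.pow _) (hq.evx _)]
    simp only [dd_pow_zero hτ hz, hz]
    simp
  rw [Finset.sum_eq_zero h2]
  have h3 : (fun z => τ z ^ (0 + 1) * OS.evx I (q z) (dpw Θ (0 + 1) (xx I j))) =
      fun z => τ z * OS.evx I (q z) (Θ (xx I j)) := by
    funext z
    rw [zero_add, pow_one, dpw_one]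
  have h4 : (fun z => τ z ^ 0 * OS.evx I (q z) (dpw Θ 0 (xx I j))) =
      fun z => (q z).1 j := by
    funext z
    rw [pow_zero, one_mul, dpw_zero, evx_xx]
  rw [h3, h4, dd_mul hτ (hq.evx _)]
  simp only [hz, Pi.add_apply, Pi.smul_apply, smul_eq_mul, vf, DX]
  ring

/-- Composition of several flows. -/
noncomputable def Fold {β : Type*} {Λ : β → Derivation ℂ (Ax I) (Ax I)} (h : ∀ b, IsLND (Λ b))
    (τ : β → E → ℂ) (q : E → zeros I) (ls : List β) (z : E) : zeros I :=
  ls.foldr (fun b x => fl (h b) (τ b z) x) (q z)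

lemma Fold_cons {β : Type*} {Λ : β → Derivation ℂ (Ax I) (Ax I)} (h : ∀ b, IsLND (Λ b))
    (τ : β → E → ℂ) (q : E → zeros I) (b : β) (ls : List β) :
    Fold h τ q (b :: ls) = fun z => fl (h b) (τ b z) (Fold h τ q ls z) := rfl

lemma AnX.Fold {β : Type*} {Λ : β → Derivation ℂ (Ax I) (Ax I)} (h : ∀ b, IsLND (Λ b))
    {τ : β → E → ℂ} (hτ : ∀ b, An (τ b)) {q : E → zeros I} (hq : AnX q) (ls : List β) :
    AnX (Fold h τ q ls) := by
  induction ls with
  | nil => exact hq
  | cons b ls ih =>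
    rw [Fold_cons]
    exact AnX.fl (h b) (hτ b) ih

lemma Fold_zero {β : Type*} {Λ : β → Derivation ℂ (Ax I) (Ax I)} (h : ∀ b, IsLND (Λ b))
    {τ : β → E → ℂ} {q : E → zeros I} (ls : List β) {z : E} (hz : ∀ b, τ b z = 0) :
    Fold h τ q ls z = q z := by
  induction ls with
  | nil => rfl
  | cons b ls ih => simp only [Fold_cons, hz, fl_zero, ih]

lemma DX_Fold {β : Type*} {Λ : β → Derivation ℂ (Ax I) (Ax I)} (h : ∀ b, IsLND (Λ b))
    {τ : β → E → ℂ} (hτ : ∀ b, An (τ b)) {q : E → zeros I} (hq : AnX q) (ls : List β)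
    {z : E} (hz : ∀ b, τ b z = 0) (v : E) :
    DX (Fold h τ q ls) z v = DX q z v +
      (ls.map fun b => dd v (τ b) z • vf I (Λ b) (q z)).sum := by
  induction ls with
  | nil => simp; rfl
  | cons b ls ih =>
    rw [Fold_cons, DX_fl (h b) (hτ b) (AnX.Fold h hτ hq ls) (hz b), ih, Fold_zero h ls hz]
    simp only [List.map_cons, List.sum_cons]
    abel

end analytic

end Pool.Agent.W732.OS
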