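import Mathlib
import Pool.Agent.W732.Flow

set_option autoImplicit false
set_option linter.unusedSectionVars false

open MvPolynomial Set Filter Topology

namespace Pool.Agent.W732.OS

variable {m : ℕ} (I : Ideal (MvPolynomial (Fin m) ℂ))

/-- Regular functions defined over a subfield. -/
noncomputable def Ak (k : Subfield ℂ) : Subring (Ax I) :=
  ((Ideal.Quotient.mk I).comp (MvPolynomial.map (σ := Fin m) k.subtype)).range

lemma Ak_mk {k : Subfield ℂ} (P : MvPolynomial (Fin m) k) :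
    Ideal.Quotient.mk I (MvPolynomial.map k.subtype P) ∈ Ak I k := ⟨P, rfl⟩

lemma Ak_xx {k : Subfield ℂ} (j : Fin m) : xx I j ∈ Ak I k := ⟨X j, by simp [xx]⟩

lemma Ak_alg {k : Subfield ℂ} {c : ℂ} (hc : c ∈ k) : algebraMap ℂ (Ax I) c ∈ Ak I k :=
  ⟨C ⟨c, hc⟩, by
    simp only [RingHom.coe_comp, Function.comp_apply, map_C]
    rfl⟩

lemma Ak_smul {k : Subfield ℂ} {c : ℂ} (hc : c ∈ k) {a : Ax I} (ha : a ∈ Ak I k) :
    c • a ∈ Ak I k := by
  have h1 : c • a = algebraMap ℂ (Ax I) c * a := Algebra.smul_def c a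
  rw [h1]
  exact (Ak I k).mul_mem (Ak_alg I hc) ha

lemma Ak_mono {k k' : Subfield ℂ} (h : k ≤ k') {a : Ax I} (ha : a ∈ Ak I k) : a ∈ Ak I k' := by
  obtain ⟨P, rfl⟩ := ha
  induction P using MvPolynomial.induction_on with
  | C c =>
    have := Ak_alg I (h c.2)
    simp only [RingHom.coe_comp, Function.comp_apply, map_C]
    exact this
  | add p q hp hq =>
    rw [map_add]; exact (Ak I k').add_mem hp hq
  | mul_X p i hp =>
    rw [map_mul]
    refine (Ak I k').mul_mem hp ?_
    have := Ak_xx I (k := k') i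
    simpa [xx] using this

lemma Ak_der {k : Subfield ℂ} {Θ : Derivation ℂ (Ax I) (Ax I)} (hΘ : ∀ j, Θ (xx I j) ∈ Ak I k)
    {a : Ax I} (ha : a ∈ Ak I k) : Θ a ∈ Ak I k := by
  obtain ⟨P, rfl⟩ := ha
  simp only [RingHom.coe_comp, Function.comp_apply]
  rw [der_mk]
  refine (Ak I k).sum_mem fun j _ => (Ak I k).mul_mem ?_ (hΘ j)
  rw [pderiv_map]
  exact Ak_mk I _

lemma Ak_iter {k : Subfield ℂ} {Θ : Derivation ℂ (Ax I) (Ax I)} (hΘ : ∀ j, Θ (xx I j) ∈ Ak I k)
    {a : Ax I} (ha : a ∈ Ak I k) (r : ℕ) : (⇑Θ)^[r] a ∈ Ak I k := by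
  induction r with
  | zero => exact ha
  | succ r ih => rw [Function.iterate_succ_apply']; exact Ak_der I hΘ ih

lemma Ak_dpw {k : Subfield ℂ} {Θ : Derivation ℂ (Ax I) (Ax I)} (hΘ : ∀ j, Θ (xx I j) ∈ Ak I k)
    {a : Ax I} (ha : a ∈ Ak I k) (r : ℕ) : dpw Θ r a ∈ Ak I k :=
  Ak_smul I (k.inv_mem (natCast_mem k _)) (Ak_iter I hΘ ha r)

/-- Every regular function is defined over a finitely generated field. -/
lemma exists_coeffs (a : Ax I) : ∃ S : Finset ℂ, ∀ k : Subfield ℂ, (S : Set ℂ) ⊆ k →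
    a ∈ Ak I k := by
  obtain ⟨P, rfl⟩ := Ideal.Quotient.mk_surjective a
  induction P using MvPolynomial.induction_on with
  | C c =>
    refine ⟨{c}, fun k hk => ?_⟩
    exact Ak_alg I (hk (by simp))
  | add p q hp hq =>
    obtain ⟨S, hS⟩ := hp
    obtain ⟨T, hT⟩ := hq
    classical
    refine ⟨S ∪ T, fun k hk => ?_⟩
    rw [Finset.coe_union, union_subset_iff] at hk
    rw [map_add]
    exact (Ak I k).add_mem (hS k hk.1) (hT k hk.2)
  | mul_X p i hp =>
    obtain ⟨S, hS⟩ := hp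
    refine ⟨S, fun k hk => ?_⟩
    rw [map_mul]
    exact (Ak I k).mul_mem (hS k hk) (Ak_xx I i)

/-- Every derivation is defined over a finitely generated field. -/
lemma exists_coeffs_der (Θ : Derivation ℂ (Ax I) (Ax I)) :
    ∃ S : Finset ℂ, ∀ k : Subfield ℂ, (S : Set ℂ) ⊆ k → ∀ j, Θ (xx I j) ∈ Ak I k := by
  classical
  choose S hS using fun j => exists_coeffs I (Θ (xx I j))
  refine ⟨Finset.univ.biUnion S, fun k hk j => hS j k ?_⟩
  refine Subset.trans ?_ hk
  intro c hc
  simp only [Finset.coe_biUnion, mem_iUnion]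
  exact ⟨j, Finset.mem_coe.2 (Finset.mem_univ j), hc⟩

variable {I}

section rat

variable {E : Type*} [NormedAddCommGroup E] [NormedSpace ℂ E] {β : Type*} [DecidableEq β]
  {e : β → E} {x0 : E} {k : Subfield ℂ} {c : β}

lemma RatC.evx {N j : ℕ} {q : E → zeros I} (hq : AnX q)
    (H : ∀ i, RatC e x0 k c N j (fun z => (q z).1 i)) {a : Ax I} (ha : a ∈ Ak I k) :
    RatC e x0 k c N j (fun z => evx I (q z) a) := by
  obtain ⟨P, rfl⟩ := ha
  simp only [RingHom.coe_comp, Function.comp_apply, evx_mk]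
  induction P using MvPolynomial.induction_on with
  | C a => simpa using RatC.const a.2
  | add p q' hp hq' =>
    simp only [map_add]
    exact RatC.add (An.eval hq _) (An.eval hq _) hp hq'
  | mul_X p i hp =>
    simp only [map_mul, map_X, eval_X]
    exact RatC.mul (An.eval hq _) (hq i) hp (H i)

lemma RatC.fl {N j : ℕ} {Θ : Derivation ℂ (Ax I) (Ax I)} (h : IsLND Θ)
    (hΘ : ∀ j, Θ (xx I j) ∈ Ak I k) {τ : E → ℂ} (hτ : An τ) (Hτ : RatC e x0 k c N j τ)
    {q : E → zeros I} (hq : AnX q) (H : ∀ i, RatC e x0 k c N j (fun z => (q z).1 i)) (i : Fin m) :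
    RatC e x0 k c N j (fun z => (OS.fl h (τ z) (q z)).1 i) := by
  obtain ⟨R, hR⟩ := h (xx I i)
  have h1 : (fun z => (OS.fl h (τ z) (q z)).1 i) =
      fun z => ∑ r ∈ Finset.range R, τ z ^ r * OS.evx I (q z) (dpw Θ r (xx I i)) := by
    funext z
    rw [← evx_xx, fl_sum h _ _ _ hR]
  rw [h1]
  exact RatC.sum (fun r _ => (hτ.pow r).mul (hq.evx _)) fun r _ =>
    RatC.mul (hτ.pow r) (hq.evx _) (Hτ.pow hτ r) (RatC.evx hq H (Ak_dpw I hΘ (Ak_xx I i) r))

lemma RatC.Fold {N j : ℕ} {γ : Type*} {Λ : γ → Derivation ℂ (Ax I) (Ax I)}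
    (h : ∀ b, IsLND (Λ b)) (hΛ : ∀ b j, Λ b (xx I j) ∈ Ak I k)
    {τ : γ → E → ℂ} (hτ : ∀ b, An (τ b)) (Hτ : ∀ b, RatC e x0 k c N j (τ b))
    {q : E → zeros I} (hq : AnX q) (H : ∀ i, RatC e x0 k c N j (fun z => (q z).1 i))
    (ls : List γ) (i : Fin m) : RatC e x0 k c N j (fun z => (Fold h τ q ls z).1 i) := by
  induction ls generalizing i with
  | nil => exact H i
  | cons b ls ih =>
    rw [Fold_cons]
    exact RatC.fl (h b) (hΛ b) (hτ b) (Hτ b) (AnX.Fold h hτ hq ls) ih i

lemma An.det {n : ℕ} {M : E → Matrix (Fin n) (Fin n) ℂ} (hM : ∀ i j, An (fun z => M z i j)) :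
    An (fun z => (M z).det) := by
  simp only [Matrix.det_apply']
  exact An.sum fun σ _ => (An.const _).mul (An.prod fun i _ => hM _ _)

lemma RatC.det {N j n : ℕ} {M : E → Matrix (Fin n) (Fin n) ℂ} (hM : ∀ i j, An (fun z => M z i j))
    (H : ∀ i i', RatC e x0 k c N j (fun z => M z i i')) :
    RatC e x0 k c N j (fun z => (M z).det) := by
  simp only [Matrix.det_apply']
  refine RatC.sum (fun σ _ => (An.const _).mul (An.prod fun i _ => hM _ _)) fun σ _ => ?_
  refine RatC.mul (An.const _) (An.prod fun i _ => hM _ _) (RatC.const (intCast_mem k _))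
    (RatC.prod (fun i _ => hM _ _) fun i _ => H _ _)

lemma An.adj {n : ℕ} {M : E → Matrix (Fin n) (Fin n) ℂ} (hM : ∀ i j, An (fun z => M z i j))
    (i i' : Fin n) : An (fun z => (M z).adjugate i i') := by
  simp only [Matrix.adjugate_apply]
  apply An.det
  intro a b
  by_cases ha : a = i'
  · subst ha
    simpa using An.const _
  · simpa [Matrix.updateRow_ne ha] using hM a b

lemma RatC.adj {N j n : ℕ} {M : E → Matrix (Fin n) (Fin n) ℂ} (hM : ∀ i j, An (fun z => M z i j))
    (H : ∀ i i', RatC e x0 k c N j (fun z => M z i i')) (i i' : Fin n) :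
    RatC e x0 k c N j (fun z => (M z).adjugate i i') := by
  simp only [Matrix.adjugate_apply]
  apply RatC.det
  · intro a b
    by_cases ha : a = i'
    · subst ha
      simpa using An.const _
    · simpa [Matrix.updateRow_ne ha] using hM a b
  · intro a b
    by_cases ha : a = i'
    · subst ha
      have : ((Pi.single i 1 : Fin n → ℂ) b) ∈ k := by
        rw [Pi.single_apply]
        split_ifs
        · exact k.one_mem
        · exact k.zero_mem
      simpa using RatC.const this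
    · simpa [Matrix.updateRow_ne ha] using H a b

end rat

section count

variable {E : Type*} [NormedAddCommGroup E] [NormedSpace ℂ E] {n : ℕ}

/-- The derivatives not involving the direction `c` take few values. -/
lemma slice_card (e : Fin n → E) (x0 : E) (c : Fin n) (N : ℕ) {h : E → ℂ} (hh : An h) :
    ∃ S : Finset ℂ, S.card ≤ (N + 1) ^ (n - 1) ∧
      ∀ l : List (Fin n), l.length ≤ N → l.count c ≤ 0 → DL e l h x0 ∈ S := by
  classical
  let val : ({b : Fin n // b ≠ c} → Fin (N + 1)) → ℂ := fun κ =>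
    if H : ∃ l : List (Fin n), l.count c = 0 ∧ ∀ b : {b : Fin n // b ≠ c}, l.count b.1 = κ b
      then DL e H.choose h x0 else 0
  refine ⟨Finset.univ.image val, ?_, ?_⟩
  · refine Finset.card_image_le.trans ?_
    rw [Finset.card_univ, Fintype.card_fun, Fintype.card_fin]
    apply le_of_eq
    congr 1
    simp [Fintype.card_subtype_compl]
  · intro l hl hc
    rw [Finset.mem_image]
    have hc' : l.count c = 0 := Nat.le_zero.1 hc
    refine ⟨fun b => ⟨l.count b.1, lt_of_le_of_lt (List.count_le_length.trans hl)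
      (Nat.lt_succ_self N)⟩, Finset.mem_univ _, ?_⟩
    have H : ∃ l' : List (Fin n), l'.count c = 0 ∧
      ∀ b : {b : Fin n // b ≠ c}, l'.count b.1 = l.count b.1 := ⟨l, hc', fun _ => rfl⟩
    simp only [val]
    rw [dif_pos H]
    have hs := H.choose_spec
    have hp : H.choose.Perm l := by
      rw [List.perm_iff_count]
      intro b
      by_cases hb : b = c
      · rw [hb, hs.1, hc']
      · exact hs.2 ⟨b, hb⟩
    rw [DL_perm e hp hh]

end count

end Pool.Agent.W732.OS
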