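import Mathlib
import Pool.Agent.W732.Ratk

set_option autoImplicit false
set_option linter.unusedSectionVars false

open MvPolynomial Set Filter Topology

namespace Pool.Agent.W732.OS

variable {m : ℕ} {I : Ideal (MvPolynomial (Fin m) ℂ)}

/-- Maps of the variety that are restrictions of entire maps. -/
def Hol (φ : zeros I → zeros I) : Prop :=
  ∃ F : (Fin m → ℂ) → (Fin m → ℂ), AnalyticOnNhd ℂ F univ ∧ ∀ x : zeros I, F x.1 = (φ x).1

section comp

variable {E : Type*} [NormedAddCommGroup E] [NormedSpace ℂ E]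

lemma AnX.vec {q : E → zeros I} (hq : AnX q) : AnalyticOnNhd ℂ (fun z => (q z).1) univ :=
  AnalyticOnNhd.pi (fun j => hq j)

lemma fderiv_vec {q : E → zeros I} (hq : AnX q) (z v : E) :
    fderiv ℂ (fun z => (q z).1) z v = DX q z v := by
  funext j
  have := fderiv_apply (hq.vec z trivial).differentiableAt j
  simp only [DX, dd]
  rw [this]
  rfl

lemma An.compX {H : (Fin m → ℂ) → ℂ} (hH : An H) {q : E → zeros I} (hq : AnX q) :
    An (fun z => H (q z).1) := fun z _ => (hH.at _).comp (hq.vec z trivial)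

lemma dd_compX {H : (Fin m → ℂ) → ℂ} (hH : An H) {q : E → zeros I} (hq : AnX q) (z v : E) :
    dd v (fun z => H (q z).1) z = fderiv ℂ H (q z).1 (DX q z v) := by
  have h1 := fderiv_comp z (hH.diffAt ((q z).1)) (hq.vec z trivial).differentiableAt
  change fderiv ℂ (H ∘ fun z => (q z).1) z v = _
  rw [h1, ContinuousLinearMap.comp_apply, fderiv_vec hq]

lemma An.coord {F : (Fin m → ℂ) → (Fin m → ℂ)} (hF : AnalyticOnNhd ℂ F univ) (j : Fin m) :
    An (fun x => F x j) := (analyticOnNhd_pi_iff (f := fun j x => F x j)).1 hF j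

lemma Hol.AnX {φ : zeros I → zeros I} (hφ : Hol φ) {q : E → zeros I} (hq : AnX q) :
    AnX (fun z => φ (q z)) := by
  obtain ⟨F, hF, hFφ⟩ := hφ
  intro j
  have : (fun z => (φ (q z)).1 j) = fun z => F (q z).1 j := by
    funext z; rw [hFφ]
  rw [this]
  exact An.compX (An.coord hF j) hq

lemma DX_hol {φ : zeros I → zeros I} {F : (Fin m → ℂ) → (Fin m → ℂ)}
    (hF : AnalyticOnNhd ℂ F univ) (hFφ : ∀ x : zeros I, F x.1 = (φ x).1)
    {q : E → zeros I} (hq : OS.AnX q) (z v : E) :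
    DX (fun z => φ (q z)) z v = fderiv ℂ F (q z).1 (DX q z v) := by
  funext j
  have : (fun z => (φ (q z)).1 j) = fun z => F (q z).1 j := by
    funext z; rw [hFφ]
  simp only [DX]
  rw [this, dd_compX (An.coord hF j) hq]
  have h1 := fderiv_apply (hF (q z).1 trivial).differentiableAt j
  rw [h1]
  rfl

lemma DX_const (x : zeros I) (z v : E) : DX (fun _ => x) z v = 0 := by
  funext j
  simp [DX, dd_const]

lemma AnX_const (x : zeros I) : OS.AnX (fun _ : E => x) := fun _ => An.const _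

end comp

lemma DX_sum {n : ℕ} {q : (Fin n → ℂ) → zeros I} (hq : AnX q) (z v : Fin n → ℂ) :
    DX q z v = ∑ b, v b • DX q z (Pi.single b 1) := by
  simp only [← fderiv_vec hq]
  conv_lhs => rw [show v = ∑ b, v b • (Pi.single b 1 : Fin n → ℂ) by
    funext i; simp [Finset.sum_apply, Pi.single_apply]]
  rw [map_sum]
  simp only [map_smul]

/-- A family of locally nilpotent derivations spanning the tangent space where the regular
function `e` does not vanish. -/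
structure Frame (I : Ideal (MvPolynomial (Fin m) ℂ)) where
  n : ℕ
  Θ : Fin n → Derivation ℂ (Ax I) (Ax I)
  lnd : ∀ l, IsLND (Θ l)
  G : Finset (MvPolynomial (Fin m) ℂ)
  hG : ∀ P ∈ G, P ∈ I
  B : Fin n → Fin m → Ax I
  C : Fin m → G → Ax I
  e : Ax I
  e_ne : e ≠ 0
  split1 : ∀ i l, ∑ j, B i j * Θ l (xx I j) = if i = l then e else 0
  split2 : ∀ j j', ∑ i, Θ i (xx I j) * B i j' +
        ∑ r : G, C j r * Ideal.Quotient.mk I (pderiv j' (r : MvPolynomial (Fin m) ℂ)) =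
          if j = j' then e else 0

namespace Frame

variable (𝔉 : Frame I)

/-- The chart at a point given by the flows of the frame. -/
noncomputable def io (p : zeros I) : (Fin 𝔉.n → ℂ) → zeros I :=
  Fold 𝔉.lnd (fun b z => z b) (fun _ => p) (List.finRange 𝔉.n)

lemma an_proj (n : ℕ) (b : Fin n) : An (fun z : Fin n → ℂ => z b) :=
  fun z _ => (ContinuousLinearMap.proj (R := ℂ) (φ := fun _ : Fin n => ℂ) b).analyticAt z

lemma dd_proj (n : ℕ) (b : Fin n) (z v : Fin n → ℂ) : dd v (fun z : Fin n → ℂ => z b) z = v b := by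
  have := (ContinuousLinearMap.proj (R := ℂ) (φ := fun _ : Fin n => ℂ) b).fderiv (x := z)
  change fderiv ℂ (ContinuousLinearMap.proj (R := ℂ) (φ := fun _ : Fin n => ℂ) b) z v = _
  rw [this]; rfl

lemma io_An (p : zeros I) : AnX (𝔉.io p) :=
  AnX.Fold _ (fun b => an_proj _ b) (AnX_const p) _

lemma io_zero (p : zeros I) : 𝔉.io p 0 = p :=
  Fold_zero _ _ (fun _ => rfl)

lemma DX_io (p : zeros I) (v : Fin 𝔉.n → ℂ) :
    DX (𝔉.io p) 0 v = ∑ b, v b • vf I (𝔉.Θ b) p := by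
  have h1 := DX_Fold 𝔉.lnd (τ := fun b (z : Fin 𝔉.n → ℂ) => z b) (fun b => an_proj _ b)
    (q := fun _ => p) (AnX_const p) (List.finRange 𝔉.n) (z := 0) (fun _ => rfl) v
  rw [io, h1, DX_const, zero_add, Fin.sum_univ_def]
  simp only [dd_proj]

/-- Decomposition of tangent vectors. -/
lemma tangent_decomp (x : zeros I) {u : Fin m → ℂ}
    (hu : ∀ P ∈ I, ∑ j, eval x.1 (pderiv j P) * u j = 0) :
    evx I x 𝔉.e • u = ∑ i, (∑ j, evx I x (𝔉.B i j) * u j) • vf I (𝔉.Θ i) x := by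
  funext j
  have h1 : ∀ j', ∑ i, evx I x (𝔉.Θ i (xx I j)) * evx I x (𝔉.B i j') +
      ∑ r : 𝔉.G, evx I x (𝔉.C j r) * eval x.1 (pderiv j' (r : MvPolynomial (Fin m) ℂ)) =
      if j = j' then evx I x 𝔉.e else 0 := by
    intro j'
    have := congrArg (evx I x) (𝔉.split2 j j')
    simp only [map_add, map_sum, map_mul, evx_mk] at this
    rw [this]; split_ifs <;> simp
  have h2 : ∑ j', (∑ i, evx I x (𝔉.Θ i (xx I j)) * evx I x (𝔉.B i j') +
      ∑ r : 𝔉.G, evx I x (𝔉.C j r) * eval x.1 (pderiv j' (r : MvPolynomial (Fin m) ℂ))) * u j' =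
      evx I x 𝔉.e * u j := by
    simp only [h1]
    simp
  simp only [Pi.smul_apply, smul_eq_mul, Finset.sum_apply, vf]
  rw [← h2]
  simp only [add_mul, Finset.sum_add_distrib, Finset.sum_mul]
  rw [Finset.sum_comm (f := fun j' (r : 𝔉.G) => evx I x (𝔉.C j r) *
    eval x.1 (pderiv j' (r : MvPolynomial (Fin m) ℂ)) * u j')]
  have h3 : ∀ r : 𝔉.G, ∑ j', evx I x (𝔉.C j r) *
      eval x.1 (pderiv j' (r : MvPolynomial (Fin m) ℂ)) * u j' = 0 := by
    intro r
    simp only [mul_assoc]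
    rw [← Finset.mul_sum, hu _ (𝔉.hG _ r.2), mul_zero]
  simp only [h3, Finset.sum_const_zero, add_zero]
  rw [Finset.sum_comm]
  refine Finset.sum_congr rfl fun i _ => Finset.sum_congr rfl fun j' _ => ?_
  ring

lemma split1_ev (x : zeros I) (i l : Fin 𝔉.n) :
    ∑ j, evx I x (𝔉.B i j) * vf I (𝔉.Θ l) x j = if i = l then evx I x 𝔉.e else 0 := by
  have := congrArg (evx I x) (𝔉.split1 i l)
  simp only [map_sum, map_mul] at this
  simp only [vf]
  rw [this]; split_ifs <;> simp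

lemma io_inj {p : zeros I} (hp : evx I p 𝔉.e ≠ 0) {v : Fin 𝔉.n → ℂ}
    (hv : DX (𝔉.io p) 0 v = 0) : v = 0 := by
  funext i
  rw [DX_io] at hv
  have h1 : ∑ j, evx I p (𝔉.B i j) * (∑ b, v b • vf I (𝔉.Θ b) p) j = 0 := by
    rw [hv]; simp
  simp only [Finset.sum_apply, Pi.smul_apply, smul_eq_mul, Finset.mul_sum] at h1
  rw [Finset.sum_comm] at h1
  have h2 : ∀ b, ∑ j, evx I p (𝔉.B i j) * (v b * vf I (𝔉.Θ b) p j) =
      v b * if i = b then evx I p 𝔉.e else 0 := by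
    intro b
    rw [← 𝔉.split1_ev p i b, Finset.mul_sum]
    refine Finset.sum_congr rfl fun j _ => ?_
    ring
  simp only [h2] at h1
  simp at h1
  rcases h1 with h1 | h1
  · exact h1
  · exact absurd h1 hp

/-- The matrix of the chart with respect to the frame. -/
noncomputable def Nmat (p : zeros I) (z : Fin 𝔉.n → ℂ) : Matrix (Fin 𝔉.n) (Fin 𝔉.n) ℂ :=
  fun i b => ∑ j, evx I (𝔉.io p z) (𝔉.B i j) * DX (𝔉.io p) z (Pi.single b 1) j

lemma Nmat_zero (p : zeros I) : 𝔉.Nmat p 0 = evx I p 𝔉.e • (1 : Matrix _ _ ℂ) := by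
  ext i b
  simp only [Nmat, io_zero, DX_io]
  have : (∑ b', (Pi.single b 1 : Fin 𝔉.n → ℂ) b' • vf I (𝔉.Θ b') p) = vf I (𝔉.Θ b) p := by
    rw [Finset.sum_eq_single b]
    · simp
    · intro b' _ hb; simp [Pi.single_apply, hb]
    · simp
  rw [this, split1_ev]
  simp [Matrix.one_apply]

lemma Nmat_near {p : zeros I} (hp : evx I p 𝔉.e ≠ 0) :
    ∀ᶠ z in 𝓝 (0 : Fin 𝔉.n → ℂ), (𝔉.Nmat p z).det ≠ 0 ∧ evx I (𝔉.io p z) 𝔉.e ≠ 0 := by
  have hA : ∀ i b, An (fun z => 𝔉.Nmat p z i b) := fun i b =>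
    An.sum fun j _ => ((𝔉.io_An p).evx _).mul ((𝔉.io_An p j).dd _)
  have h1 : ContinuousAt (fun z => (𝔉.Nmat p z).det) 0 :=
    ((An.det hA).at 0).continuousAt
  have h2 : ContinuousAt (fun z => evx I (𝔉.io p z) 𝔉.e) 0 :=
    (((𝔉.io_An p).evx 𝔉.e).at 0).continuousAt
  have h3 : (𝔉.Nmat p 0).det ≠ 0 := by
    rw [Nmat_zero, Matrix.det_smul, Matrix.det_one, mul_one]
    exact pow_ne_zero _ hp
  have h4 : evx I (𝔉.io p 0) 𝔉.e ≠ 0 := by rw [io_zero]; exact hp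
  exact (h1.eventually_ne h3).and (h2.eventually_ne h4)

lemma io_range {p : zeros I} {z : Fin 𝔉.n → ℂ} (h1 : (𝔉.Nmat p z).det ≠ 0)
    (h2 : evx I (𝔉.io p z) 𝔉.e ≠ 0) {u : Fin m → ℂ}
    (hu : ∀ P ∈ I, ∑ j, eval (𝔉.io p z).1 (pderiv j P) * u j = 0) :
    ∃ ξ, DX (𝔉.io p) z ξ = u := by
  let β : Fin 𝔉.n → ℂ := fun i => ∑ j, evx I (𝔉.io p z) (𝔉.B i j) * u j
  refine ⟨((𝔉.Nmat p z)⁻¹).mulVec β, ?_⟩
  set ξ := ((𝔉.Nmat p z)⁻¹).mulVec β with hξ
  have hN : (𝔉.Nmat p z).mulVec ξ = β := by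
    rw [hξ, Matrix.mulVec_mulVec, Matrix.mul_nonsing_inv _ (isUnit_iff_ne_zero.2 h1),
      Matrix.one_mulVec]
  have h3 : evx I (𝔉.io p z) 𝔉.e • DX (𝔉.io p) z ξ = evx I (𝔉.io p z) 𝔉.e • u := by
    rw [𝔉.tangent_decomp _ hu, 𝔉.tangent_decomp _ (fun P hP => DX_tangent (𝔉.io_An p) hP z ξ)]
    refine Finset.sum_congr rfl fun i _ => ?_
    congr 1
    have h4 := congrFun hN i
    simp only [Matrix.mulVec, dotProduct, Nmat] at h4
    change _ = β i
    rw [← h4, DX_sum (𝔉.io_An p)]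
    simp only [Finset.sum_apply, Pi.smul_apply, smul_eq_mul, Finset.mul_sum, Finset.sum_mul]
    rw [Finset.sum_comm]
    refine Finset.sum_congr rfl fun b _ => Finset.sum_congr rfl fun j _ => ?_
    ring
  funext j
  have := congrFun h3 j
  simp only [Pi.smul_apply, smul_eq_mul] at this
  exact mul_left_cancel₀ h2 this

/-- The values of a locally nilpotent derivation are in the range of the derivative of the
composition of an automorphism and a chart. -/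
lemma field_range {p : zeros I} {z : Fin 𝔉.n → ℂ} (h1 : (𝔉.Nmat p z).det ≠ 0)
    (h2 : evx I (𝔉.io p z) 𝔉.e ≠ 0) {φ : zeros I ≃ zeros I} (hφ : Hol φ) (hφ' : Hol φ.symm)
    {Λ : Derivation ℂ (Ax I) (Ax I)} (hΛ : IsLND Λ) :
    ∃ ξ, DX (fun z => φ (𝔉.io p z)) z ξ = vf I Λ (φ (𝔉.io p z)) := by
  obtain ⟨F, hF, hFφ⟩ := hφ
  set y := φ (𝔉.io p z) with hy
  let γ : ℂ → zeros I := fun s => fl hΛ s y
  have hid : An (fun s : ℂ => s) := fun s _ => analyticAt_id
  have hγ : AnX γ := AnX.fl hΛ hid (AnX_const y)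
  have hγ' : DX γ 0 1 = vf I Λ y := by
    have := DX_fl hΛ (τ := fun s : ℂ => s) hid (AnX_const y) (z := 0) rfl 1
    rw [this, DX_const, zero_add]
    have h3 : dd (1 : ℂ) (fun s : ℂ => s) 0 = 1 := by simp [dd]
    rw [h3, one_smul]
  let c : ℂ → zeros I := fun s => φ.symm (γ s)
  have hc : AnX c := hφ'.AnX hγ
  have hc0 : c 0 = 𝔉.io p z := by simp [c, γ, fl_zero, hy]
  have hu := fun P (hP : P ∈ I) => DX_tangent hc hP 0 1
  rw [hc0] at hu
  obtain ⟨ξ, hξ⟩ := 𝔉.io_range h1 h2 hu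
  refine ⟨ξ, ?_⟩
  rw [DX_hol hF hFφ (𝔉.io_An p), hξ, ← hc0, ← DX_hol hF hFφ hc]
  have : (fun s => φ (c s)) = γ := by funext s; simp [c]
  rw [this, hγ']

lemma comp_inj {p : zeros I} (hp : evx I p 𝔉.e ≠ 0) {φ : zeros I ≃ zeros I} (hφ : Hol φ)
    (hφ' : Hol φ.symm) {v : Fin 𝔉.n → ℂ} (hv : DX (fun z => φ (𝔉.io p z)) 0 v = 0) : v = 0 := by
  obtain ⟨G, hG, hGφ⟩ := hφ'
  apply 𝔉.io_inj hp
  have h1 := DX_hol hG hGφ (hφ.AnX (𝔉.io_An p)) 0 v
  rw [hv, map_zero] at h1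
  have h2 : (fun z => φ.symm (φ (𝔉.io p z))) = 𝔉.io p := by funext z; simp
  rw [h2] at h1
  exact h1

end Frame

end Pool.Agent.W732.OS
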