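import Mathlib
import Pool.Agent.W732.Step

set_option autoImplicit false
set_option linter.unusedSectionVars false

open MvPolynomial Set Filter Topology

namespace Pool.Agent.W732.OS

variable {m : ℕ} {I : Ideal (MvPolynomial (Fin m) ℂ)}

/-- The entire function `(exp w - 1) / w`. -/
noncomputable def EF : ℂ → ℂ := dslope Complex.exp 0

lemma EF_diff : Differentiable ℂ EF := by
  rw [← differentiableOn_univ]
  exact (Complex.differentiableOn_dslope univ_mem).2 Complex.differentiable_exp.differentiableOn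

lemma EF_mul (w : ℂ) : w * EF w = Complex.exp w - 1 := by
  have := sub_smul_dslope Complex.exp 0 w
  simpa [EF] using this

/-- The time function of the flow of `f Θ`, with `g = Θ f`. -/
noncomputable def sfun (t : ℂ) (f g : (Fin m → ℂ) → ℂ) : (Fin m → ℂ) → ℂ :=
  fun x => t * f x * EF (t * g x)

lemma An.comp1 {E : Type*} [NormedAddCommGroup E] [NormedSpace ℂ E] {h : ℂ → ℂ}
    (hh : Differentiable ℂ h) {g : E → ℂ} (hg : An g) : An (fun x => h (g x)) :=
  fun x _ => (hh.analyticAt (g x)).comp (hg.at x)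

lemma An.sfun {t : ℂ} {f g : (Fin m → ℂ) → ℂ} (hf : An f) (hg : An g) : An (sfun t f g) :=
  ((An.const t).mul hf).mul (An.comp1 EF_diff ((An.const t).mul hg))

lemma An.wfun {t : ℂ} {g : (Fin m → ℂ) → ℂ} (hg : An g) :
    An (fun x => Complex.exp (t * g x)) :=
  An.comp1 Complex.differentiable_exp ((An.const t).mul hg)

lemma fderiv_wfun {t : ℂ} {g : (Fin m → ℂ) → ℂ} (hg : An g) {x v : Fin m → ℂ}
    (h2 : fderiv ℂ g x v = 0) : fderiv ℂ (fun x => Complex.exp (t * g x)) x v = 0 := by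
  have hg' := (hg.diffAt x).hasFDerivAt
  have h1 := (hg'.const_mul t).cexp
  rw [h1.fderiv]
  simp [h2]

lemma fderiv_sfun {t : ℂ} {f g : (Fin m → ℂ) → ℂ} (hf : An f) (hg : An g) {x v : Fin m → ℂ}
    (h1 : fderiv ℂ f x v = g x) (h2 : fderiv ℂ g x v = 0) :
    fderiv ℂ (sfun t f g) x v = Complex.exp (t * g x) - 1 := by
  have hf' := (hf.diffAt x).hasFDerivAt
  have hg' := (hg.diffAt x).hasFDerivAt
  have h3 := (hf'.const_mul t).mul
    ((EF_diff (t * g x)).hasDerivAt.comp_hasFDerivAt x (hg'.const_mul t))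
  have h4 : HasFDerivAt (sfun t f g) _ x := h3
  rw [h4.fderiv, ← EF_mul]
  simp only [ContinuousLinearMap.add_apply, ContinuousLinearMap.smul_apply, h1, h2, smul_eq_mul,
    Function.comp_apply]
  ring

/-- The standard directions. -/
noncomputable def ee (n : ℕ) : Fin n → (Fin n → ℂ) := fun b => Pi.single b 1

lemma Rat.dd {E : Type*} [NormedAddCommGroup E] [NormedSpace ℂ E] {β : Type*} {e : β → E} {x0 : E}
    {k : Subfield ℂ} {N : ℕ} {h : E → ℂ} (H : Rat e x0 k (N + 1) h) (b : β) :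
    Rat e x0 k N (dd (e b) h) := by
  intro l hl
  have := H (b :: l) (by simpa using hl)
  simpa using this

lemma Rat.mono {E : Type*} [NormedAddCommGroup E] [NormedSpace ℂ E] {β : Type*} {e : β → E} {x0 : E}
    {k : Subfield ℂ} {N N' : ℕ} {h : E → ℂ} (H : Rat e x0 k N h) (hN : N' ≤ N) :
    Rat e x0 k N' h := fun l hl => H l (hl.trans hN)

set_option maxHeartbeats 1000000 in
/-- One step of a word of overshears: the derivatives of order at most `N + 1` after the step are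
in the field generated by those before the step, the coefficients of the derivation and few
further numbers. -/
theorem step (𝔉 : Frame I) {p : zeros I} (hp : evx I p 𝔉.e ≠ 0) {φ : zeros I ≃ zeros I}
    (hφ : Hol φ) (hφ' : Hol φ.symm) {Λ : Derivation ℂ (Ax I) (Ax I)} (hΛ : IsLND Λ)
    (hne : vf I Λ (φ p) ≠ 0) {f g : (Fin m → ℂ) → ℂ} (hf : An f) (hg : An g)
    (hfg : ∀ x : zeros I, fderiv ℂ f x.1 (vf I Λ x) = g x.1)
    (hgg : ∀ x : zeros I, fderiv ℂ g x.1 (vf I Λ x) = 0) (t : ℂ) (N : ℕ) :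
    ∃ S : Finset ℂ, S.card ≤ 2 * (N + 2) ^ (𝔉.n - 1) ∧
      ∀ k : Subfield ℂ, (∀ j, Λ (xx I j) ∈ Ak I k) → (S : Set ℂ) ⊆ k →
        (∀ j, Rat (ee 𝔉.n) 0 k (N + 1) (fun z => (φ (𝔉.io p z)).1 j)) →
        ∀ j, Rat (ee 𝔉.n) 0 k (N + 1)
          (fun z => (fl hΛ (sfun t f g (φ (𝔉.io p z)).1) (φ (𝔉.io p z))).1 j) := by
  classical
  set ψ : (Fin 𝔉.n → ℂ) → zeros I := fun z => φ (𝔉.io p z) with hψdef
  have hψ : AnX ψ := hφ.AnX (𝔉.io_An p)
  have hψ0 : ψ 0 = φ p := by simp [ψ, Frame.io_zero]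
  have hnear := 𝔉.Nmat_near hp
  have hrange : ∀ z, (𝔉.Nmat p z).det ≠ 0 ∧ evx I (𝔉.io p z) 𝔉.e ≠ 0 →
      ∃ ξ, DX ψ z ξ = vf I Λ (ψ z) := fun z hz => 𝔉.field_range hz.1 hz.2 hφ hφ' hΛ
  obtain ⟨ξ0, hξ0⟩ := hrange 0 hnear.self_of_nhds
  rw [hψ0] at hξ0
  have hinj : ∀ v, DX ψ 0 v = 0 → v = 0 := fun v hv => 𝔉.comp_inj hp hφ hφ' hv
  have hξne : ξ0 ≠ 0 := by
    rintro rfl
    apply hne
    rw [← hξ0, ← fderiv_vec hψ, map_zero]
  obtain ⟨c, hc⟩ : ∃ c, ξ0 c ≠ 0 := Function.ne_iff.1 hξne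
  set w : (Fin 𝔉.n → ℂ) → ℂ := fun z => Complex.exp (t * g (ψ z).1) with hwdef
  set σ : (Fin 𝔉.n → ℂ) → ℂ := fun z => sfun t f g (ψ z).1 with hσdef
  have hw : An w := An.compX (An.wfun hg) hψ
  have hσ : An σ := An.compX (An.sfun hf hg) hψ
  obtain ⟨Sw, hSw, hSw'⟩ := slice_card (ee 𝔉.n) 0 c (N + 1) hw
  obtain ⟨Sσ, hSσ, hSσ'⟩ := slice_card (ee 𝔉.n) 0 c (N + 1) hσ
  refine ⟨Sw ∪ Sσ, (Finset.card_union_le _ _).trans (by rw [two_mul]; exact add_le_add hSw hSσ),
    ?_⟩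
  intro k hkΛ hkS hrat
  rw [Finset.coe_union, union_subset_iff] at hkS
  have hD : ∀ j b, DX ψ 0 (Pi.single b 1) j ∈ k := by
    intro j b
    have := hrat j [b] (by simp)
    simpa [DX, ee] using this
  let Dk : Matrix (Fin m) (Fin 𝔉.n) k := fun j b => ⟨DX ψ 0 (Pi.single b 1) j, hD j b⟩
  have hDk : LinearMap.ker (Matrix.toLin' Dk) = ⊥ := by
    rw [LinearMap.ker_eq_bot']
    intro v hv
    have h1 : DX ψ 0 (fun b => (v b : ℂ)) = 0 := by
      rw [DX_sum hψ]
      funext j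
      have h2 := congrArg Subtype.val (congrFun hv j)
      rw [Matrix.toLin'_apply, Matrix.mulVec, dotProduct] at h2
      have h3 : ((∑ i, Dk j i * v i : k) : ℂ) = ∑ i, DX ψ 0 (Pi.single i 1) j * (v i : ℂ) := by
        push_cast
        rfl
      rw [h3] at h2
      simp only [Finset.sum_apply, Pi.smul_apply, smul_eq_mul, Pi.zero_apply]
      rw [← (show (((0 : Fin m → k) j : k) : ℂ) = 0 from rfl), ← h2]
      refine Finset.sum_congr rfl fun i _ => mul_comm _ _
    have h4 := hinj _ h1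
    funext b
    exact Subtype.ext (congrFun h4 b)
  obtain ⟨gk, hgk⟩ := LinearMap.exists_leftInverse_of_injective (Matrix.toLin' Dk) hDk
  let Bk : Matrix (Fin 𝔉.n) (Fin m) k := LinearMap.toMatrix' gk
  have hBD : Bk * Dk = 1 := by
    rw [← LinearMap.toMatrix'_toLin' Dk, ← LinearMap.toMatrix'_comp, hgk, LinearMap.toMatrix'_id]
  have hBD' : ∀ i b, ∑ j, (Bk i j : ℂ) * DX ψ 0 (Pi.single b 1) j = if i = b then 1 else 0 := by
    intro i b
    have h5 := congrArg Subtype.val (congrFun (congrFun hBD i) b)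
    rw [Matrix.mul_apply, Matrix.one_apply] at h5
    have h6 : ((∑ j, Bk i j * Dk j b : k) : ℂ) = ∑ j, (Bk i j : ℂ) * DX ψ 0 (Pi.single b 1) j := by
      push_cast
      rfl
    rw [← h6, h5]
    split_ifs <;> rfl
  let M : (Fin 𝔉.n → ℂ) → Matrix (Fin 𝔉.n) (Fin 𝔉.n) ℂ := fun z i b =>
    ∑ j, (Bk i j : ℂ) * DX ψ z (Pi.single b 1) j
  have hM0 : M 0 = 1 := by
    ext i b
    rw [Matrix.one_apply]
    exact hBD' i b
  let lam : (Fin 𝔉.n → ℂ) → Fin 𝔉.n → ℂ := fun z i => ∑ j, (Bk i j : ℂ) * vf I Λ (ψ z) j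
  let η : Fin 𝔉.n → (Fin 𝔉.n → ℂ) → ℂ := fun b z => ∑ i, (M z).adjugate b i * lam z i
  have hMA : ∀ i b, An (fun z => M z i b) := fun i b =>
    An.sum fun j _ => (An.const _).mul ((hψ j).dd _)
  have hvA : ∀ j, An (fun z => vf I Λ (ψ z) j) := fun j => hψ.evx _
  have hlA : ∀ i, An (fun z => lam z i) := fun i =>
    An.sum fun j _ => (An.const _).mul (hvA j)
  have hηA : ∀ b, An (η b) := fun b => An.sum fun i _ => (An.adj hMA b i).mul (hlA i)
  have hMR : ∀ c' j' i b, RatC (ee 𝔉.n) 0 k c' N j' (fun z => M z i b) := fun c' j' i b =>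
    RatC.sum (fun j _ => (An.const _).mul ((hψ j).dd _)) fun j _ =>
      RatC.mul (An.const _) ((hψ j).dd _) (RatC.const (Bk i j).2) (((hrat j).dd b).ratC c' j')
  have hψR : ∀ c' j' i, RatC (ee 𝔉.n) 0 k c' N j' (fun z => (ψ z).1 i) := fun c' j' i =>
    ((hrat i).mono (Nat.le_succ N)).ratC c' j'
  have hlR : ∀ c' j' i, RatC (ee 𝔉.n) 0 k c' N j' (fun z => lam z i) := fun c' j' i =>
    RatC.sum (fun j _ => (An.const _).mul (hvA j)) fun j _ =>
      RatC.mul (An.const _) (hvA j) (RatC.const (Bk i j).2)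
        (RatC.evx hψ (hψR c' j') (hkΛ j))
  have hηR : ∀ c' j' b, RatC (ee 𝔉.n) 0 k c' N j' (η b) := fun c' j' b =>
    RatC.sum (fun i _ => (An.adj hMA b i).mul (hlA i)) fun i _ =>
      RatC.mul (An.adj hMA b i) (hlA i) (RatC.adj hMA (hMR c' j') b i) (hlR c' j' i)
  have hDη : ∀ z, (𝔉.Nmat p z).det ≠ 0 ∧ evx I (𝔉.io p z) 𝔉.e ≠ 0 →
      DX ψ z (fun b => η b z) = (M z).det • vf I Λ (ψ z) := by
    intro z hz
    obtain ⟨ξ, hξ⟩ := hrange z hz
    have h7 : lam z = (M z).mulVec ξ := by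
      funext i
      simp only [lam, Matrix.mulVec, dotProduct, M]
      rw [← hξ, DX_sum hψ]
      simp only [Finset.sum_apply, Pi.smul_apply, smul_eq_mul, Finset.mul_sum, Finset.sum_mul]
      rw [Finset.sum_comm]
      refine Finset.sum_congr rfl fun b _ => Finset.sum_congr rfl fun j _ => ?_
      ring
    have h8 : (fun b => η b z) = (M z).det • ξ := by
      have : (fun b => η b z) = (M z).adjugate.mulVec (lam z) := rfl
      rw [this, h7, Matrix.mulVec_mulVec, Matrix.adjugate_mul, Matrix.smul_mulVec,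
        Matrix.one_mulVec]
    rw [h8, ← fderiv_vec hψ, map_smul, fderiv_vec hψ, hξ]
  have hloc : ∀ {H : (Fin m → ℂ) → ℂ} (_ : An H) (z : Fin 𝔉.n → ℂ),
      (𝔉.Nmat p z).det ≠ 0 ∧ evx I (𝔉.io p z) 𝔉.e ≠ 0 →
      ∑ b, η b z * dd (ee 𝔉.n b) (fun z => H (ψ z).1) z =
        (M z).det * fderiv ℂ H (ψ z).1 (vf I Λ (ψ z)) := by
    intro H hH z hz
    have h9 := congrArg (fderiv ℂ H (ψ z).1) (hDη z hz)
    rw [map_smul, smul_eq_mul, DX_sum hψ, map_sum] at h9
    rw [← h9]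
    refine Finset.sum_congr rfl fun b _ => ?_
    rw [dd_compX hH hψ, map_smul, smul_eq_mul]
    rfl
  have hwR : ∀ j', RatC (ee 𝔉.n) 0 k c (N + 1) j' w := by
    refine slice (u := fun _ => 0) hηA (An.const 0) hw (fun b j => hηR c j b)
      (fun j => RatC.const k.zero_mem) ?_ ?_ ?_
    · have h10 : (fun x => ∑ b, η b x * dd (ee 𝔉.n b) w x) = fun _ => 0 := by
        refine AnalyticOnNhd.eq_of_eventuallyEq (z₀ := 0)
          (An.sum fun b _ => (hηA b).mul (hw.dd _)) (An.const 0) ?_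
        filter_upwards [hnear] with z hz
        rw [hloc (An.wfun (t := t) hg) z hz, fderiv_wfun hg (hgg _), mul_zero]
      intro x
      exact congrFun h10 x
    · have h11 := hDη 0 hnear.self_of_nhds
      rw [hM0, Matrix.det_one, one_smul, hψ0, ← hξ0] at h11
      have h12 : (fun b => η b 0) - ξ0 = 0 := by
        apply hinj
        rw [← fderiv_vec hψ, map_sub, fderiv_vec hψ, fderiv_vec hψ, h11, sub_self]
      have h13 := congrFun h12 c
      simp only [Pi.sub_apply, Pi.zero_apply] at h13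
      rw [sub_eq_zero.1 h13]
      exact hc
    · intro l hl hcl
      exact hkS.1 (hSw' l hl hcl)
  have hηc : η c 0 ≠ 0 := by
    have h11 := hDη 0 hnear.self_of_nhds
    rw [hM0, Matrix.det_one, one_smul, hψ0, ← hξ0] at h11
    have h12 : (fun b => η b 0) - ξ0 = 0 := by
      apply hinj
      rw [← fderiv_vec hψ, map_sub, fderiv_vec hψ, fderiv_vec hψ, h11, sub_self]
    have h13 := congrFun h12 c
    simp only [Pi.sub_apply, Pi.zero_apply] at h13
    rw [sub_eq_zero.1 h13]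
    exact hc
  have hdet : An (fun z => (M z).det) := An.det hMA
  have hσR : ∀ j', RatC (ee 𝔉.n) 0 k c (N + 1) j' σ := by
    refine slice (u := fun z => (M z).det * (w z - 1)) hηA
      (hdet.mul (hw.sub (An.const 1))) hσ (fun b j => hηR c j b)
      (fun j => RatC.mul hdet (hw.sub (An.const 1)) (RatC.det hMA (hMR c j))
        (RatC.sub hw (An.const 1) ((hwR j).mono (Nat.le_succ N) le_rfl)
          (RatC.const k.one_mem))) ?_ hηc ?_
    · have h10 : (fun x => ∑ b, η b x * dd (ee 𝔉.n b) σ x) =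
          fun z => (M z).det * (w z - 1) := by
        refine AnalyticOnNhd.eq_of_eventuallyEq (z₀ := 0)
          (An.sum fun b _ => (hηA b).mul (hσ.dd _)) (hdet.mul (hw.sub (An.const 1))) ?_
        filter_upwards [hnear] with z hz
        rw [hloc (An.sfun (t := t) hf hg) z hz, fderiv_sfun hf hg (hfg _) (hgg _)]
      intro x
      exact congrFun h10 x
    · intro l hl hcl
      exact hkS.2 (hSσ' l hl hcl)
  intro j
  apply RatC.rat (c := c)
  intro j'
  exact RatC.fl hΛ hkΛ hσ (hσR j') hψ (fun i => (hrat i).ratC c j') j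

end Pool.Agent.W732.OS
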