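import Mathlib
import Pool.Agent.W732.Step2

set_option autoImplicit false
set_option linter.unusedSectionVars false

open MvPolynomial Set Filter Topology

namespace Pool.Agent.W732.OS

variable {m : ℕ} {I : Ideal (MvPolynomial (Fin m) ℂ)}

/-- Explicit form of the flow map of an overshear field. -/
def IsOS (φ : zeros I → zeros I) : Prop :=
  ∃ (Λ : Derivation ℂ (Ax I) (Ax I)) (h : IsLND Λ) (f g : (Fin m → ℂ) → ℂ) (t : ℂ),
    An f ∧ An g ∧ (∀ x : zeros I, fderiv ℂ f x.1 (vf I Λ x) = g x.1) ∧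
    (∀ x : zeros I, fderiv ℂ g x.1 (vf I Λ x) = 0) ∧
    ∀ x : zeros I, φ x = fl h (sfun t f g x.1) x

lemma Hol.continuous {φ : zeros I → zeros I} (hφ : Hol φ) : Continuous φ := by
  obtain ⟨F, hF, hFφ⟩ := hφ
  rw [continuous_induced_rng]
  have : (Subtype.val ∘ φ) = fun x : zeros I => F x.1 := by
    funext x; exact (hFφ x).symm
  rw [this]
  have hc : Continuous F := continuous_iff_continuousAt.2 fun x => (hF x trivial).continuousAt
  exact hc.comp continuous_subtype_val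

lemma AnX.continuous {E : Type*} [NormedAddCommGroup E] [NormedSpace ℂ E] {q : E → zeros I}
    (hq : AnX q) : Continuous q := by
  rw [continuous_induced_rng]
  exact continuous_iff_continuousAt.2 fun x => (hq.vec x trivial).continuousAt

lemma continuous_evx (a : Ax I) : Continuous (fun x : zeros I => evx I x a) := by
  obtain ⟨P, rfl⟩ := Ideal.Quotient.mk_surjective a
  simp only [evx_mk]
  exact (MvPolynomial.continuous_eval P).comp continuous_subtype_val

lemma continuous_vf (Λ : Derivation ℂ (Ax I) (Ax I)) : Continuous (vf I Λ) :=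
  continuous_pi fun _ => continuous_evx _

lemma Hol.comp {φ ψ : zeros I → zeros I} (hφ : Hol φ) (hψ : Hol ψ) : Hol (fun x => φ (ψ x)) := by
  obtain ⟨F, hF, hFφ⟩ := hφ
  obtain ⟨G, hG, hGψ⟩ := hψ
  refine ⟨fun x => F (G x), fun x _ => (hF (G x) trivial).comp (hG x trivial), fun x => ?_⟩
  change F (G x.1) = (φ (ψ x)).1
  rw [hGψ, hFφ]

lemma Hol.id : Hol (fun x : zeros I => x) := ⟨fun x => x, fun _ _ => analyticAt_id, fun _ => rfl⟩

lemma hol_prod {l : List (zeros I ≃ₜ zeros I)} (hl : ∀ ω ∈ l, Hol ω ∧ Hol ω.symm) :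
    Hol (l.prod : zeros I ≃ₜ zeros I) ∧ Hol (l.prod : zeros I ≃ₜ zeros I).symm := by
  induction l with
  | nil => exact ⟨Hol.id, Hol.id⟩
  | cons ω l ih =>
    obtain ⟨h1, h2⟩ := ih (fun ω hω => hl ω (List.mem_cons_of_mem _ hω))
    obtain ⟨h3, h4⟩ := hl ω (List.mem_cons_self)
    rw [List.prod_cons]
    exact ⟨h3.comp h1, h2.comp h4⟩

lemma io_rat (𝔉 : Frame I) {p : zeros I} {k : Subfield ℂ} (hp : ∀ j, p.1 j ∈ k)
    (hΘ : ∀ b j, 𝔉.Θ b (xx I j) ∈ Ak I k) (N : ℕ) (j : Fin m) :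
    Rat (ee 𝔉.n) 0 k N (fun z => (𝔉.io p z).1 j) := by
  intro l hl
  by_cases hn : Nonempty (Fin 𝔉.n)
  · obtain ⟨c⟩ := hn
    have hcoord : ∀ b, RatC (ee 𝔉.n) 0 k c N (l.count c) (fun z : Fin 𝔉.n → ℂ => z b) := by
      intro b l' _ _
      cases l' with
      | nil => simp
      | cons b' l' =>
        rw [DL_cons]
        have h1 : dd (ee 𝔉.n b') (fun z : Fin 𝔉.n → ℂ => z b) = fun _ => (ee 𝔉.n b') b := by
          funext z; exact Frame.dd_proj _ _ _ _
        rw [h1]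
        have h2 : (ee 𝔉.n b') b ∈ k := by
          simp only [ee, Pi.single_apply]
          split_ifs
          · exact k.one_mem
          · exact k.zero_mem
        have := RatC.const (e := ee 𝔉.n) (x0 := (0 : Fin 𝔉.n → ℂ)) (c := c) (N := l'.length)
          (j := l'.count c) h2
        exact this l' le_rfl le_rfl
    exact RatC.Fold 𝔉.lnd hΘ (fun b => Frame.an_proj _ b) hcoord (AnX_const p)
      (fun i => RatC.const (hp i)) _ j l hl le_rfl
  · have hl0 : l = [] := by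
      cases l with
      | nil => rfl
      | cons b l => exact absurd ⟨b⟩ hn
    subst hl0
    simpa [Frame.io_zero] using hp j

/-- Derivatives of words of overshears are in fields generated by few numbers. -/
theorem word (𝔉 : Frame I) (l : List (zeros I ≃ₜ zeros I))
    (hl : ∀ ω ∈ l, IsOS (ω : zeros I → zeros I) ∧ Hol ω ∧ Hol ω.symm) :
    ∀ U : Set (zeros I), IsOpen U → U.Nonempty → (∀ x ∈ U, evx I x 𝔉.e ≠ 0) →
    ∃ U' ⊆ U, IsOpen U' ∧ U'.Nonempty ∧ ∃ Sc : Finset ℂ, ∀ p ∈ U', ∀ N : ℕ,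
      ∃ S : Finset ℂ, S.card ≤ 2 * l.length * (N + 2) ^ (𝔉.n - 1) ∧
      ∀ k : Subfield ℂ, (Sc : Set ℂ) ⊆ k → (S : Set ℂ) ⊆ k → (∀ j, p.1 j ∈ k) →
        (∀ b j, 𝔉.Θ b (xx I j) ∈ Ak I k) →
        ∀ j, Rat (ee 𝔉.n) 0 k (N + 1)
          (fun z => ((l.prod : zeros I ≃ₜ zeros I) (𝔉.io p z)).1 j) := by
  classical
  induction l with
  | nil =>
    intro U hU hne _
    refine ⟨U, Subset.rfl, hU, hne, ∅, fun p _ N => ⟨∅, by simp, ?_⟩⟩
    intro k _ _ hp hΘ j
    exact io_rat 𝔉 hp hΘ (N + 1) j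
  | cons ω l ih =>
    intro U hU hne hUe
    obtain ⟨U1, hU1U, hU1, hU1ne, Sc, hSc⟩ :=
      ih (fun ω hω => hl ω (List.mem_cons_of_mem _ hω)) U hU hne hUe
    have hholl := hol_prod (l := l) (fun ω hω => (hl ω (List.mem_cons_of_mem _ hω)).2)
    obtain ⟨⟨Λ, hΛ, f, g, t, hf, hg, hfg, hgg, hω⟩, hωh, hωh'⟩ := hl ω (List.mem_cons_self)
    set φ' : zeros I ≃ₜ zeros I := l.prod with hφ'
    have hprod : ∀ x, ((ω :: l).prod : zeros I ≃ₜ zeros I) x = ω (φ' x) := by
      intro x; rw [List.prod_cons]; rfl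
    let V : Set (zeros I) := {x ∈ U1 | vf I Λ (φ' x) ≠ 0}
    by_cases hV : V.Nonempty
    · have hVo : IsOpen V := by
        apply hU1.inter
        have : Continuous (fun x => vf I Λ (φ' x)) := (continuous_vf Λ).comp φ'.continuous
        exact isOpen_ne_fun this continuous_const
      obtain ⟨SΛ, hSΛ⟩ := exists_coeffs_der I Λ
      refine ⟨V, fun x hx => hU1U hx.1, hVo, hV, Sc ∪ SΛ, fun p hp N => ?_⟩
      obtain ⟨S1, hS1, hS1'⟩ := hSc p hp.1 N
      obtain ⟨S2, hS2, hS2'⟩ := step 𝔉 (hUe p (hU1U hp.1)) (φ := φ'.toEquiv) hholl.1 hholl.2 hΛ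
        hp.2 hf hg hfg hgg t N
      refine ⟨S1 ∪ S2, ?_, ?_⟩
      · refine (Finset.card_union_le _ _).trans ((add_le_add hS1 hS2).trans ?_)
        rw [List.length_cons]
        apply le_of_eq
        ring
      · intro k hkc hkS hkp hkΘ j
        rw [Finset.coe_union, union_subset_iff] at hkc hkS
        have h1 := hS1' k hkc.1 hkS.1 hkp hkΘ
        have h2 := hS2' k (hSΛ k hkc.2) hkS.2 h1 j
        have h3 : (fun z => (((ω :: l).prod : zeros I ≃ₜ zeros I) (𝔉.io p z)).1 j) =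
          fun z => (fl hΛ (sfun t f g (φ'.toEquiv (𝔉.io p z)).1) (φ'.toEquiv (𝔉.io p z))).1 j := by
          funext z
          rw [hprod, hω]
          rfl
        rw [h3]
        exact h2
    · refine ⟨U1, hU1U, hU1, hU1ne, Sc, fun p hp N => ?_⟩
      obtain ⟨S1, hS1, hS1'⟩ := hSc p hp N
      refine ⟨S1, ?_, ?_⟩
      · refine hS1.trans ?_
        rw [List.length_cons]
        gcongr
        omega
      · intro k hkc hkS hkp hkΘ j
        have h1 := hS1' k hkc hkS hkp hkΘ j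
        have hfix : ∀ x ∈ U1, ω (φ' x) = φ' x := by
          intro x hx
          rw [hω]
          apply fl_fixed
          by_contra hcon
          exact hV ⟨x, hx, hcon⟩
        have hnear : ∀ᶠ z in 𝓝 (0 : Fin 𝔉.n → ℂ), 𝔉.io p z ∈ U1 := by
          have hc := (𝔉.io_An p).continuous.tendsto 0
          rw [𝔉.io_zero] at hc
          exact hc.eventually (hU1.mem_nhds hp)
        have heq : (fun z => (((ω :: l).prod : zeros I ≃ₜ zeros I) (𝔉.io p z)).1 j) =ᶠ[𝓝 0]
            fun z => (φ' (𝔉.io p z)).1 j := by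
          filter_upwards [hnear] with z hz
          rw [hprod, hfix _ hz]
        intro l' hl'
        rw [(DL_congr (ee 𝔉.n) l' heq).self_of_nhds]
        exact h1 l' hl'

end Pool.Agent.W732.OS
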