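import Mathlib
import Pool.Agent.W732.Word

set_option autoImplicit false
set_option linter.unusedSectionVars false

open MvPolynomial Set Filter Topology

namespace Pool.Agent.W732.OS

variable {m : ℕ} {I : Ideal (MvPolynomial (Fin m) ℂ)}

lemma hasDerivAt_h (c s : ℂ) :
    HasDerivAt (fun s : ℂ => s * EF (s * c)) (Complex.exp (s * c)) s := by
  by_cases hc : c = 0
  · subst hc
    have h0 : EF 0 = 1 := by simp [EF, dslope_same]
    simp only [mul_zero, h0, mul_one, Complex.exp_zero]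
    exact hasDerivAt_id s
  · have h1 : (fun s : ℂ => s * EF (s * c)) = fun s => (Complex.exp (s * c) - 1) * c⁻¹ := by
      funext s
      rw [← EF_mul]
      field_simp
    rw [h1]
    have h2 : HasDerivAt (fun s : ℂ => (Complex.exp (s * c) - 1) * c⁻¹)
        ((Complex.exp (s * c) * (1 * c)) * c⁻¹) s :=
      ((((hasDerivAt_id s).mul_const c).cexp).sub_const 1).mul_const c⁻¹
    convert h2 using 1
    field_simp

section

variable {Λ : Derivation ℂ (Ax I) (Ax I)} (h : IsLND Λ)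

lemma hasDerivAt_comp_fl {H : (Fin m → ℂ) → ℂ} (hH : An H) (x : zeros I) (s : ℂ) :
    HasDerivAt (fun s => H (fl h s x).1) (fderiv ℂ H (fl h s x).1 (vf I Λ (fl h s x))) s :=
  ((hH.diffAt _).hasFDerivAt).comp_hasDerivAt s (hasDerivAt_fl h x s)

lemma g_const {g : (Fin m → ℂ) → ℂ} (hg : An g)
    (hgg : ∀ x : zeros I, fderiv ℂ g x.1 (vf I Λ x) = 0) (x : zeros I) (s : ℂ) :
    g (fl h s x).1 = g x.1 := by
  have h1 : ∀ s, HasDerivAt (fun s => g (fl h s x).1) 0 s := by
    intro s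
    have := hasDerivAt_comp_fl h hg x s
    rwa [hgg] at this
  have h2 := is_const_of_deriv_eq_zero (fun s => (h1 s).differentiableAt) (fun s => (h1 s).deriv)
    s 0
  simpa [fl_zero] using h2

lemma f_affine {f g : (Fin m → ℂ) → ℂ} (hf : An f) (hg : An g)
    (hfg : ∀ x : zeros I, fderiv ℂ f x.1 (vf I Λ x) = g x.1)
    (hgg : ∀ x : zeros I, fderiv ℂ g x.1 (vf I Λ x) = 0) (x : zeros I) (s : ℂ) :
    f (fl h s x).1 = f x.1 + s * g x.1 := by
  have h1 : ∀ s, HasDerivAt (fun s => f (fl h s x).1 - s * g x.1) 0 s := by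
    intro s
    have h2 := hasDerivAt_comp_fl h hf x s
    rw [hfg, g_const h hg hgg] at h2
    exact (h2.sub ((hasDerivAt_id s).mul_const (g x.1))).congr_deriv (by rw [one_mul, sub_self])
  have h2 := is_const_of_deriv_eq_zero (fun s => (h1 s).differentiableAt) (fun s => (h1 s).deriv)
    s 0
  simp only [fl_zero, zero_mul, sub_zero] at h2
  rw [← h2]; ring

/-- The flow of an overshear field. -/
lemma hasDerivAt_os {f g : (Fin m → ℂ) → ℂ} (hf : An f) (hg : An g)
    (hfg : ∀ x : zeros I, fderiv ℂ f x.1 (vf I Λ x) = g x.1)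
    (hgg : ∀ x : zeros I, fderiv ℂ g x.1 (vf I Λ x) = 0) (x : zeros I) (s : ℂ) :
    HasDerivAt (fun s => (fl h (sfun s f g x.1) x).1)
      (f (fl h (sfun s f g x.1) x).1 • vf I Λ (fl h (sfun s f g x.1) x)) s := by
  have h1 : HasDerivAt (fun s => sfun s f g x.1) (f (fl h (sfun s f g x.1) x).1) s := by
    have h2 := (hasDerivAt_h (g x.1) s).mul_const (f x.1)
    have h3 : (fun s => sfun s f g x.1) = fun s => s * EF (s * g x.1) * f x.1 := by
      funext s; simp only [sfun]; ring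
    rw [h3]
    refine h2.congr_deriv ?_
    rw [f_affine h hf hg hfg hgg]
    have h4 := EF_mul (s * g x.1)
    have h5 : Complex.exp (s * g x.1) = s * g x.1 * EF (s * g x.1) + 1 := by rw [h4]; ring
    rw [h5]
    simp only [sfun]
    ring
  exact (hasDerivAt_fl h x (sfun s f g x.1)).scomp s h1

lemma os_inv {f g : (Fin m → ℂ) → ℂ} (hf : An f) (hg : An g)
    (hfg : ∀ x : zeros I, fderiv ℂ f x.1 (vf I Λ x) = g x.1)
    (hgg : ∀ x : zeros I, fderiv ℂ g x.1 (vf I Λ x) = 0) (t : ℂ) (x : zeros I) :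
    fl h (sfun (-t) f g (fl h (sfun t f g x.1) x).1) (fl h (sfun t f g x.1) x) = x := by
  rw [fl_add]
  have h1 : sfun (-t) f g (fl h (sfun t f g x.1) x).1 + sfun t f g x.1 = 0 := by
    have h2 : sfun (-t) f g (fl h (sfun t f g x.1) x).1 =
        -t * (f x.1 * Complex.exp (t * g x.1)) * EF (-t * g x.1) := by
      simp only [sfun]
      rw [f_affine h hf hg hfg hgg, g_const h hg hgg]
      congr 2
      have h5 : Complex.exp (t * g x.1) = t * g x.1 * EF (t * g x.1) + 1 := by rw [EF_mul]; ring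
      rw [h5]; ring
    rw [h2]
    simp only [sfun]
    have h6 : Complex.exp (t * g x.1) * EF (-t * g x.1) = EF (t * g x.1) := by
      by_cases hz : t * g x.1 = 0
      · have : -t * g x.1 = 0 := by rw [neg_mul, hz, neg_zero]
        rw [this, hz]; simp
      · apply mul_left_cancel₀ hz
        have h7 := EF_mul (-t * g x.1)
        have h8 : Complex.exp (t * g x.1) * Complex.exp (-t * g x.1) = 1 := by
          rw [← Complex.exp_add]; simp
        have h9 := EF_mul (t * g x.1)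
        rw [h9]
        have h10 : t * g x.1 * (Complex.exp (t * g x.1) * EF (-t * g x.1)) =
          - (Complex.exp (t * g x.1) * (-t * g x.1 * EF (-t * g x.1))) := by ring
        rw [h10, h7, mul_sub, h8]; ring
    linear_combination (-t * f x.1) * h6
  rw [h1, fl_zero]

end

lemma IsOS.symm {φ : zeros I ≃ₜ zeros I} (hφ : IsOS (φ : zeros I → zeros I)) :
    IsOS (φ.symm : zeros I → zeros I) := by
  obtain ⟨Λ, h, f, g, t, hf, hg, hfg, hgg, hφ⟩ := hφ
  refine ⟨Λ, h, f, g, -t, hf, hg, hfg, hgg, fun x => ?_⟩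
  have h1 := os_inv h hf hg hfg hgg t (φ.symm x)
  rw [← hφ, φ.apply_symm_apply] at h1
  exact h1.symm

/-- Uniqueness of integral curves of entire vector fields. -/
lemma ode_unique {v : (Fin m → ℂ) → (Fin m → ℂ)} (hv : AnalyticOnNhd ℂ v univ)
    {γ δ : ℂ → (Fin m → ℂ)} (hγ : ∀ s, HasDerivAt γ (v (γ s)) s)
    (hδ : ∀ s, HasDerivAt δ (v (δ s)) s) (h0 : γ 0 = δ 0) (t : ℂ) : γ t = δ t := by
  have hreal : ∀ {c : ℂ → (Fin m → ℂ)}, (∀ s, HasDerivAt c (v (c s)) s) → ∀ τ : ℝ,
      HasDerivAt (fun τ : ℝ => c ((τ : ℂ) * t)) (t • v (c ((τ : ℂ) * t))) τ := by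
    intro c hc τ
    have h1 : HasDerivAt (fun τ : ℝ => (τ : ℂ) * t) t τ := by
      have := (Complex.ofRealCLM.hasDerivAt (x := τ)).mul_const t
      simpa using this
    exact HasDerivAt.scomp τ (hc ((τ : ℂ) * t)) h1
  have hγr := hreal hγ
  have hδr := hreal hδ
  have hγc : Continuous (fun τ : ℝ => γ ((τ : ℂ) * t)) :=
    continuous_iff_continuousAt.2 fun τ => (hγr τ).continuousAt
  have hδc : Continuous (fun τ : ℝ => δ ((τ : ℂ) * t)) :=
    continuous_iff_continuousAt.2 fun τ => (hδr τ).continuousAt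
  obtain ⟨R1, hR1⟩ := (isCompact_Icc.image hγc).isBounded.subset_closedBall (0 : Fin m → ℂ)
    (s := (fun τ : ℝ => γ ((τ : ℂ) * t)) '' Icc 0 1)
  obtain ⟨R2, hR2⟩ := (isCompact_Icc.image hδc).isBounded.subset_closedBall (0 : Fin m → ℂ)
    (s := (fun τ : ℝ => δ ((τ : ℂ) * t)) '' Icc 0 1)
  set R := max R1 R2
  have hw : AnalyticOnNhd ℂ (fun y => t • v y) univ := fun y hy =>
    (analyticAt_const (v := t)).smul (hv y hy)
  have hwc : Continuous (fun y => ‖fderiv ℂ (fun y => t • v y) y‖₊) := by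
    apply continuous_nnnorm.comp
    exact continuous_iff_continuousAt.2 fun y => (hw y trivial).fderiv.continuousAt
  obtain ⟨K, hK⟩ := ((isCompact_closedBall (0 : Fin m → ℂ) R).image hwc).bddAbove
  have hLip : LipschitzOnWith K (fun y => t • v y) (Metric.closedBall (0 : Fin m → ℂ) R) := by
    apply Convex.lipschitzOnWith_of_nnnorm_fderiv_le (𝕜 := ℂ)
    · intro y _; exact (hw y trivial).differentiableAt
    · intro y hy
      exact hK ⟨y, hy, rfl⟩
    · exact convex_closedBall _ _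
  have hE := ODE_solution_unique_of_mem_Icc_right (v := fun _ y => t • v y)
    (s := fun _ => Metric.closedBall (0 : Fin m → ℂ) R) (K := K) (a := 0) (b := 1)
    (f := fun τ : ℝ => γ ((τ : ℂ) * t)) (g := fun τ : ℝ => δ ((τ : ℂ) * t))
    (fun _ _ => hLip) hγc.continuousOn (fun τ _ => (hγr τ).hasDerivWithinAt)
    (fun τ hτ => Metric.closedBall_subset_closedBall (le_max_left _ _)
      (hR1 ⟨τ, Ico_subset_Icc_self hτ, rfl⟩))
    hδc.continuousOn (fun τ _ => (hδr τ).hasDerivWithinAt)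
    (fun τ hτ => Metric.closedBall_subset_closedBall (le_max_right _ _)
      (hR2 ⟨τ, Ico_subset_Icc_self hτ, rfl⟩))
    (by simpa using h0)
  have := hE (right_mem_Icc.2 zero_le_one)
  simpa using this

/-- The field as an entire vector field on the affine space. -/
lemma exists_ext (Λ : Derivation ℂ (Ax I) (Ax I)) {f : (Fin m → ℂ) → ℂ} (hf : An f) :
    ∃ v : (Fin m → ℂ) → (Fin m → ℂ), AnalyticOnNhd ℂ v univ ∧
      ∀ x : zeros I, v x.1 = f x.1 • vf I Λ x := by
  choose P hP using fun j => Ideal.Quotient.mk_surjective (Λ (xx I j))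
  refine ⟨fun x j => f x * eval x (P j), ?_, ?_⟩
  · apply AnalyticOnNhd.pi
    intro j
    have h1 : An (fun x : Fin m → ℂ => eval x (P j)) :=
      An.eval (ψ := fun x => x) (fun j => Frame.an_proj m j) (P j)
    exact hf.mul h1
  · intro x
    funext j
    simp only [Pi.smul_apply, smul_eq_mul, vf]
    rw [← hP j, evx_mk]

/-- Time maps of overshear fields have the explicit form. -/
lemma isOS_of_curve {φ : zeros I → zeros I} {Λ : Derivation ℂ (Ax I) (Ax I)} (h : IsLND Λ)
    {f g : (Fin m → ℂ) → ℂ} {t : ℂ} (hf : An f) (hg : An g)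
    (hfg : ∀ x : zeros I, fderiv ℂ f x.1 (vf I Λ x) = g x.1)
    (hgg : ∀ x : zeros I, fderiv ℂ g x.1 (vf I Λ x) = 0)
    (hφ : ∀ x : zeros I, ∃ γ : ℂ → zeros I, γ 0 = x ∧ γ t = φ x ∧
      ∀ s, HasDerivAt (fun s => (γ s).1) (f (γ s).1 • vf I Λ (γ s)) s) :
    IsOS φ := by
  refine ⟨Λ, h, f, g, t, hf, hg, hfg, hgg, fun x => ?_⟩
  obtain ⟨γ, h0, ht, hγ⟩ := hφ x
  obtain ⟨v, hv, hvx⟩ := exists_ext Λ hf
  rw [← ht]
  apply Subtype.ext
  refine ode_unique hv (γ := fun s => (γ s).1) (δ := fun s => (fl h (sfun s f g x.1) x).1)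
    (fun s => ?_) (fun s => ?_) ?_ t
  · rw [hvx]; exact hγ s
  · rw [hvx]; exact hasDerivAt_os h hf hg hfg hgg x s
  · simp [h0, sfun, fl_zero]

end Pool.Agent.W732.OS
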