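import Mathlib
import Pool.Agent.W732.Ode

set_option autoImplicit false
set_option linter.unusedSectionVars false

open Set Filter Topology

namespace Pool.Agent.W732.OS

section van

variable {E : Type*} [NormedAddCommGroup E] [NormedSpace ℂ E] {β : Type*}

/-- All derivatives at `x0` of order less than `N` vanish. -/
def Zv (e : β → E) (x0 : E) (N : ℕ) (h : E → ℂ) : Prop :=
  ∀ l : List β, l.length < N → DL e l h x0 = 0

variable {e : β → E} {x0 : E}

lemma Zv.mono {N N' : ℕ} {h : E → ℂ} (H : Zv e x0 N h) (hN : N' ≤ N) : Zv e x0 N' h :=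
  fun l hl => H l (lt_of_lt_of_le hl hN)

lemma Zv.dd {N : ℕ} {h : E → ℂ} (H : Zv e x0 (N + 1) h) (b : β) : Zv e x0 N (dd (e b) h) := by
  intro l hl
  have := H (b :: l) (by simpa using hl)
  simpa using this

lemma Zv.of_dd {N : ℕ} {h : E → ℂ} (h0 : h x0 = 0) (H : ∀ b, Zv e x0 N (OS.dd (e b) h)) :
    Zv e x0 (N + 1) h := by
  intro l hl
  cases l with
  | nil => simpa using h0
  | cons b l => simpa using H b l (by simpa using hl)

lemma Zv.add {N : ℕ} {f g : E → ℂ} (hf : An f) (hg : An g) (Hf : Zv e x0 N f)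
    (Hg : Zv e x0 N g) : Zv e x0 N (fun x => f x + g x) := by
  induction N generalizing f g with
  | zero => intro l hl; exact absurd hl (Nat.not_lt_zero _)
  | succ N ih =>
    have h1 := Hf [] (by simp)
    have h2 := Hg [] (by simp)
    simp only [DL_nil] at h1 h2
    refine Zv.of_dd (h := fun x => f x + g x) (by rw [h1, h2, add_zero]) fun b => ?_
    rw [dd_add hf hg]
    exact ih (hf.dd _) (hg.dd _) (Hf.dd b) (Hg.dd b)

lemma Zv.mul {N : ℕ} {f g : E → ℂ} (hf : An f) (hg : An g) (Hg : Zv e x0 N g) :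
    Zv e x0 N (fun x => f x * g x) := by
  induction N generalizing f g with
  | zero => intro l hl; exact absurd hl (Nat.not_lt_zero _)
  | succ N ih =>
    have h2 := Hg [] (by simp)
    simp only [DL_nil] at h2
    refine Zv.of_dd (h := fun x => f x * g x) (by rw [h2, mul_zero]) fun b => ?_
    rw [dd_mul hf hg]
    exact Zv.add ((hf.dd _).mul hg) (hf.mul (hg.dd _))
      (ih (hf.dd _) hg (Hg.mono (Nat.le_succ N))) (ih hf (hg.dd _) (Hg.dd b))

lemma Zv.sum {N : ℕ} {ι : Type*} {s : Finset ι} {f : ι → E → ℂ} (hf : ∀ i ∈ s, An (f i))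
    (Hf : ∀ i ∈ s, Zv e x0 N (f i)) : Zv e x0 N (fun x => ∑ i ∈ s, f i x) := by
  classical
  induction s using Finset.induction_on with
  | empty =>
    have : Zv e x0 N (fun _ => (0 : ℂ)) := by
      clear hf Hf
      induction N with
      | zero => intro l hl; exact absurd hl (Nat.not_lt_zero _)
      | succ N ih =>
        refine Zv.of_dd rfl fun b => ?_
        rw [dd_const]; exact ih
    simpa using this
  | insert a s ha ih =>
    simp only [Finset.sum_insert ha]
    exact Zv.add (hf a (by simp)) (An.sum (fun i hi => hf i (by simp [hi])))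
      (Hf a (by simp)) (ih (fun i hi => hf i (by simp [hi])) (fun i hi => Hf i (by simp [hi])))

end van

/-- Bound near the origin of functions with vanishing derivatives. -/
lemma Zv.bound {n N : ℕ} {h : (Fin n → ℂ) → ℂ} (hh : An h) (H : Zv (ee n) 0 N h) :
    ∃ C : ℝ, ∀ z : Fin n → ℂ, ‖z‖ ≤ 1 → ‖h z‖ ≤ C * ‖z‖ ^ N := by
  induction N generalizing h with
  | zero =>
    have hc : Continuous h := continuous_iff_continuousAt.2 fun z => (hh.at z).continuousAt
    obtain ⟨C, hC⟩ := (isCompact_closedBall (0 : Fin n → ℂ) 1).exists_bound_of_continuousOn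
      hc.continuousOn
    refine ⟨C, fun z hz => ?_⟩
    rw [pow_zero, mul_one]
    exact hC z (by simpa using hz)
  | succ N ih =>
    choose C hC using fun b => ih (hh.dd (ee n b)) (H.dd b)
    have h0 : h 0 = 0 := by simpa using H [] (by simp)
    refine ⟨∑ b, |C b|, fun z hz => ?_⟩
    have hfd : ∀ y ∈ Metric.closedBall (0 : Fin n → ℂ) ‖z‖,
        ‖fderiv ℂ h y‖ ≤ (∑ b, |C b|) * ‖z‖ ^ N := by
      intro y hy
      have hy' : ‖y‖ ≤ ‖z‖ := by simpa using hy
      apply ContinuousLinearMap.opNorm_le_bound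
      · positivity
      · intro v
        have hv : v = ∑ b, v b • ee n b := by
          funext i; simp [ee, Finset.sum_apply, Pi.single_apply]
        conv_lhs => rw [hv]
        rw [map_sum]
        refine (norm_sum_le _ _).trans ?_
        rw [Finset.sum_mul, Finset.sum_mul]
        refine Finset.sum_le_sum fun b _ => ?_
        rw [map_smul, norm_smul]
        have h1 := hC b y (hy'.trans hz)
        have h2 : ‖fderiv ℂ h y (ee n b)‖ ≤ |C b| * ‖z‖ ^ N :=
          h1.trans (mul_le_mul (le_abs_self _) (pow_le_pow_left₀ (norm_nonneg _) hy' N)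
            (by positivity) (abs_nonneg _))
        calc ‖v b‖ * ‖fderiv ℂ h y (ee n b)‖ ≤ ‖v‖ * (|C b| * ‖z‖ ^ N) :=
              mul_le_mul (norm_le_pi_norm v b) h2 (norm_nonneg _) (norm_nonneg _)
          _ = |C b| * ‖z‖ ^ N * ‖v‖ := by ring
    have h3 := Convex.norm_image_sub_le_of_norm_fderiv_le (𝕜 := ℂ) (f := h)
      (fun y _ => hh.diffAt y) hfd (convex_closedBall _ _)
      (x := 0) (y := z) (by simp) (by simp)
    rw [h0, sub_zero, sub_zero] at h3
    rw [pow_succ, ← mul_assoc]
    exact h3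

/-- Independence of the monomials in local coordinates. -/
lemma poly_indep {n M : ℕ} {y : Fin n → (Fin n → ℂ) → ℂ} (hy : ∀ i, An (y i))
    (hy0 : ∀ i, y i 0 = 0) (hdet : (Matrix.of fun i b => dd (ee n b) (y i) 0).det ≠ 0)
    {h h' : (Fin n → ℂ) → ℂ} (hh : An h) (hh' : An h') (h0 : h 0 ≠ 0) (i0 : Fin n)
    (c : (Fin n → Fin (M + 1)) → ℂ)
    (H : Zv (ee n) 0 (n * M + 1) (fun z => ∑ β, c β * ((∏ i, y i z ^ (β i : ℕ)) *
      ((((β i0 : ℕ) : ℂ) + 1) * h z + y i0 z * h' z)))) : c = 0 := by
  classical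
  by_contra hc
  obtain ⟨β1, hβ1⟩ := Function.ne_iff.1 hc
  simp only [Pi.zero_apply] at hβ1
  let deg : (Fin n → Fin (M + 1)) → ℕ := fun β => ∑ i, (β i : ℕ)
  obtain ⟨β0, hβ0, hmin⟩ := Finset.exists_min_image
    (Finset.univ.filter fun β : Fin n → Fin (M + 1) => c β ≠ 0) deg ⟨β1, by simp [hβ1]⟩
  have hβ0c : c β0 ≠ 0 := (Finset.mem_filter.1 hβ0).2
  have hmin' : ∀ β, c β ≠ 0 → deg β0 ≤ deg β := fun β hβ => hmin β (by simp [hβ])
  have hdeg : deg β0 ≤ n * M := by
    have : deg β0 ≤ ∑ _i : Fin n, M := Finset.sum_le_sum fun i _ => by omega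
    simpa using this
  set S : (Fin n → ℂ) → ℂ := fun z => ∑ β, c β * ((∏ i, y i z ^ (β i : ℕ)) *
      ((((β i0 : ℕ) : ℂ) + 1) * h z + y i0 z * h' z)) with hS
  have hSA : An S := An.sum fun β _ => (An.const _).mul ((An.prod fun i _ => (hy i).pow _).mul
    (((An.const _).mul hh).add ((hy i0).mul hh')))
  obtain ⟨C, hC⟩ := Zv.bound hSA H
  have key : ∀ u : Fin n → ℂ, ∑ β ∈ Finset.univ.filter (fun β => deg β = deg β0),
      c β * ((∏ i, (∑ b, u b * dd (ee n b) (y i) 0) ^ (β i : ℕ)) *
        ((((β i0 : ℕ) : ℂ) + 1) * h 0)) = 0 := by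
    intro u
    have hline : Tendsto (fun lam : ℂ => lam • u) (𝓝[≠] 0) (𝓝 0) := by
      have : Tendsto (fun lam : ℂ => lam • u) (𝓝 0) (𝓝 ((0 : ℂ) • u)) :=
        (continuous_id.smul continuous_const).tendsto 0
      rw [zero_smul] at this
      exact this.mono_left nhdsWithin_le_nhds
    have hlim0 : Tendsto (fun lam : ℂ => S (lam • u) / lam ^ (deg β0)) (𝓝[≠] 0) (𝓝 0) := by
      have hb : Tendsto (fun lam : ℂ => C * ‖u‖ ^ (n * M + 1) * ‖lam‖ ^ (n * M + 1 - deg β0))
          (𝓝[≠] 0) (𝓝 0) := by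
        have h1 : Tendsto (fun lam : ℂ => C * ‖u‖ ^ (n * M + 1) * ‖lam‖ ^ (n * M + 1 - deg β0))
          (𝓝 0) (𝓝 (C * ‖u‖ ^ (n * M + 1) * ‖(0 : ℂ)‖ ^ (n * M + 1 - deg β0))) := by
          apply Continuous.tendsto
          fun_prop
        rw [norm_zero, zero_pow (by omega), mul_zero] at h1
        exact h1.mono_left nhdsWithin_le_nhds
      refine squeeze_zero_norm' ?_ hb
      have hsmall : ∀ᶠ lam : ℂ in 𝓝[≠] 0, ‖lam • u‖ ≤ 1 := by
        have := hline.norm
        rw [norm_zero] at this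
        exact this.eventually_le_const zero_lt_one
      filter_upwards [hsmall, self_mem_nhdsWithin] with lam h1 h2
      have h2' : lam ≠ 0 := h2
      have hpos : 0 < ‖lam‖ := norm_pos_iff.2 h2'
      rw [norm_div, norm_pow, div_le_iff₀ (by positivity)]
      refine (hC _ h1).trans (le_of_eq ?_)
      rw [norm_smul, mul_pow]
      have : ‖lam‖ ^ (n * M + 1) = ‖lam‖ ^ (n * M + 1 - deg β0) * ‖lam‖ ^ deg β0 := by
        rw [← pow_add]; congr 1; omega
      rw [this]; ring
    have hyl : ∀ i, Tendsto (fun lam : ℂ => y i (lam • u) / lam) (𝓝[≠] 0)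
        (𝓝 (∑ b, u b * dd (ee n b) (y i) 0)) := by
      intro i
      have h1 : HasDerivAt (fun lam : ℂ => lam • u) u 0 := by
        simpa using (hasDerivAt_id (0 : ℂ)).smul_const u
      have h2 : HasFDerivAt (y i) (fderiv ℂ (y i) 0) ((0 : ℂ) • u) := by
        rw [zero_smul]; exact ((hy i).diffAt 0).hasFDerivAt
      have h3 := h2.comp_hasDerivAt (0 : ℂ) h1
      rw [hasDerivAt_iff_tendsto_slope] at h3
      have h4 : fderiv ℂ (y i) 0 u = ∑ b, u b * dd (ee n b) (y i) 0 := by
        conv_lhs => rw [show u = ∑ b, u b • ee n b by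
          funext i; simp [ee, Finset.sum_apply, Pi.single_apply]]
        rw [map_sum]
        simp only [map_smul, smul_eq_mul, dd]
      rw [h4] at h3
      refine h3.congr' ?_
      filter_upwards with lam
      simp [slope_def_field, hy0]
    have hlim : Tendsto (fun lam : ℂ => S (lam • u) / lam ^ (deg β0)) (𝓝[≠] 0)
        (𝓝 (∑ β ∈ Finset.univ.filter (fun β => deg β = deg β0),
      c β * ((∏ i, (∑ b, u b * dd (ee n b) (y i) 0) ^ (β i : ℕ)) *
        ((((β i0 : ℕ) : ℂ) + 1) * h 0)))) := by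
      have h1 : Tendsto (fun lam : ℂ => ∑ β, c β * lam ^ (deg β - deg β0) *
          ((∏ i, (y i (lam • u) / lam) ^ (β i : ℕ)) *
          ((((β i0 : ℕ) : ℂ) + 1) * h (lam • u) + y i0 (lam • u) * h' (lam • u)))) (𝓝[≠] 0)
          (𝓝 (∑ β, c β * (0 : ℂ) ^ (deg β - deg β0) *
          ((∏ i, (∑ b, u b * dd (ee n b) (y i) 0) ^ (β i : ℕ)) *
          ((((β i0 : ℕ) : ℂ) + 1) * h 0 + y i0 0 * h' 0)))) := by
        refine tendsto_finsetSum _ fun β _ => ?_
        refine Tendsto.mul (Tendsto.mul tendsto_const_nhds ?_) (Tendsto.mul ?_ ?_)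
        · exact ((continuous_pow _).tendsto (0 : ℂ)).mono_left nhdsWithin_le_nhds
        · exact tendsto_finsetProd _ fun i _ => (hyl i).pow _
        · have hc1 := ((hh.at 0).continuousAt.tendsto).comp hline
          have hc2 := ((hh'.at 0).continuousAt.tendsto).comp hline
          have hc3 := (((hy i0).at 0).continuousAt.tendsto).comp hline
          exact (tendsto_const_nhds.mul hc1).add (hc3.mul hc2)
      have h2 : ∑ β, c β * (0 : ℂ) ^ (deg β - deg β0) *
          ((∏ i, (∑ b, u b * dd (ee n b) (y i) 0) ^ (β i : ℕ)) *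
          ((((β i0 : ℕ) : ℂ) + 1) * h 0 + y i0 0 * h' 0)) =
          ∑ β ∈ Finset.univ.filter (fun β => deg β = deg β0),
      c β * ((∏ i, (∑ b, u b * dd (ee n b) (y i) 0) ^ (β i : ℕ)) *
        ((((β i0 : ℕ) : ℂ) + 1) * h 0)) := by
        rw [Finset.sum_filter]
        refine Finset.sum_congr rfl fun β _ => ?_
        by_cases hcβ : c β = 0
        · simp [hcβ]
        · split_ifs with hd
          · rw [hd, Nat.sub_self, pow_zero, hy0]; ring
          · have : deg β - deg β0 ≠ 0 := by
              have := hmin' β hcβ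
              omega
            rw [zero_pow this]; ring
      rw [h2] at h1
      refine h1.congr' ?_
      filter_upwards [self_mem_nhdsWithin] with lam hlam
      have hlam' : lam ≠ 0 := hlam
      simp only [S]
      rw [Finset.sum_div]
      refine Finset.sum_congr rfl fun β _ => ?_
      by_cases hcβ : c β = 0
      · simp [hcβ]
      · have h3 : lam ^ deg β = lam ^ (deg β - deg β0) * lam ^ deg β0 := by
          rw [← pow_add]; congr 1; have := hmin' β hcβ; omega
        have h4 : ∏ i, (y i (lam • u) / lam) ^ (β i : ℕ) =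
            (∏ i, y i (lam • u) ^ (β i : ℕ)) / lam ^ deg β := by
          rw [← Finset.prod_pow_eq_pow_sum, ← Finset.prod_div_distrib]
          refine Finset.prod_congr rfl fun i _ => ?_
          rw [div_pow]
        rw [h4, h3]
        field_simp
    exact tendsto_nhds_unique hlim hlim0
  let P : MvPolynomial (Fin n) ℂ := ∑ β ∈ Finset.univ.filter (fun β => deg β = deg β0),
    MvPolynomial.monomial (Finsupp.equivFunOnFinite.symm fun i => (β i : ℕ))
      (c β * (((β i0 : ℕ) : ℂ) + 1))
  have hP : P = 0 := by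
    apply MvPolynomial.funext
    intro v
    have hunit : IsUnit (Matrix.of fun i b => dd (ee n b) (y i) 0) := by
      rw [Matrix.isUnit_iff_isUnit_det]; exact isUnit_iff_ne_zero.2 hdet
    obtain ⟨u, hu⟩ := (Matrix.mulVec_surjective_iff_isUnit.2 hunit) v
    have hu' : ∀ i, ∑ b, u b * dd (ee n b) (y i) 0 = v i := by
      intro i
      rw [← hu, Matrix.mulVec, dotProduct]
      refine Finset.sum_congr rfl fun b _ => ?_
      rw [mul_comm]; rfl
    have h1 := key u
    simp only [hu'] at h1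
    simp only [P, map_sum, map_zero, MvPolynomial.eval_monomial]
    apply mul_left_cancel₀ h0
    rw [mul_zero, ← h1, Finset.mul_sum]
    refine Finset.sum_congr rfl fun β _ => ?_
    rw [Finsupp.prod_fintype _ _ (fun i => pow_zero _)]
    simp only [Finsupp.equivFunOnFinite_symm_apply_apply]
    ring
  have h5 := congrArg (MvPolynomial.coeff (Finsupp.equivFunOnFinite.symm fun i => (β0 i : ℕ))) hP
  simp only [P, MvPolynomial.coeff_sum, MvPolynomial.coeff_monomial, MvPolynomial.coeff_zero] at h5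
  rw [Finset.sum_eq_single β0] at h5
  · rw [if_pos rfl] at h5
    rcases mul_eq_zero.1 h5 with h6 | h6
    · exact hβ0c h6
    · exact Nat.cast_add_one_ne_zero _ h6
  · intro β _ hβ
    rw [if_neg]
    intro heq
    apply hβ
    funext i
    have := DFunLike.congr_fun heq i
    simp only [Finsupp.equivFunOnFinite_symm_apply_apply] at this
    exact Fin.ext this
  · intro hnot
    simp at hnot

end Pool.Agent.W732.OS
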