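import Mathlib
import Pool.Agent.W732.LB1

set_option autoImplicit false
set_option linter.unusedSectionVars false

open MvPolynomial Set Filter Topology

namespace Pool.Agent.W732.OS

section linalg

/-- Independent vectors have a nonzero minor. -/
lemma exists_minor {ι : Type*} {K : ℕ} {v : Fin K → (ι → ℂ)} (hv : LinearIndependent ℂ v) :
    ∃ J : Fin K → ι, (Matrix.of fun a b => v b (J a)).det ≠ 0 := by
  classical
  let col : ι → (Fin K → ℂ) := fun i b => v b i
  have htop : Submodule.span ℂ (range col) = ⊤ := by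
    by_contra hne
    obtain ⟨f, hf0, hf⟩ := Submodule.exists_le_ker_of_lt_top _ (lt_top_iff_ne_top.2 hne)
    apply hf0
    have h1 : ∀ w : Fin K → ℂ, f w = ∑ b, w b * f (Pi.single b 1) := by
      intro w
      conv_lhs => rw [show w = ∑ b, w b • (Pi.single b 1 : Fin K → ℂ) by
        funext i; simp [Finset.sum_apply, Pi.single_apply]]
      rw [map_sum]
      simp only [map_smul, smul_eq_mul]
    have h2 : ∑ b, f (Pi.single b 1) • v b = 0 := by
      funext i
      have h3 : f (col i) = 0 := hf (Submodule.subset_span ⟨i, rfl⟩)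
      rw [h1] at h3
      simp only [Finset.sum_apply, Pi.smul_apply, smul_eq_mul, Pi.zero_apply]
      rw [← h3]
      exact Finset.sum_congr rfl fun b _ => mul_comm _ _
    have h4 := Fintype.linearIndependent_iff.1 hv _ h2
    refine LinearMap.ext fun w => ?_
    rw [h1]
    simp [h4]
  obtain ⟨b, hb, hb1, hb2⟩ := exists_linearIndependent ℂ (range col)
  have hfin : b.Finite := hb2.setFinite
  have : Fintype b := hfin.fintype
  have hcard : Fintype.card b = K := by
    have h1 := Module.finrank_eq_card_basis (Module.Basis.mk hb2 (by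
      rw [Subtype.range_val, hb1, htop]))
    rw [Module.finrank_fin_fun] at h1
    exact h1.symm
  let ε := Fintype.equivFinOfCardEq hcard
  have hch : ∀ a : Fin K, ∃ i, col i = (ε.symm a : Fin K → ℂ) := fun a => hb (ε.symm a).2
  choose J hJ using hch
  refine ⟨J, ?_⟩
  have h5 : LinearIndependent ℂ (Matrix.of fun a b => v b (J a)).row := by
    have : (Matrix.of fun a b => v b (J a)).row = (Subtype.val : b → _) ∘ ε.symm := by
      funext a
      rw [Function.comp_apply, ← hJ a]
      rfl
    rw [this]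
    exact hb2.comp _ ε.symm.injective
  rw [Matrix.linearIndependent_rows_iff_isUnit, Matrix.isUnit_iff_isUnit_det] at h5
  exact h5.ne_zero

/-- Extraction of independent vectors from a spanning set. -/
lemma exists_indep_of_span {V : Type*} [AddCommGroup V] [Module ℂ V] [Module.Finite ℂ V]
    {T : Set V} {κ : Type*} [Fintype κ] {w : κ → V} (hw : LinearIndependent ℂ w)
    (hT : ∀ i, w i ∈ Submodule.span ℂ T) {K : ℕ} (hK : K = Fintype.card κ) :
    ∃ v : Fin K → V, (∀ a, v a ∈ T) ∧ LinearIndependent ℂ v := by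
  classical
  obtain ⟨b, hb, hb1, hb2⟩ := exists_linearIndependent ℂ T
  have hfin : b.Finite := hb2.setFinite
  have : Fintype b := hfin.fintype
  have h1 : Module.finrank ℂ (Submodule.span ℂ b) = Fintype.card b := by
    have := finrank_span_eq_card hb2
    rwa [Subtype.range_val] at this
  have h2 : Fintype.card κ ≤ Module.finrank ℂ (Submodule.span ℂ b) := by
    let w' : κ → Submodule.span ℂ b := fun i => ⟨w i, by rw [hb1]; exact hT i⟩
    have hw' : LinearIndependent ℂ w' := by
      apply LinearIndependent.of_comp (Submodule.span ℂ b).subtype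
      exact hw
    exact hw'.fintype_card_le_finrank
  rw [h1] at h2
  obtain ⟨f⟩ := Function.Embedding.nonempty_of_card_le (α := Fin K) (β := b)
    (by rw [Fintype.card_fin, hK]; exact h2)
  refine ⟨fun a => (f a : V), fun a => hb (f a).2, hb2.comp _ f.injective⟩

end linalg

section dl

variable {E : Type*} [NormedAddCommGroup E] [NormedSpace ℂ E] {β : Type*}

lemma DL_add (e : β → E) (l : List β) {f g : E → ℂ} (hf : An f) (hg : An g) :
    DL e l (fun x => f x + g x) = fun x => DL e l f x + DL e l g x := by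
  induction l generalizing f g with
  | nil => rfl
  | cons b l ih =>
    simp only [DL_cons]
    rw [dd_add hf hg, ih (hf.dd _) (hg.dd _)]

lemma dd_cmul {f : E → ℂ} (hf : An f) (c : ℂ) (v : E) :
    dd v (fun x => c * f x) = fun x => c * dd v f x := by
  rw [dd_mul (An.const c) hf]
  funext x
  simp [dd_const]

lemma DL_cmul (e : β → E) (l : List β) {f : E → ℂ} (hf : An f) (c : ℂ) :
    DL e l (fun x => c * f x) = fun x => c * DL e l f x := by
  induction l generalizing f with
  | nil => rfl
  | cons b l ih =>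
    simp only [DL_cons]
    rw [dd_cmul hf, ih (hf.dd _)]

end dl

variable {m : ℕ} {I : Ideal (MvPolynomial (Fin m) ℂ)}

lemma smul_LND {A : Type*} [CommRing A] [Algebra ℂ A] {Λ : Derivation ℂ A A} (h : IsLND Λ)
    {a : A} (ha : Λ a = 0) : IsLND (a • Λ) := by
  intro g
  obtain ⟨k, hk⟩ := h g
  have key : ∀ k, (⇑(a • Λ))^[k] g = a ^ k * (⇑Λ)^[k] g := by
    intro k
    induction k with
    | zero => simp
    | succ k ih =>
      rw [Function.iterate_succ_apply', ih, Function.iterate_succ_apply']
      simp only [Derivation.coe_smul, Pi.smul_apply, smul_eq_mul, Derivation.leibniz,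
        Derivation.leibniz_pow, ha]
      ring
  exact ⟨k, by rw [key, hk, mul_zero]⟩

lemma pow_ker {A : Type*} [CommRing A] [Algebra ℂ A] {Λ : Derivation ℂ A A}
    {a : A} (ha : Λ a = 0) (r : ℕ) : Λ (a ^ r) = 0 := by
  rw [Derivation.leibniz_pow, ha]; simp

lemma prod_ker {A : Type*} [CommRing A] [Algebra ℂ A] {Λ : Derivation ℂ A A} {ι : Type*}
    (s : Finset ι) {a : ι → A} (ha : ∀ i ∈ s, Λ (a i) = 0) : Λ (∏ i ∈ s, a i) = 0 := by
  classical
  induction s using Finset.induction_on with
  | empty => simp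
  | insert i s hi ih =>
    rw [Finset.prod_insert hi, Derivation.leibniz, ih (fun j hj => ha j (by simp [hj])),
      ha i (by simp)]
    simp

/-- The derivative of an automorphism along a derivation. -/
noncomputable def Wx (F : (Fin m → ℂ) → (Fin m → ℂ)) (V : Derivation ℂ (Ax I) (Ax I))
    (x : zeros I) (j : Fin m) : ℂ :=
  ∑ i, dd (Pi.single i 1) (fun y => F y j) x.1 * evx I x (V (xx I i))

lemma Wx_eq {F : (Fin m → ℂ) → (Fin m → ℂ)} (hF : AnalyticOnNhd ℂ F univ)
    (V : Derivation ℂ (Ax I) (Ax I)) (x : zeros I) (j : Fin m) :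
    Wx F V x j = fderiv ℂ F x.1 (vf I V x) j := by
  have h1 := fderiv_apply (hF x.1 trivial).differentiableAt j
  have h2 : fderiv ℂ F x.1 (vf I V x) j = fderiv ℂ (fun y => F y j) x.1 (vf I V x) := by
    rw [h1]; rfl
  rw [h2]
  conv_rhs => rw [show vf I V x = ∑ i, vf I V x i • (Pi.single i 1 : Fin m → ℂ) by
    funext i; simp [Finset.sum_apply, Pi.single_apply]]
  rw [map_sum]
  refine Finset.sum_congr rfl fun i _ => ?_
  rw [map_smul, smul_eq_mul, mul_comm]
  rfl

lemma Wx_An {F : (Fin m → ℂ) → (Fin m → ℂ)} (hF : AnalyticOnNhd ℂ F univ)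
    (V : Derivation ℂ (Ax I) (Ax I)) {E : Type*} [NormedAddCommGroup E] [NormedSpace ℂ E]
    {q : E → zeros I} (hq : AnX q) (j : Fin m) : An (fun z => Wx F V (q z) j) :=
  An.sum fun _ _ => (An.compX ((An.coord hF j).dd _) hq).mul (hq.evx _)

lemma Wx_add (F : (Fin m → ℂ) → (Fin m → ℂ)) (V V' : Derivation ℂ (Ax I) (Ax I))
    (x : zeros I) (j : Fin m) : Wx F (V + V') x j = Wx F V x j + Wx F V' x j := by
  simp only [Wx, Derivation.coe_add, Pi.add_apply, map_add, mul_add, Finset.sum_add_distrib]

lemma Wx_smul (F : (Fin m → ℂ) → (Fin m → ℂ)) (c : ℂ) (V : Derivation ℂ (Ax I) (Ax I))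
    (x : zeros I) (j : Fin m) : Wx F (c • V) x j = c * Wx F V x j := by
  simp only [Wx, Derivation.coe_smul, Pi.smul_apply, map_smul, smul_eq_mul, Finset.mul_sum]
  refine Finset.sum_congr rfl fun i _ => ?_
  ring

lemma chain_span {φ : zeros I ≃ zeros I} {F : (Fin m → ℂ) → (Fin m → ℂ)}
    (hF : AnalyticOnNhd ℂ F univ) (hFφ : ∀ x : zeros I, F x.1 = (φ x).1) {a : Ax I}
    {b : (Fin m → ℂ) → ℂ} (hb : An b) (hba : ∀ x : zeros I, b (φ x).1 = evx I x a)
    {V : Derivation ℂ (Ax I) (Ax I)}
    (hV : V ∈ Submodule.span ℂ {V : Derivation ℂ (Ax I) (Ax I) | IsLND V}) (x : zeros I) :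
    evx I x (V a) = ∑ j, dd (Pi.single j 1) b (φ x).1 * Wx F V x j := by
  induction hV using Submodule.span_induction with
  | mem V h =>
    have hV : IsLND V := h
    let γ : ℂ → zeros I := fun s => fl hV s x
    have hid : An (fun s : ℂ => s) := fun s _ => analyticAt_id
    have hγ : AnX γ := AnX.fl hV hid (AnX_const x)
    have hγ0 : γ 0 = x := fl_zero hV x
    have hγ' : DX γ 0 1 = vf I V x := by
      have := DX_fl hV (τ := fun s : ℂ => s) hid (AnX_const x) (z := 0) rfl 1
      rw [this, DX_const, zero_add]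
      have h3 : dd (1 : ℂ) (fun s : ℂ => s) 0 = 1 := by simp [dd]
      rw [h3, one_smul]
    have h1 := (hasDerivAt_evx hV x a 0).deriv
    have h2 : (fun s => evx I (fl hV s x) a) = fun s => b (φ (γ s)).1 := by
      funext s; rw [hba]
    rw [fl_zero, h2] at h1
    rw [← h1]
    have h3 : deriv (fun s => b (φ (γ s)).1) 0 = dd (1 : ℂ) (fun s => b (φ (γ s)).1) 0 := by
      simp [dd, fderiv_eq_smul_deriv]
    have hφγ : AnX (fun s => φ (γ s)) := Hol.AnX ⟨F, hF, hFφ⟩ hγ
    rw [h3, dd_compX hb hφγ, DX_hol hF hFφ hγ, hγ0, hγ']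
    conv_lhs => rw [show fderiv ℂ F x.1 (vf I V x) = ∑ j, (fderiv ℂ F x.1 (vf I V x) j) •
      (Pi.single j 1 : Fin m → ℂ) by funext i; simp [Finset.sum_apply, Pi.single_apply]]
    rw [map_sum]
    refine Finset.sum_congr rfl fun j _ => ?_
    rw [map_smul, smul_eq_mul, Wx_eq hF, mul_comm]
    rfl
  | zero => simp [Wx]
  | add V V' _ _ h1 h2 =>
    simp only [Derivation.coe_add, Pi.add_apply, map_add, h1, h2, Wx_add, mul_add,
      Finset.sum_add_distrib]
  | smul c V _ h1 =>
    simp only [Derivation.coe_smul, Pi.smul_apply, map_smul, h1, Wx_smul, smul_eq_mul,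
      Finset.mul_sum]
    refine Finset.sum_congr rfl fun j _ => ?_
    ring

end Pool.Agent.W732.OS
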