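import Mathlib
import Pool.Agent.W732.LB2

set_option autoImplicit false
set_option linter.unusedSectionVars false

open MvPolynomial Set Filter Topology

namespace Pool.Agent.W732.OS

variable {m : ℕ} {I : Ideal (MvPolynomial (Fin m) ℂ)}

/-- Derivative of a regular function along a map with known derivative. -/
lemma dd_evx_of {E : Type*} [NormedAddCommGroup E] [NormedSpace ℂ E] {q : E → zeros I}
    (hq : AnX q) {z v : E} {Θ : Derivation ℂ (Ax I) (Ax I)} (h : DX q z v = vf I Θ (q z))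
    (a : Ax I) : dd v (fun z => evx I (q z) a) z = evx I (q z) (Θ a) := by
  obtain ⟨P, rfl⟩ := Ideal.Quotient.mk_surjective a
  rw [dd_evx hq, der_mk, map_sum, h]
  refine Finset.sum_congr rfl fun j _ => ?_
  rw [map_mul, evx_mk]
  rfl

/-- Data for the lower bound. -/
structure LBData (𝔉 : Frame I) where
  Λ1 : Derivation ℂ (Ax I) (Ax I)
  Λ2 : Derivation ℂ (Ax I) (Ax I)
  y : Fin 𝔉.n → Ax I
  i0 : Fin 𝔉.n
  a0 : Ax I
  lnd1 : IsLND Λ1
  lnd2 : IsLND Λ2
  hy1 : ∀ i, i ≠ i0 → Λ1 (y i) = 0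
  hy2 : Λ2 (y i0) = 0
  ha : Λ1 a0 = 0
  n1 : Λ1 (y i0) ≠ 0
  n2 : Λ2 a0 ≠ 0
  n3 : (Matrix.of fun i l => 𝔉.Θ l (y i)).det ≠ 0

set_option maxHeartbeats 1000000 in
theorem lower (𝔉 : Frame I) (D : LBData 𝔉) {p : zeros I}
    (h1 : evx I p (D.Λ1 (D.y D.i0)) ≠ 0) (h2 : evx I p (D.Λ2 D.a0) ≠ 0)
    (h3 : evx I p (Matrix.of fun i l => 𝔉.Θ l (D.y i)).det ≠ 0)
    {φ : zeros I ≃ zeros I} {F : (Fin m → ℂ) → (Fin m → ℂ)}
    (hF : AnalyticOnNhd ℂ F univ) (hFφ : ∀ x : zeros I, F x.1 = (φ x).1)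
    (hφ' : Hol φ.symm) (M : ℕ) :
    ∃ (V : Fin ((M + 1) ^ 𝔉.n) → Derivation ℂ (Ax I) (Ax I)) (_ : ∀ a, IsLND (V a))
      (J : Fin ((M + 1) ^ 𝔉.n) → Fin m × List (Fin 𝔉.n)),
      (∀ a, (J a).2.length ≤ 𝔉.n * M) ∧
      (Matrix.of fun a b => DL (ee 𝔉.n) (J a).2
        (fun z => Wx F (V b) (𝔉.io p z) (J a).1) 0).det ≠ 0 := by
  classical
  have hio := 𝔉.io_An p
  have : Finite {l : List (Fin 𝔉.n) // l.length ≤ 𝔉.n * M} :=
    (List.finite_length_le (Fin 𝔉.n) (𝔉.n * M)).to_subtype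
  let Jm : Derivation ℂ (Ax I) (Ax I) →ₗ[ℂ]
      (Fin m × {l : List (Fin 𝔉.n) // l.length ≤ 𝔉.n * M} → ℂ) :=
    { toFun := fun V jl => DL (ee 𝔉.n) jl.2.1 (fun z => Wx F V (𝔉.io p z) jl.1) 0
      map_add' := fun V V' => by
        funext jl
        simp only [Wx_add, Pi.add_apply]
        rw [DL_add _ _ (Wx_An hF V hio jl.1) (Wx_An hF V' hio jl.1)]
      map_smul' := fun c V => by
        funext jl
        simp only [Wx_smul, Pi.smul_apply, RingHom.id_apply, smul_eq_mul]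
        rw [DL_cmul _ _ (Wx_An hF V hio jl.1)] }
  -- the shifted functions
  let yh : Fin 𝔉.n → Ax I := fun i => D.y i - algebraMap ℂ (Ax I) (evx I p (D.y i))
  have hyh : ∀ (Λ : Derivation ℂ (Ax I) (Ax I)) i, Λ (yh i) = Λ (D.y i) := by
    intro Λ i
    simp only [yh, map_sub, Derivation.map_algebraMap, sub_zero]
  have hyh0 : ∀ i, evx I p (yh i) = 0 := by
    intro i
    simp [yh]
  let aβ : (Fin 𝔉.n → Fin (M + 1)) → Ax I := fun β =>
    ∏ i ∈ Finset.univ.erase D.i0, yh i ^ (β i : ℕ)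
  have haβ : ∀ β, D.Λ1 (aβ β) = 0 := fun β => prod_ker _ fun i hi => pow_ker (by
    rw [hyh]; exact D.hy1 i (Finset.ne_of_mem_erase hi)) _
  let Vβ : (Fin 𝔉.n → Fin (M + 1)) → Derivation ℂ (Ax I) (Ax I) := fun β =>
    ⁅aβ β • D.Λ1, yh D.i0 ^ ((β D.i0 : ℕ) + 1) • D.Λ2⁆
  have hVspan : ∀ β, Vβ β ∈ Submodule.span ℂ {V : Derivation ℂ (Ax I) (Ax I) | IsLND V} := by
    intro β
    apply bracket_mem (adjoin_xx I)
    · exact smul_LND D.lnd1 (haβ β)
    · exact smul_LND D.lnd2 (pow_ker (by rw [hyh]; exact D.hy2) _)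
  have hVval : ∀ β, Vβ β D.a0 = (∏ i, yh i ^ (β i : ℕ)) *
      ((((β D.i0 : ℕ) : Ax I) + 1) * (D.Λ1 (D.y D.i0) * D.Λ2 D.a0) +
        yh D.i0 * D.Λ1 (D.Λ2 D.a0)) := by
    intro β
    have hprod : (∏ i, yh i ^ (β i : ℕ)) = yh D.i0 ^ (β D.i0 : ℕ) * aβ β :=
      (Finset.mul_prod_erase Finset.univ (fun i => yh i ^ (β i : ℕ))
        (Finset.mem_univ D.i0)).symm
    rw [hprod]
    simp only [Vβ, Derivation.commutator_apply, Derivation.coe_smul, Pi.smul_apply, smul_eq_mul,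
      D.ha, mul_zero, map_zero, sub_zero, Derivation.leibniz, Derivation.leibniz_pow, hyh,
      Nat.add_sub_cancel, nsmul_eq_mul]
    push_cast
    ring
  let T : Set (Fin m × {l : List (Fin 𝔉.n) // l.length ≤ 𝔉.n * M} → ℂ) :=
    Jm '' {V : Derivation ℂ (Ax I) (Ax I) | IsLND V}
  have hli : LinearIndependent ℂ (fun β => Jm (Vβ β)) := by
    rw [Fintype.linearIndependent_iff]
    intro c hc
    set V := ∑ β, c β • Vβ β with hV
    have hVs : V ∈ Submodule.span ℂ {V : Derivation ℂ (Ax I) (Ax I) | IsLND V} :=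
      Submodule.sum_mem _ fun β _ => Submodule.smul_mem _ _ (hVspan β)
    have hJV : Jm V = 0 := by
      rw [hV, map_sum]
      simp only [map_smul]
      exact hc
    have hZ : ∀ j, Zv (ee 𝔉.n) 0 (𝔉.n * M + 1) (fun z => Wx F V (𝔉.io p z) j) := by
      intro j l hl
      exact congrFun hJV (j, ⟨l, by omega⟩)
    obtain ⟨G, hG, hGφ⟩ := hφ'
    obtain ⟨P, hP⟩ := Ideal.Quotient.mk_surjective D.a0
    let b : (Fin m → ℂ) → ℂ := fun x => eval (G x) P
    have hb : An b := An.eval (fun j => An.coord hG j) P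
    have hba : ∀ x : zeros I, b (φ x).1 = evx I x D.a0 := by
      intro x
      simp only [b]
      rw [hGφ, ← hP, evx_mk, Equiv.symm_apply_apply]
    have hZS : Zv (ee 𝔉.n) 0 (𝔉.n * M + 1) (fun z => evx I (𝔉.io p z) (V D.a0)) := by
      have h4 : (fun z => evx I (𝔉.io p z) (V D.a0)) = fun z => ∑ j,
          dd (Pi.single j 1) b (φ (𝔉.io p z)).1 * Wx F V (𝔉.io p z) j := by
        funext z
        exact chain_span hF hFφ hb hba hVs _
      rw [h4]
      have hφι : AnX (fun z => φ (𝔉.io p z)) := Hol.AnX ⟨F, hF, hFφ⟩ hio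
      exact Zv.sum (fun j _ => (An.compX (hb.dd _) hφι).mul (Wx_An hF V hio j)) fun j _ =>
        Zv.mul (An.compX (hb.dd _) hφι) (Wx_An hF V hio j) (hZ j)
    have hSeq : (fun z => evx I (𝔉.io p z) (V D.a0)) = fun z => ∑ β, c β *
        ((∏ i, evx I (𝔉.io p z) (yh i) ^ (β i : ℕ)) *
        ((((β D.i0 : ℕ) : ℂ) + 1) * evx I (𝔉.io p z) (D.Λ1 (D.y D.i0) * D.Λ2 D.a0) +
          evx I (𝔉.io p z) (yh D.i0) * evx I (𝔉.io p z) (D.Λ1 (D.Λ2 D.a0)))) := by
      funext z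
      have h5 : V D.a0 = ∑ β, c β • Vβ β D.a0 := by
        rw [hV]
        have : ∀ (s : Finset (Fin 𝔉.n → Fin (M + 1))),
            (∑ β ∈ s, c β • Vβ β) D.a0 = ∑ β ∈ s, c β • Vβ β D.a0 := by
          intro s
          induction s using Finset.induction_on with
          | empty => simp
          | insert i s hi ih =>
            rw [Finset.sum_insert hi, Finset.sum_insert hi, Derivation.coe_add, Pi.add_apply, ih]
            rfl
        exact this _
      rw [h5, map_sum]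
      refine Finset.sum_congr rfl fun β _ => ?_
      rw [map_smul, hVval, smul_eq_mul]
      simp only [map_mul, map_add, map_prod, map_pow, map_natCast, map_one]
    rw [hSeq] at hZS
    have hdd : ∀ i b, dd (ee 𝔉.n b) (fun z => evx I (𝔉.io p z) (yh i)) 0 =
        evx I p (𝔉.Θ b (D.y i)) := by
      intro i b
      have h6 : DX (𝔉.io p) 0 (ee 𝔉.n b) = vf I (𝔉.Θ b) (𝔉.io p 0) := by
        rw [𝔉.DX_io, 𝔉.io_zero, Finset.sum_eq_single b]
        · simp [ee]
        · intro b' _ hb'; simp [ee, hb']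
        · simp
      rw [dd_evx_of hio h6, hyh, 𝔉.io_zero]
    have h7 := poly_indep (y := fun i z => evx I (𝔉.io p z) (yh i)) (fun i => hio.evx _)
      (fun i => by rw [𝔉.io_zero]; exact hyh0 i) (by
        have h8 : (Matrix.of fun i b => dd (ee 𝔉.n b) (fun z => evx I (𝔉.io p z) (yh i)) 0) =
            (evx I p : Ax I →+* ℂ).mapMatrix (Matrix.of fun i l => 𝔉.Θ l (D.y i)) := by
          ext i b
          exact hdd i b
        rw [h8, ← RingHom.map_det]
        exact h3)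
      (hio.evx (D.Λ1 (D.y D.i0) * D.Λ2 D.a0)) (hio.evx (D.Λ1 (D.Λ2 D.a0))) (by
        rw [𝔉.io_zero, map_mul]
        exact mul_ne_zero h1 h2) D.i0 c hZS
    intro β
    exact congrFun h7 β
  obtain ⟨v, hv, hvli⟩ := exists_indep_of_span (T := T) (K := (M + 1) ^ 𝔉.n) hli (by
    intro β
    have := hVspan β
    change Jm (Vβ β) ∈ Submodule.span ℂ T
    rw [← Submodule.map_span]
    exact Submodule.mem_map_of_mem this) (by simp)
  choose V hVlnd hVv using hv
  obtain ⟨J, hJ⟩ := exists_minor hvli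
  refine ⟨V, hVlnd, fun a => ((J a).1, (J a).2.1), fun a => (J a).2.2, ?_⟩
  have h9 : (Matrix.of fun a b => DL (ee 𝔉.n) (J a).2.1
        (fun z => Wx F (V b) (𝔉.io p z) (J a).1) 0) = (Matrix.of fun a b => v b (J a)) := by
    ext a b
    simp only [Matrix.of_apply]
    rw [← hVv b]
    rfl
  rw [h9]
  exact hJ

end Pool.Agent.W732.OS
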