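import Mathlib

set_option autoImplicit false

open MvPolynomial Set

namespace Pool.Agent.W732.OS

set_option synthInstance.maxHeartbeats 400000 in
set_option maxHeartbeats 1000000 in
open scoped IntermediateField.algebraAdjoinAdjoin in
lemma trdeg_adjoin_le (F : Subfield ℂ) (S : Finset ℂ) :
    Algebra.trdeg F (IntermediateField.adjoin F (S : Set ℂ)) ≤ (S.card : Cardinal) := by
  have h1 : Algebra.trdeg F (IntermediateField.adjoin F (S : Set ℂ)) =
      Algebra.trdeg F (Algebra.adjoin F (S : Set ℂ)) := by
    have h0 : Algebra.trdeg (Algebra.adjoin F (S : Set ℂ))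
        (IntermediateField.adjoin F (S : Set ℂ)) = 0 :=
      trdeg_eq_zero_iff.2 inferInstance
    rw [← trdeg_add_eq F (Algebra.adjoin F (S : Set ℂ))
      (A := IntermediateField.adjoin F (S : Set ℂ)), h0, add_zero]
  rw [h1]
  let f : MvPolynomial (S : Set ℂ) F →ₐ[F] (Algebra.adjoin F (S : Set ℂ)) :=
    aeval (fun s => ⟨s.1, Algebra.subset_adjoin s.2⟩)
  have hf : Function.Surjective f := by
    rintro ⟨y, hy⟩
    rw [Algebra.adjoin_eq_range] at hy
    obtain ⟨P, hP⟩ := hy
    refine ⟨P, Subtype.ext ?_⟩
    change ((Algebra.adjoin F (S : Set ℂ)).val (f P)) = y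
    rw [← hP]
    have : (Algebra.adjoin F (S : Set ℂ)).val.comp f =
        aeval (R := F) (fun s : (S : Set ℂ) => (s : ℂ)) := by
      apply MvPolynomial.algHom_ext
      intro i
      simp [f]
    exact DFunLike.congr_fun this P
  have h2 := trdeg_le_of_surjective f hf
  refine h2.trans ?_
  rw [MvPolynomial.trdeg_of_isDomain]
  simp

/-- More elements than generators are algebraically dependent. -/
lemma alg_dep (F : Subfield ℂ) (S : Finset ℂ) {K : ℕ} (hK : S.card < K) (x : Fin K → ℂ)
    (hx : ∀ a, x a ∈ Subfield.closure ((F : Set ℂ) ∪ S)) :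
    ∃ P : MvPolynomial (Fin K) F, P ≠ 0 ∧ aeval x P = 0 := by
  by_contra hcon
  push Not at hcon
  have hind : AlgebraicIndependent F x := by
    rw [algebraicIndependent_iff]
    intro P hP
    by_contra hne
    exact hcon P hne hP
  have hle : Subfield.closure ((F : Set ℂ) ∪ S) ≤
      (IntermediateField.adjoin F (S : Set ℂ)).toSubfield := by
    rw [Subfield.closure_le]
    rintro y (hy | hy)
    · exact (IntermediateField.adjoin F (S : Set ℂ)).algebraMap_mem ⟨y, hy⟩
    · exact IntermediateField.subset_adjoin F _ hy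
  let x' : Fin K → IntermediateField.adjoin F (S : Set ℂ) := fun a => ⟨x a, hle (hx a)⟩
  have hind' : AlgebraicIndependent F x' := by
    apply AlgebraicIndependent.of_comp (IntermediateField.adjoin F (S : Set ℂ)).val
    exact hind
  have h1 := hind'.cardinalMk_le_trdeg
  have h2 := h1.trans (trdeg_adjoin_le F S)
  rw [Cardinal.mk_fin] at h2
  have h3 : K ≤ S.card := by exact_mod_cast h2
  omega

end Pool.Agent.W732.OS
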