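import Mathlib
import Pool.Agent.W732.LB3
import Pool.Agent.W732.Trd

set_option autoImplicit false
set_option linter.unusedSectionVars false

open MvPolynomial Set Filter Topology

namespace Pool.Agent.W732.OS

variable {m : ℕ} {I : Ideal (MvPolynomial (Fin m) ℂ)}

section slices

variable {E1 E2 : Type*} [NormedAddCommGroup E1] [NormedSpace ℂ E1] [NormedAddCommGroup E2]
  [NormedSpace ℂ E2] {β : Type*}

lemma An.slice {Φ : E1 × E2 → ℂ} (hΦ : An Φ) (t : E1) : An (fun z => Φ (t, z)) :=
  fun z _ => (hΦ.at (t, z)).comp (analyticAt_const.prod analyticAt_id)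

lemma dd_slice {Φ : E1 × E2 → ℂ} (hΦ : An Φ) (t : E1) (z v : E2) :
    dd v (fun z => Φ (t, z)) z = dd ((0, v) : E1 × E2) Φ (t, z) := by
  have h1 : HasFDerivAt (fun z : E2 => ((t, z) : E1 × E2))
      (ContinuousLinearMap.inr ℂ E1 E2) z := by
    have := (hasFDerivAt_const (𝕜 := ℂ) t z).prodMk (hasFDerivAt_id (𝕜 := ℂ) z)
    exact this
  have h2 := ((hΦ.diffAt (t, z)).hasFDerivAt).comp z h1
  have h3 : HasFDerivAt (fun z => Φ (t, z)) _ z := h2
  simp only [dd]
  rw [h3.fderiv]
  simp

lemma DL_slice {Φ : E1 × E2 → ℂ} (hΦ : An Φ) (e : β → E2) (l : List β) (t : E1) (z : E2) :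
    DL e l (fun z => Φ (t, z)) z = DL (fun b => ((0, e b) : E1 × E2)) l Φ (t, z) := by
  induction l generalizing Φ with
  | nil => rfl
  | cons b l ih =>
    simp only [DL_cons]
    rw [← ih (hΦ.dd _)]
    congr 1
    funext z
    exact dd_slice hΦ t z (e b)

lemma dd_slice1 {Φ : E1 × E2 → ℂ} (hΦ : An Φ) (t v : E1) (z : E2) :
    dd v (fun t => Φ (t, z)) t = dd ((v, 0) : E1 × E2) Φ (t, z) := by
  have h1 : HasFDerivAt (fun t : E1 => ((t, z) : E1 × E2))
      (ContinuousLinearMap.inl ℂ E1 E2) t := by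
    have := (hasFDerivAt_id (𝕜 := ℂ) t).prodMk (hasFDerivAt_const (𝕜 := ℂ) z t)
    exact this
  have h2 := ((hΦ.diffAt (t, z)).hasFDerivAt).comp t h1
  have h3 : HasFDerivAt (fun t => Φ (t, z)) _ t := h2
  simp only [dd]
  rw [h3.fderiv]
  simp

lemma An.slice1 {Φ : E1 × E2 → ℂ} (hΦ : An Φ) (z : E2) : An (fun t => Φ (t, z)) := by
  intro t _
  have h : AnalyticAt ℂ (fun t : E1 => ((t, z) : E1 × E2)) t :=
    analyticAt_id.prod analyticAt_const
  exact AnalyticAt.comp (f := fun t : E1 => ((t, z) : E1 × E2)) (hΦ.at (t, z)) h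

lemma An.fst {h : E1 → ℂ} (hh : An h) : An (fun tz : E1 × E2 => h tz.1) :=
  fun tz _ => (hh.at tz.1).comp analyticAt_fst

lemma An.snd {h : E2 → ℂ} (hh : An h) : An (fun tz : E1 × E2 => h tz.2) :=
  fun tz _ => (hh.at tz.2).comp analyticAt_snd

lemma dd_DL {E : Type*} [NormedAddCommGroup E] [NormedSpace ℂ E] {e : β → E} {h : E → ℂ}
    (hh : An h) (l : List β) (v : E) : dd v (DL e l h) = DL e l (dd v h) := by
  induction l generalizing h with
  | nil => rfl
  | cons b l ih =>
    simp only [DL_cons]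
    rw [ih (hh.dd _), dd_comm hh]

end slices

/-- Cauchy estimates for iterated directional derivatives. -/
lemma DL_bound {n : ℕ} (l : List (Fin n)) : ∀ {h : (Fin n → ℂ) → ℂ}, An h → ∀ {C r : ℝ}, 0 ≤ C →
    (∀ z : Fin n → ℂ, ‖z‖ ≤ r + l.length → ‖h z‖ ≤ C) → ∀ z : Fin n → ℂ, ‖z‖ ≤ r →
    ‖DL (ee n) l h z‖ ≤ C := by
  induction l with
  | nil => intro h _ C r _ hb z hz; simpa using hb z (by simpa using hz)
  | cons b l ih =>
    intro h hh C r hC hb z hz
    simp only [DL_cons]
    refine ih (hh.dd _) hC ?_ z hz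
    intro y hy
    have h1 : dd (ee n b) h y = deriv (fun lam : ℂ => h (y + lam • ee n b)) 0 := by
      have h2 : HasDerivAt (fun lam : ℂ => y + lam • ee n b) (ee n b) 0 := by
        have := ((hasDerivAt_id (0 : ℂ)).smul_const (ee n b)).const_add y
        simpa using this
      have h3 : HasFDerivAt h (fderiv ℂ h y) (y + (0 : ℂ) • ee n b) := by
        rw [zero_smul, add_zero]; exact (hh.diffAt y).hasFDerivAt
      exact (h3.comp_hasDerivAt (0 : ℂ) h2).deriv.symm
    rw [h1]
    have h4 : Differentiable ℂ (fun lam : ℂ => h (y + lam • ee n b)) := by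
      apply hh.diff.comp
      exact (differentiable_const y).add (differentiable_id.smul_const _)
    have h5 := Complex.norm_deriv_le_of_forall_mem_sphere_norm_le (c := (0 : ℂ)) (R := 1) (C := C)
      one_pos h4.diffContOnCl (by
        intro lam hlam
        apply hb
        have h6 : ‖lam‖ = 1 := by simpa using hlam
        have h7 : ‖ee n b‖ ≤ 1 := by
          rw [pi_norm_le_iff_of_nonneg zero_le_one]
          intro i
          simp only [ee, Pi.single_apply]
          split_ifs <;> simp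
        calc ‖y + lam • ee n b‖ ≤ ‖y‖ + ‖lam • ee n b‖ := norm_add_le _ _
          _ ≤ (r + l.length) + 1 := by
            rw [norm_smul, h6, one_mul]
            exact add_le_add hy h7
          _ = r + (b :: l).length := by push_cast [List.length_cons]; ring)
    simpa using h5

variable (I) in
/-- The group of holomorphic automorphisms. -/
def autHol : Subgroup (zeros I ≃ₜ zeros I) where
  carrier := {φ | Hol φ ∧ Hol φ.symm}
  mul_mem' := fun {_ _} ha hb => ⟨ha.1.comp hb.1, hb.2.comp ha.2⟩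
  one_mem' := ⟨Hol.id, Hol.id⟩
  inv_mem' := fun {_} ha => ⟨ha.2, ha.1⟩

/-- The compact-open topology. -/
noncomputable instance instTopAut : TopologicalSpace (autHol I) :=
  TopologicalSpace.induced (fun φ => (φ.1 : C(zeros I, zeros I))) inferInstance

lemma continuous_toC : Continuous (fun φ : autHol I => (φ.1 : C(zeros I, zeros I))) :=
  continuous_induced_dom

/-- The flow of a locally nilpotent derivation as a holomorphic automorphism. -/
noncomputable def flA {Θ : Derivation ℂ (Ax I) (Ax I)} (h : IsLND Θ) (s : ℂ) : autHol I :=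
  ⟨{ toFun := fl h s
     invFun := fl h (-s)
     left_inv := fun x => by rw [fl_add, neg_add_cancel, fl_zero]
     right_inv := fun x => by rw [fl_add, add_neg_cancel, fl_zero]
     continuous_toFun := by
       have : Hol (fl h s) := hol_fl h s
       exact this.continuous
     continuous_invFun := by
       have : Hol (fl h (-s)) := hol_fl h (-s)
       exact this.continuous }, hol_fl h s, hol_fl h (-s)⟩
where
  hol_fl {Θ : Derivation ℂ (Ax I) (Ax I)} (h : IsLND Θ) (s : ℂ) : Hol (fl h s) := by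
    choose R hR using fun j => h (xx I j)
    choose P hP using fun a : Ax I => Ideal.Quotient.mk_surjective a
    refine ⟨fun x j => ∑ r ∈ Finset.range (R j), s ^ r * eval x (P (dpw Θ r (xx I j))), ?_, ?_⟩
    · apply AnalyticOnNhd.pi
      intro j
      have : An (fun x : Fin m → ℂ =>
          ∑ r ∈ Finset.range (R j), s ^ r * eval x (P (dpw Θ r (xx I j)))) :=
        An.sum fun r _ => (An.const _).mul
          (An.eval (ψ := fun x => x) (fun j => Frame.an_proj m j) _)
      exact this
    · intro x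
      funext j
      simp only
      rw [← evx_xx, fl_sum h s x _ (hR j)]
      refine Finset.sum_congr rfl fun r _ => ?_
      rw [← evx_mk, hP]

lemma flA_apply {Θ : Derivation ℂ (Ax I) (Ax I)} (h : IsLND Θ) (s : ℂ) (x : zeros I) :
    (flA h s).1 x = fl h s x := rfl

lemma continuous_fl_joint {Θ : Derivation ℂ (Ax I) (Ax I)} (h : IsLND Θ) {X : Type*}
    [TopologicalSpace X] {τ : X → ℂ} {q : X → zeros I} (hτ : Continuous τ) (hq : Continuous q) :
    Continuous (fun z => fl h (τ z) (q z)) := by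
  rw [continuous_induced_rng]
  refine continuous_pi fun j => ?_
  obtain ⟨R, hR⟩ := h (xx I j)
  have h1 : (fun z => (Subtype.val ∘ fun z => fl h (τ z) (q z)) z j) =
      fun z => ∑ r ∈ Finset.range R, τ z ^ r * evx I (q z) (dpw Θ r (xx I j)) := by
    funext z
    simp only [Function.comp_apply]
    rw [← evx_xx, fl_sum h _ _ _ hR]
  rw [h1]
  exact continuous_finsetSum _ fun r _ => (hτ.pow r).mul ((continuous_evx _).comp hq)

/-- Perturbations of an automorphism by flows. -/
noncomputable def pert {K : ℕ} {V : Fin K → Derivation ℂ (Ax I) (Ax I)} (hV : ∀ a, IsLND (V a))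
    (φ : autHol I) (t : Fin K → ℂ) : autHol I :=
  φ * ((List.finRange K).map fun b => flA (hV b) (t b)).prod

lemma prod_flA {K : ℕ} {V : Fin K → Derivation ℂ (Ax I) (Ax I)} (hV : ∀ a, IsLND (V a))
    (ls : List (Fin K)) (t : Fin K → ℂ) (x : zeros I) :
    ((ls.map fun b => flA (hV b) (t b)).prod : autHol I).1 x =
      ls.foldr (fun b y => fl (hV b) (t b) y) x := by
  induction ls with
  | nil => rfl
  | cons b ls ih =>
    rw [List.map_cons, List.prod_cons, List.foldr_cons, ← ih]
    rfl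

lemma pert_apply {K : ℕ} {V : Fin K → Derivation ℂ (Ax I) (Ax I)} (hV : ∀ a, IsLND (V a))
    (φ : autHol I) (t : Fin K → ℂ) (x : zeros I) :
    (pert hV φ t).1 x = φ.1 ((List.finRange K).foldr (fun b y => fl (hV b) (t b) y) x) := by
  rw [← prod_flA]; rfl

lemma pert_zero {K : ℕ} {V : Fin K → Derivation ℂ (Ax I) (Ax I)} (hV : ∀ a, IsLND (V a))
    (φ : autHol I) : pert hV φ 0 = φ := by
  apply Subtype.ext
  apply Homeomorph.ext
  intro x
  rw [pert_apply]
  congr 1
  have : ∀ ls : List (Fin K), ls.foldr (fun b y => fl (hV b) ((0 : Fin K → ℂ) b) y) x = x := by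
    intro ls
    induction ls with
    | nil => rfl
    | cons b ls ih => rw [List.foldr_cons, ih]; exact fl_zero _ _
  exact this _

lemma continuous_pert {K : ℕ} {V : Fin K → Derivation ℂ (Ax I) (Ax I)} (hV : ∀ a, IsLND (V a))
    (φ : autHol I) : Continuous (pert hV φ) := by
  rw [continuous_induced_rng]
  apply ContinuousMap.continuous_of_continuous_uncurry
  have h1 : (Function.uncurry fun (t : Fin K → ℂ) (x : zeros I) =>
      ((fun φ : autHol I => (φ.1 : C(zeros I, zeros I))) ∘ pert hV φ) t x) =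
      fun tx : (Fin K → ℂ) × zeros I =>
        φ.1 ((List.finRange K).foldr (fun b y => fl (hV b) (tx.1 b) y) tx.2) := by
    funext tx
    exact pert_apply hV φ tx.1 tx.2
  rw [h1]
  apply φ.1.continuous.comp
  have : ∀ ls : List (Fin K), Continuous (fun tx : (Fin K → ℂ) × zeros I =>
      ls.foldr (fun b y => fl (hV b) (tx.1 b) y) tx.2) := by
    intro ls
    induction ls with
    | nil => exact continuous_snd
    | cons b ls ih =>
      simp only [List.foldr_cons]
      exact continuous_fl_joint (hV b) ((continuous_apply b).comp continuous_fst) ih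
  exact this _

/-- The jet coordinates are continuous. -/
lemma continuous_jet (𝔉 : Frame I) (p : zeros I) (j : Fin m) (l : List (Fin 𝔉.n)) :
    Continuous (fun φ : autHol I => DL (ee 𝔉.n) l (fun z => (φ.1 (𝔉.io p z)).1 j) 0) := by
  rw [continuous_iff_continuousAt]
  intro φ0
  rw [Metric.continuousAt_iff']
  intro ε hε
  have h1 : Tendsto (fun φ : autHol I => (φ.1 : C(zeros I, zeros I))) (𝓝 φ0)
      (𝓝 (φ0.1 : C(zeros I, zeros I))) := continuous_toC.tendsto φ0
  rw [ContinuousMap.tendsto_iff_forall_isCompact_tendstoUniformlyOn] at h1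
  have hK : IsCompact (𝔉.io p '' Metric.closedBall 0 (0 + l.length)) :=
    (isCompact_closedBall _ _).image (𝔉.io_An p).continuous
  have h2 := Metric.tendstoUniformlyOn_iff.1 (h1 _ hK) (ε / 2) (half_pos hε)
  filter_upwards [h2] with φ hφ
  have hA : An (fun z => (φ.1 (𝔉.io p z)).1 j) := φ.2.1.AnX (𝔉.io_An p) j
  have hA0 : An (fun z => (φ0.1 (𝔉.io p z)).1 j) := φ0.2.1.AnX (𝔉.io_An p) j
  have h3 : DL (ee 𝔉.n) l (fun z => (φ.1 (𝔉.io p z)).1 j - (φ0.1 (𝔉.io p z)).1 j) 0 =
      DL (ee 𝔉.n) l (fun z => (φ.1 (𝔉.io p z)).1 j) 0 -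
      DL (ee 𝔉.n) l (fun z => (φ0.1 (𝔉.io p z)).1 j) 0 := by
    have e1 : (fun z => (φ.1 (𝔉.io p z)).1 j - (φ0.1 (𝔉.io p z)).1 j) =
        fun z => (φ.1 (𝔉.io p z)).1 j + (-1) * (φ0.1 (𝔉.io p z)).1 j := by
      funext z; ring
    rw [e1, DL_add _ _ hA ((An.const _).mul hA0), DL_cmul _ _ hA0]
    ring
  rw [dist_eq_norm, ← h3]
  have h4 := DL_bound l (hA.sub hA0) (C := ε / 2) (r := 0) (half_pos hε).le (by
    intro z hz
    have h5 := hφ (𝔉.io p z) ⟨z, by simpa using hz, rfl⟩
    rw [dist_comm] at h5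
    have h6 : dist ((φ.1 (𝔉.io p z)).1 j) ((φ0.1 (𝔉.io p z)).1 j) ≤
        dist (φ.1 (𝔉.io p z)) (φ0.1 (𝔉.io p z)) := dist_le_pi_dist _ _ _
    rw [dist_eq_norm] at h6
    exact h6.trans h5.le) 0 (by simp)
  exact lt_of_le_of_lt h4 (half_lt_self hε)

end Pool.Agent.W732.OS
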