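import Mathlib
import Pool.Agent.W732.Baire

set_option autoImplicit false
set_option linter.unusedSectionVars false

open MvPolynomial Set Filter Topology

namespace Pool.Agent.W732.OS

variable {m : ℕ} {I : Ideal (MvPolynomial (Fin m) ℂ)}

/-- Jet coordinates of an automorphism. -/
noncomputable def jet (𝔉 : Frame I) (p : zeros I) {K : ℕ}
    (J : Fin K → Fin m × List (Fin 𝔉.n)) (φ : autHol I) : Fin K → ℂ :=
  fun a => DL (ee 𝔉.n) (J a).2 (fun z => (φ.1 (𝔉.io p z)).1 (J a).1) 0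

/-- The jet coordinates can be moved independently by flows. -/
def GoodJ (𝔉 : Frame I) (p : zeros I) {K : ℕ}
    (J : Fin K → Fin m × List (Fin 𝔉.n)) (φ : autHol I) : Prop :=
  ∃ F : (Fin m → ℂ) → (Fin m → ℂ), AnalyticOnNhd ℂ F univ ∧
    (∀ x : zeros I, F x.1 = (φ.1 x).1) ∧
    ∃ V : Fin K → Derivation ℂ (Ax I) (Ax I), (∀ a, IsLND (V a)) ∧
      (Matrix.of fun a b => DL (ee 𝔉.n) (J a).2
        (fun z => Wx F (V b) (𝔉.io p z) (J a).1) 0).det ≠ 0

set_option maxHeartbeats 1000000 in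
lemma jet_open (𝔉 : Frame I) (p : zeros I) {K : ℕ} (J : Fin K → Fin m × List (Fin 𝔉.n))
    (φ : autHol I) {F : (Fin m → ℂ) → (Fin m → ℂ)} (hF : AnalyticOnNhd ℂ F univ)
    (hFφ : ∀ x : zeros I, F x.1 = (φ.1 x).1) {V : Fin K → Derivation ℂ (Ax I) (Ax I)}
    (hV : ∀ a, IsLND (V a))
    (hdet : (Matrix.of fun a b => DL (ee 𝔉.n) (J a).2
        (fun z => Wx F (V b) (𝔉.io p z) (J a).1) 0).det ≠ 0) :
    map (fun t => jet 𝔉 p J (pert hV φ t)) (𝓝 0) = 𝓝 (jet 𝔉 p J φ) := by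
  classical
  let q : (Fin K → ℂ) × (Fin 𝔉.n → ℂ) → zeros I := fun tz => 𝔉.io p tz.2
  have hq : AnX q := fun j => An.snd (𝔉.io_An p j)
  let τ : Fin K → (Fin K → ℂ) × (Fin 𝔉.n → ℂ) → ℂ := fun b tz => tz.1 b
  have hτ : ∀ b, An (τ b) := fun b => An.fst (Frame.an_proj K b)
  let Q : (Fin K → ℂ) × (Fin 𝔉.n → ℂ) → zeros I := Fold hV τ q (List.finRange K)
  have hQ : AnX Q := AnX.Fold hV hτ hq _
  let Φ : Fin m → (Fin K → ℂ) × (Fin 𝔉.n → ℂ) → ℂ := fun j tz => (φ.1 (Q tz)).1 j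
  have hΦ : ∀ j, An (Φ j) := fun j => φ.2.1.AnX hQ j
  have hpert : ∀ t z j, ((pert hV φ t).1 (𝔉.io p z)).1 j = Φ j (t, z) := by
    intro t z j
    rw [pert_apply]
    rfl
  let e' : Fin 𝔉.n → (Fin K → ℂ) × (Fin 𝔉.n → ℂ) := fun b => (0, ee 𝔉.n b)
  have hH : ∀ t a, jet 𝔉 p J (pert hV φ t) a = DL e' (J a).2 (Φ (J a).1) (t, 0) := by
    intro t a
    simp only [jet]
    rw [← DL_slice (hΦ _)]
    simp only [hpert]
  have hdQ : ∀ z b, DX Q (0, z) (ee K b, 0) = vf I (V b) (𝔉.io p z) := by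
    intro z b
    have h1 := DX_Fold hV hτ hq (List.finRange K) (z := ((0, z) : (Fin K → ℂ) × (Fin 𝔉.n → ℂ)))
      (fun _ => rfl) ((ee K b, 0) : (Fin K → ℂ) × (Fin 𝔉.n → ℂ))
    change DX (Fold hV τ q (List.finRange K)) (0, z) (ee K b, 0) = _
    rw [h1, ← Fin.sum_univ_def]
    have h2 : DX q (0, z) (ee K b, 0) = 0 := by
      funext j
      have h3 := dd_slice1 (Φ := fun tz : (Fin K → ℂ) × (Fin 𝔉.n → ℂ) => (q tz).1 j) (hq j) 0
        (ee K b) z
      have h4 : (fun t : Fin K → ℂ => (q (t, z)).1 j) = fun _ => (𝔉.io p z).1 j := rfl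
      rw [h4, dd_const] at h3
      exact h3.symm
    have h5 : ∀ b', dd ((ee K b, 0) : (Fin K → ℂ) × (Fin 𝔉.n → ℂ)) (τ b') (0, z) =
        (ee K b) b' := by
      intro b'
      have h3 := dd_slice1 (Φ := τ b') (hτ b') 0 (ee K b) z
      have h4 : (fun t : Fin K → ℂ => τ b' (t, z)) = fun t => t b' := rfl
      rw [h4, Frame.dd_proj] at h3
      exact h3.symm
    rw [h2, zero_add]
    simp only [h5]
    rw [Finset.sum_eq_single b]
    · simp [ee, q]
    · intro b' _ hb'; simp [ee, hb']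
    · simp
  have hQ0 : ∀ z, Q (0, z) = 𝔉.io p z := fun z => Fold_zero hV _ (fun _ => rfl)
  have hdΦ : ∀ z b j, dd ((ee K b, 0) : (Fin K → ℂ) × (Fin 𝔉.n → ℂ)) (Φ j) (0, z) =
      Wx F (V b) (𝔉.io p z) j := by
    intro z b j
    have h1 := congrFun (DX_hol hF hFφ hQ (0, z) (ee K b, 0)) j
    rw [hdQ, hQ0, ← Wx_eq hF] at h1
    exact h1
  have hmat : ∀ a b, dd (ee K b) (fun t => DL e' (J a).2 (Φ (J a).1) (t, 0)) 0 =
      DL (ee 𝔉.n) (J a).2 (fun z => Wx F (V b) (𝔉.io p z) (J a).1) 0 := by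
    intro a b
    rw [dd_slice1 (An.DL (hΦ _) _ _), dd_DL (hΦ _), ← DL_slice ((hΦ _).dd _)]
    simp only [hdΦ]
  let Hm : (Fin K → ℂ) → (Fin K → ℂ) := fun t a => DL e' (J a).2 (Φ (J a).1) (t, 0)
  have hHa : ∀ a, An (fun t => Hm t a) := fun a => An.slice1 (An.DL (hΦ _) _ _) 0
  have hHm : AnalyticAt ℂ Hm 0 := (AnalyticOnNhd.pi (fun a => hHa a)) 0 trivial
  have hst := hHm.hasStrictFDerivAt
  have hLv : ∀ v a, fderiv ℂ Hm 0 v a = ∑ b, v b * DL (ee 𝔉.n) (J a).2
      (fun z => Wx F (V b) (𝔉.io p z) (J a).1) 0 := by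
    intro v a
    have h1 := fderiv_apply hHm.differentiableAt a
    have h2 : fderiv ℂ Hm 0 v a = fderiv ℂ (fun t => Hm t a) 0 v := by rw [h1]; rfl
    rw [h2]
    conv_lhs => rw [show v = ∑ b, v b • ee K b by
      funext i; simp [ee, Finset.sum_apply, Pi.single_apply]]
    rw [map_sum]
    refine Finset.sum_congr rfl fun b _ => ?_
    rw [map_smul, smul_eq_mul, ← hmat a b]
    rfl
  have hsurj : (fderiv ℂ Hm 0).range = ⊤ := by
    rw [LinearMap.range_eq_top]
    intro w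
    have hunit : IsUnit (Matrix.of fun a b => DL (ee 𝔉.n) (J a).2
        (fun z => Wx F (V b) (𝔉.io p z) (J a).1) 0) := by
      rw [Matrix.isUnit_iff_isUnit_det]; exact isUnit_iff_ne_zero.2 hdet
    obtain ⟨v, hv⟩ := (Matrix.mulVec_surjective_iff_isUnit.2 hunit) w
    refine ⟨v, ?_⟩
    funext a
    change fderiv ℂ Hm 0 v a = w a
    rw [hLv, ← hv, Matrix.mulVec, dotProduct]
    refine Finset.sum_congr rfl fun b _ => ?_
    rw [mul_comm]; rfl
  have hmap := hst.map_nhds_eq_of_surj hsurj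
  have h6 : (fun t => jet 𝔉 p J (pert hV φ t)) = Hm := by
    funext t a; exact hH t a
  rw [h6, hmap]
  congr 1
  rw [← h6]
  simp only
  rw [pert_zero]

/-- The pieces of the set of words are nowhere dense. -/
theorem nowhere (𝔉 : Frame I) (p : zeros I) {K : ℕ} (J : Fin K → Fin m × List (Fin 𝔉.n))
    {k : Subfield ℂ} {P : MvPolynomial (Fin K) k} (hP : P ≠ 0) :
    IsNowhereDense {φ : connectedComponent (1 : autHol I) |
      GoodJ 𝔉 p J φ.1 ∧ aeval (jet 𝔉 p J φ.1) P = 0} := by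
  set s : Set (connectedComponent (1 : autHol I)) :=
    {φ | GoodJ 𝔉 p J φ.1 ∧ aeval (jet 𝔉 p J φ.1) P = 0} with hs
  rw [IsNowhereDense, eq_empty_iff_forall_notMem]
  intro x hx
  have hclosed : IsClosed {φ : connectedComponent (1 : autHol I) |
      aeval (jet 𝔉 p J φ.1) P = 0} := by
    have h1 : Continuous (fun φ : connectedComponent (1 : autHol I) => jet 𝔉 p J φ.1) :=
      continuous_pi fun a => (continuous_jet 𝔉 p _ _).comp continuous_subtype_val
    have h2 : ∀ x : Fin K → ℂ, aeval x P = eval x (MvPolynomial.map k.subtype P) := by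
      intro x
      rw [aeval_def, eval_map]
      rfl
    simp only [h2]
    exact isClosed_eq ((MvPolynomial.continuous_eval _).comp h1) continuous_const
  have hsub' : closure s ⊆ {φ : connectedComponent (1 : autHol I) |
      aeval (jet 𝔉 p J φ.1) P = 0} := closure_minimal (fun φ hφ => hφ.2) hclosed
  have hsub : ∀ φ : connectedComponent (1 : autHol I), φ ∈ closure s →
      aeval (jet 𝔉 p J φ.1) P = 0 := fun φ hφ => hsub' hφ
  obtain ⟨φ0, hφ0W, hφ0s⟩ := mem_closure_iff.1 (interior_subset hx) _ isOpen_interior hx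
  obtain ⟨⟨F, hF, hFφ, V, hV, hdet⟩, _⟩ := hφ0s
  have hT : ∀ t, pert hV φ0.1 t ∈ connectedComponent (1 : autHol I) := by
    intro t
    have hcc := connectedComponent_eq φ0.2
    have h3 : IsPreconnected (range (pert hV φ0.1)) :=
      isPreconnected_range (continuous_pert hV φ0.1)
    have h31 : pert hV φ0.1 t ∈ connectedComponent φ0.1 :=
      h3.subset_connectedComponent ⟨0, pert_zero hV φ0.1⟩ ⟨t, rfl⟩
    exact hcc.symm.subset h31
  let T : (Fin K → ℂ) → connectedComponent (1 : autHol I) := fun t => ⟨pert hV φ0.1 t, hT t⟩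
  have hTc : Continuous T := (continuous_pert hV φ0.1).subtype_mk _
  have hT0 : T 0 = φ0 := Subtype.ext (pert_zero hV φ0.1)
  have hnear : ∀ᶠ t in 𝓝 (0 : Fin K → ℂ), aeval (jet 𝔉 p J (pert hV φ0.1 t)) P = 0 := by
    have h4 : Tendsto T (𝓝 0) (𝓝 φ0) := by
      have := hTc.tendsto 0
      rwa [hT0] at this
    have hWn : interior (closure s) ∈ 𝓝 φ0 := IsOpen.mem_nhds isOpen_interior hφ0W
    have h41 : ∀ᶠ t in 𝓝 (0 : Fin K → ℂ), T t ∈ interior (closure s) := h4 hWn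
    filter_upwards [h41] with t ht
    exact hsub (T t) (interior_subset ht)
  have hmap := jet_open 𝔉 p J φ0.1 hF hFφ hV hdet
  have h5 : ∀ᶠ y in 𝓝 (jet 𝔉 p J φ0.1), aeval y P = 0 := by
    rw [← hmap]
    exact hnear
  apply hP
  have h6 : MvPolynomial.map k.subtype P = 0 := by
    apply MvPolynomial.funext
    intro y
    have h7 : (fun y : Fin K → ℂ => eval y (MvPolynomial.map k.subtype P)) = fun _ => 0 := by
      refine AnalyticOnNhd.eq_of_eventuallyEq (z₀ := jet 𝔉 p J φ0.1)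
        (An.eval (ψ := fun y => y) (fun j => Frame.an_proj K j) _) (An.const 0) ?_
      filter_upwards [h5] with y hy
      rw [← hy, aeval_def, eval_map]
      rfl
    rw [map_zero]
    exact congrFun h7 y
  exact MvPolynomial.map_injective _ k.subtype.injective (by rw [h6, map_zero])

end Pool.Agent.W732.OS
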