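import Mathlib
import Pool.Agent.W732.Baire2

set_option autoImplicit false
set_option linter.unusedSectionVars false

open MvPolynomial Set Filter Topology

namespace Pool.Agent.W732.OS

variable {m : ℕ} {I : Ideal (MvPolynomial (Fin m) ℂ)}

variable (I) in
/-- The group generated by the flow maps of overshears, explicit form. -/
noncomputable def gosE : Subgroup (autHol I) := Subgroup.closure {φ | IsOS (φ.1 : zeros I → zeros I)}

/-- A nonzero regular function is nonzero at some point. -/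
lemma exists_point (hI : I.IsPrime) {a : Ax I} (ha : a ≠ 0) : ∃ x : zeros I, evx I x a ≠ 0 := by
  obtain ⟨P, rfl⟩ := Ideal.Quotient.mk_surjective a
  by_contra hcon
  push Not at hcon
  apply ha
  rw [Ideal.Quotient.eq_zero_iff_mem]
  have h1 : P ∈ MvPolynomial.vanishingIdeal ℂ (MvPolynomial.zeroLocus ℂ I) := by
    rw [MvPolynomial.mem_vanishingIdeal_iff]
    intro x hx
    have hx' : x ∈ zeros I := by
      intro Q hQ
      have := hx Q hQ
      rwa [MvPolynomial.aeval_eq_eval] at this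
    have := hcon ⟨x, hx'⟩
    rw [evx_mk] at this
    rw [MvPolynomial.aeval_eq_eval]
    exact this
  rwa [MvPolynomial.vanishingIdeal_zeroLocus_eq_radical, hI.radical] at h1

lemma word_of_mem {φ : autHol I} (hφ : φ ∈ gosE I) :
    ∃ l : List (zeros I ≃ₜ zeros I),
      (∀ ω ∈ l, IsOS (ω : zeros I → zeros I) ∧ Hol ω ∧ Hol ω.symm) ∧ l.prod = φ.1 := by
  have h1 : φ ∈ (gosE I).toSubmonoid := hφ
  rw [gosE, Subgroup.closure_toSubmonoid] at h1
  obtain ⟨l, hl, rfl⟩ := Submonoid.exists_list_of_mem_closure h1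
  refine ⟨l.map Subtype.val, ?_, ?_⟩
  · intro ω hω
    obtain ⟨y, hy, rfl⟩ := List.mem_map.1 hω
    refine ⟨?_, y.2.1, y.2.2⟩
    rcases hl y hy with h | h
    · exact h
    · have h2 : IsOS ((y⁻¹ : autHol I).1 : zeros I → zeros I) := h
      have h3 := IsOS.symm h2
      exact h3
  · exact (SubmonoidClass.coe_list_prod l).symm

lemma card_ineq (a b n M : ℕ) (hn : 1 ≤ n) (hM : M = a + 2 * b * (n + 2) ^ (n - 1)) :
    a + 2 * b * (n * M + 2) ^ (n - 1) < (M + 1) ^ n := by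
  obtain ⟨r, rfl⟩ := Nat.exists_eq_add_of_le' hn
  simp only [Nat.add_sub_cancel] at *
  have h1 : (r + 1) * M + 2 ≤ (r + 1 + 2) * (M + 1) := by nlinarith
  have h2 : ((r + 1) * M + 2) ^ r ≤ (r + 1 + 2) ^ r * (M + 1) ^ r := by
    rw [← mul_pow]
    exact Nat.pow_le_pow_left h1 r
  have h3 : 1 ≤ (M + 1) ^ r := Nat.one_le_pow _ _ (by omega)
  calc a + 2 * b * ((r + 1) * M + 2) ^ r
      ≤ a * (M + 1) ^ r + 2 * b * ((r + 1 + 2) ^ r * (M + 1) ^ r) := by
        apply Nat.add_le_add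
        · exact Nat.le_mul_of_pos_right _ h3
        · exact Nat.mul_le_mul_left _ h2
    _ = (a + 2 * b * (r + 1 + 2) ^ r) * (M + 1) ^ r := by ring
    _ = M * (M + 1) ^ r := by rw [← hM]
    _ < (M + 1) * (M + 1) ^ r := by
        apply Nat.mul_lt_mul_of_pos_right (Nat.lt_succ_self M) h3
    _ = (M + 1) ^ (r + 1) := by ring

lemma countable_closure {s : Set ℂ} (hs : s.Countable) : Countable (Subfield.closure s) := by
  rw [← Cardinal.mk_le_aleph0_iff]
  refine (Subfield.cardinalMk_closure_le_max s).trans ?_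
  have : Cardinal.mk s ≤ Cardinal.aleph0 := Cardinal.mk_le_aleph0_iff.2 hs.to_subtype
  exact max_le this le_rfl

lemma countable_mvp {k : Subfield ℂ} (hk : Countable k) (K : ℕ) :
    Countable (MvPolynomial (Fin K) k) := by
  rw [← Cardinal.mk_le_aleph0_iff]
  refine MvPolynomial.cardinalMk_le_max.trans ?_
  have h1 : Cardinal.mk k ≤ Cardinal.aleph0 := Cardinal.mk_le_aleph0_iff.2 hk
  have h2 : Cardinal.mk (Fin K) ≤ Cardinal.aleph0 := Cardinal.mk_le_aleph0_iff.2 inferInstance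
  exact max_le (max_le h1 h2) le_rfl

set_option maxHeartbeats 1000000 in
theorem meagre_of_frame (hI : I.IsPrime) (𝔉 : Frame I) (D : LBData 𝔉) :
    IsMeagre {φ : connectedComponent (1 : autHol I) | φ.1 ∈ gosE I} := by
  classical
  have : I.IsPrime := hI
  have hn : 1 ≤ 𝔉.n := Nat.one_le_iff_ne_zero.2 fun h => by
    have := D.i0.2
    omega
  -- good points
  set κ : Ax I := 𝔉.e * (D.Λ1 (D.y D.i0) * (D.Λ2 D.a0 *
    (Matrix.of fun i l => 𝔉.Θ l (D.y i)).det)) with hκ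
  have hκ0 : κ ≠ 0 := mul_ne_zero 𝔉.e_ne (mul_ne_zero D.n1 (mul_ne_zero D.n2 D.n3))
  let U : Set (zeros I) := {x | evx I x κ ≠ 0}
  have hUo : IsOpen U := isOpen_ne_fun (continuous_evx κ) continuous_const
  have hUne : U.Nonempty := exists_point hI hκ0
  have hU : ∀ x ∈ U, evx I x 𝔉.e ≠ 0 ∧ evx I x (D.Λ1 (D.y D.i0)) ≠ 0 ∧
      evx I x (D.Λ2 D.a0) ≠ 0 ∧ evx I x (Matrix.of fun i l => 𝔉.Θ l (D.y i)).det ≠ 0 := by
    intro x hx
    have hx' : evx I x κ ≠ 0 := hx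
    rw [hκ, map_mul, map_mul, map_mul] at hx'
    refine ⟨left_ne_zero_of_mul hx', ?_, ?_, ?_⟩
    · exact left_ne_zero_of_mul (right_ne_zero_of_mul hx')
    · exact left_ne_zero_of_mul (right_ne_zero_of_mul (right_ne_zero_of_mul hx'))
    · exact right_ne_zero_of_mul (right_ne_zero_of_mul (right_ne_zero_of_mul hx'))
  obtain ⟨Q, hQc, hQd⟩ := TopologicalSpace.exists_countable_dense (zeros I)
  choose SΘ hSΘ using fun b => exists_coeffs_der I (𝔉.Θ b)
  let gen : zeros I → Set ℂ := fun p => range p.1 ∪ ⋃ b, (SΘ b : Set ℂ)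
  have hgen : ∀ p, (gen p).Countable := fun p =>
    (countable_range _).union (countable_iUnion fun b => (SΘ b).countable_toSet)
  let Fp : zeros I → Subfield ℂ := fun p => Subfield.closure (gen p)
  have hFp : ∀ p, Countable (Fp p) := fun p => countable_closure (hgen p)
  have hmvp : ∀ p K, Countable (MvPolynomial (Fin K) (Fp p)) := fun p K => countable_mvp (hFp p) K
  have : Countable Q := hQc.to_subtype
  have hmeagre : IsMeagre (⋃ (p : Q) (K : ℕ) (J : Fin K → Fin m × List (Fin 𝔉.n))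
      (P : {P : MvPolynomial (Fin K) (Fp p) // P ≠ 0}),
      {φ : connectedComponent (1 : autHol I) | GoodJ 𝔉 p J φ.1 ∧
        aeval (jet 𝔉 p J φ.1) P.1 = 0}) := by
    refine isMeagre_iUnion fun p => isMeagre_iUnion fun K => isMeagre_iUnion fun J => ?_
    have := hmvp p.1 K
    exact isMeagre_iUnion fun P => (nowhere 𝔉 p.1 J P.2).isMeagre
  refine hmeagre.mono ?_
  intro φ hφ
  obtain ⟨l, hl, hlφ⟩ := word_of_mem hφ
  obtain ⟨U', hU'U, hU'o, hU'ne, Sc, hSc⟩ := word 𝔉 l hl U hUo hUne (fun x hx => (hU x hx).1)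
  obtain ⟨p, hpU', hpQ⟩ := hQd.inter_open_nonempty U' hU'o hU'ne
  obtain ⟨g1, g2, g3, g4⟩ := hU p (hU'U hpU')
  let M := Sc.card + 2 * l.length * (𝔉.n + 2) ^ (𝔉.n - 1)
  obtain ⟨F, hF, hFφ⟩ := φ.1.2.1
  obtain ⟨V, hV, J, hJlen, hdet⟩ := lower 𝔉 D g2 g3 g4 (φ := φ.1.1.toEquiv) hF hFφ φ.1.2.2 M
  obtain ⟨S, hS, hS'⟩ := hSc p hpU' (𝔉.n * M)
  have hcard : (Sc ∪ S).card < (M + 1) ^ 𝔉.n :=
    lt_of_le_of_lt ((Finset.card_union_le _ _).trans (Nat.add_le_add_left hS _))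
      (card_ineq Sc.card l.length 𝔉.n M hn rfl)
  set k : Subfield ℂ := Subfield.closure ((Fp p : Set ℂ) ∪ ((Sc ∪ S : Finset ℂ) : Set ℂ)) with hk
  have hkF : (Fp p : Set ℂ) ⊆ k := fun x hx => Subfield.subset_closure (Or.inl hx)
  have hkS : ((Sc ∪ S : Finset ℂ) : Set ℂ) ⊆ k := fun x hx => Subfield.subset_closure (Or.inr hx)
  rw [Finset.coe_union, union_subset_iff] at hkS
  have hrat := hS' k hkS.1 hkS.2
    (fun j => hkF (Subfield.subset_closure (Or.inl ⟨j, rfl⟩)))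
    (fun b => hSΘ b k (fun x hx => hkF (Subfield.subset_closure
      (Or.inr (mem_iUnion.2 ⟨b, hx⟩)))))
  have hjet : ∀ a, jet 𝔉 p J φ.1 a ∈ k := by
    intro a
    have h1 := hrat (J a).1 (J a).2 ((hJlen a).trans (Nat.le_succ _))
    rw [hlφ] at h1
    exact h1
  obtain ⟨P, hP0, hP⟩ := alg_dep (Fp p) (Sc ∪ S) hcard (jet 𝔉 p J φ.1) hjet
  rw [mem_iUnion]
  refine ⟨⟨p, hpQ⟩, ?_⟩
  rw [mem_iUnion]
  refine ⟨(M + 1) ^ 𝔉.n, ?_⟩
  rw [mem_iUnion]
  refine ⟨J, ?_⟩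
  rw [mem_iUnion]
  exact ⟨⟨P, hP0⟩, ⟨F, hF, hFφ, V, hV, hdet⟩, hP⟩

end Pool.Agent.W732.OS
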